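import Pool.Agent.W889.FO.St0

set_option autoImplicit false

/-! The full reduction. -/

namespace Pool.Agent.W889.FO

open FirstOrder FirstOrder.Language

theorem finite_LB : Finite (Σ n, StB.LB.Relations n) := by
  refine Finite.of_surjective (α := Fin 6) (fun i => match i with
    | 0 => ⟨_, StB.RB.D⟩
    | 1 => ⟨_, StB.RB.C⟩
    | 2 => ⟨_, StB.RB.M⟩
    | 3 => ⟨_, StB.RB.fs⟩
    | 4 => ⟨_, StB.RB.sn⟩
    | 5 => ⟨_, StB.RB.sc⟩) ?_
  rintro ⟨n, Q⟩
  cases Q with
  | D => exact ⟨0, rfl⟩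
  | C => exact ⟨1, rfl⟩
  | M => exact ⟨2, rfl⟩
  | fs => exact ⟨3, rfl⟩
  | sn => exact ⟨4, rfl⟩
  | sc => exact ⟨5, rfl⟩

theorem finite_TL (k : ℕ) : Finite (TL k StB.LB).Symbols := by
  have h2 : Finite (Σ n, (TL k StB.LB).Relations n) := by
    have := finite_LB
    let p : Option (Σ n, StB.LB.Relations n) → Σ n, (TL k StB.LB).Relations n :=
      fun o => match o with
      | none => ⟨_, TR.eqv⟩
      | some q => ⟨_, TR.rel q.2⟩
    refine Finite.of_surjective p ?_
    rintro ⟨n, Q⟩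
    cases Q with
    | eqv => exact ⟨none, rfl⟩
    | rel R => exact ⟨some ⟨_, R⟩, rfl⟩
  have h3 : IsEmpty (Σ n, (TL k StB.LB).Functions n) :=
    ⟨fun p => Empty.elim p.2⟩
  exact inferInstanceAs (Finite ((Σ n, (TL k StB.LB).Functions n) ⊕
    Σ n, (TL k StB.LB).Relations n))

/-- the reduction -/
theorem full (k : ℕ) (h : ∀ T : (TL k StB.LB).Theory, T.IsComplete →
      (∀ S : (TL k StB.LB).Structure ℕ, @Theory.Model (TL k StB.LB) ℕ S T →
        Transitive k S ∧ NoAlgebraicity S) → VaughtF (TL k StB.LB) T)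
    (L : FirstOrder.Language.{0, 0}) (hL : Countable L.Symbols) (T : L.Theory) :
    VaughtF L T := by
  refine St0.reduce L (fun T1 => ?_) T
  have := St0.countable_LF (L := L)
  refine reduceAB (fun T2 => ?_) (St0.LF L) T1
  have : Countable (Σ n, StB.LB.Relations n) := StB.countable_LB
  obtain ⟨T', hT'⟩ := ax_theory (k := k) T2
  refine transfer T2 T' hT' ?_
  have : Countable (Σ n, (TL k StB.LB).Relations n) := by
    have h1 : Finite (TL k StB.LB).Symbols := finite_TL k
    exact (Sum.inr_injective (α := Σ n, (TL k StB.LB).Functions n)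
      (β := Σ n, (TL k StB.LB).Relations n)).countable
  refine of_complete T' fun S hS => ?_
  refine (vaughtF_iff _ _).1 (h _ ?_ fun S' hS' => ?_)
  · exact @completeTheory.isComplete (TL k StB.LB) ℕ S _
  · have hW : W S' := ((hT' S').1 (ax_iff.2 fun φ hφ =>
      ax_iff.1 hS' φ (ax_iff.1 hS φ hφ))).1
    exact ⟨hW.transitive, hW.noAlg⟩

end Pool.Agent.W889.FO
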