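import Pool.Agent.W889.FO.Cpl

set_option autoImplicit false

/-! From arbitrary countable languages to relational languages. -/

namespace Pool.Agent.W889.FO

open FirstOrder FirstOrder.Language

/-- The dichotomy of the frozen statement, for one theory in an arbitrary language. -/
def VaughtF (L : FirstOrder.Language.{0, 0}) (T : L.Theory) : Prop :=
  (∃ g : ℕ → L.Structure ℕ, ∀ S : L.Structure ℕ,
      @FirstOrder.Language.Theory.Model L ℕ S T →
        ∃ n : ℕ, Nonempty (@FirstOrder.Language.Equiv L ℕ ℕ S (g n))) ∨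
  (∃ f : (ℕ → Bool) → L.Structure ℕ,
      (∀ x : ℕ → Bool, @FirstOrder.Language.Theory.Model L ℕ (f x) T) ∧
      (∀ x y : ℕ → Bool,
          Nonempty (@FirstOrder.Language.Equiv L ℕ ℕ (f x) (f y)) → x = y) ∧
      (∀ (n : ℕ) (R : L.Relations n) (a : Fin n → ℕ),
          IsClopen {x : ℕ → Bool | @FirstOrder.Language.Structure.RelMap L ℕ (f x) n R a}) ∧
      (∀ (n : ℕ) (F : L.Functions n) (a : Fin n → ℕ) (b : ℕ),
          IsOpen {x : ℕ → Bool | @FirstOrder.Language.Structure.funMap L ℕ (f x) n F a = b}))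

theorem vaughtF_iff (L : FirstOrder.Language.{0, 0}) [L.IsRelational] (T : L.Theory) :
    VaughtF L T ↔ Vaught L T := by
  constructor
  · rintro (h | ⟨f, h1, h2, h3, -⟩)
    · exact Or.inl h
    · exact Or.inr ⟨f, h1, h2, h3⟩
  · rintro (h | ⟨f, h1, h2, h3⟩)
    · exact Or.inl h
    · exact Or.inr ⟨f, h1, h2, h3, fun n F => isEmptyElim F⟩

namespace St0

/-- the relation symbols -/
inductive RF (L : FirstOrder.Language.{0, 0}) : ℕ → Type
  | rel {n : ℕ} (R : L.Relations n) : RF L n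
  | fn {n : ℕ} (F : L.Functions n) : RF L (n + 1)

/-- the relational language -/
def LF (L : FirstOrder.Language.{0, 0}) : FirstOrder.Language.{0, 0} := ⟨fun _ => Empty, RF L⟩

instance (L : FirstOrder.Language.{0, 0}) : (LF L).IsRelational :=
  fun _ => inferInstanceAs (IsEmpty Empty)

variable {L : FirstOrder.Language.{0, 0}}

/-- the graph of a function -/
def gr (S : (LF L).Structure ℕ) {n : ℕ} (F : L.Functions n) (v : Fin n → ℕ) (b : ℕ) : Prop :=
  @Structure.RelMap (LF L) ℕ S _ (RF.fn F) (Fin.snoc (α := fun _ => ℕ) v b)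

/-- the axioms -/
structure W (S : (LF L).Structure ℕ) : Prop where
  ex : ∀ (F : Σ n, L.Functions n) (v : Fin F.1 → ℕ), ∃ b, gr S F.2 v b
  un : ∀ (F : Σ n, L.Functions n) (v : Fin F.1 → ℕ) b b', gr S F.2 v b → gr S F.2 v b' → b = b'

open Classical in
/-- the decoded structure -/
@[reducible] noncomputable def D (S : (LF L).Structure ℕ) : L.Structure ℕ where
  funMap := fun {_} F v => if h : ∃ b, gr S F v b then h.choose else 0
  RelMap := fun {_} R v => @Structure.RelMap (LF L) ℕ S _ (RF.rel R) v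

theorem fun_iff {S : (LF L).Structure ℕ} (h : W S) {n : ℕ} (F : L.Functions n) (v : Fin n → ℕ)
    (b : ℕ) : @Structure.funMap L ℕ (D S) n F v = b ↔ gr S F v b := by
  have hex := h.ex ⟨n, F⟩ v
  have h1 : @Structure.funMap L ℕ (D S) n F v = hex.choose := dif_pos hex
  rw [h1]
  constructor
  · rintro rfl
    exact hex.choose_spec
  · exact fun h2 => h.un ⟨n, F⟩ v _ _ hex.choose_spec h2

section fd

variable {V : (LF L).Structure ℕ → Prop} {α : Type}

theorem fd_gr {n : ℕ} (F : L.Functions n) (t : Fin n → α) (j : α) :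
    FD V (fun S v => gr S F (fun i => v (t i)) (v j)) := by
  refine (FD.rel (W := V) (L := LF L) (RF.fn F) (Fin.snoc (α := fun _ => α) t j)).congr
    fun S _ v => ?_
  have e : (fun m : Fin (n + 1) => v (Fin.snoc (α := fun _ => α) t j m)) =
      Fin.snoc (α := fun _ => ℕ) (fun i => v (t i)) (v j) := by
    funext m
    refine Fin.lastCases ?_ (fun m' => ?_) m
    · simp only [Fin.snoc_last]
    · simp only [Fin.snoc_castSucc]
  show @Structure.RelMap (LF L) ℕ S _ (RF.fn F)
    (fun m => v (Fin.snoc (α := fun _ => α) t j m)) ↔ _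
  rw [e]
  exact Iff.rfl

end fd

open StA (FD.all1 FD.ex1)

theorem ax_W (L : FirstOrder.Language.{0, 0}) : Ax (W (L := L)) := by
  have h1 : Ax (fun S : (LF L).Structure ℕ => ∀ (F : Σ n, L.Functions n) (v : Fin F.1 → ℕ),
      ∃ b, gr S F.2 v b) := Ax.all fun F => Ax.of <|
    FD.all (P := fun S _ v => ∃ b, gr S F.2 v b) <|
    FD.ex1 (P := fun S w b => gr S F.2 (fun i => w (Sum.inr i)) b) <|
    fd_gr F.2 (fun i => Sum.inl (Sum.inr i)) (Sum.inr ())
  have h2 : Ax (fun S : (LF L).Structure ℕ => ∀ (F : Σ n, L.Functions n) (v : Fin F.1 → ℕ),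
      ∀ b b', gr S F.2 v b → gr S F.2 v b' → b = b') := Ax.all fun F => Ax.of <|
    FD.all (P := fun S _ v => ∀ b b', gr S F.2 v b → gr S F.2 v b' → b = b') <|
    FD.all1 (P := fun S w b => ∀ b', gr S F.2 (fun i => w (Sum.inr i)) b →
      gr S F.2 (fun i => w (Sum.inr i)) b' → b = b') <|
    FD.all1 (P := fun S w b' => gr S F.2 (fun i => w (Sum.inl (Sum.inr i))) (w (Sum.inr ())) →
      gr S F.2 (fun i => w (Sum.inl (Sum.inr i))) b' → w (Sum.inr ()) = b') <|
    (fd_gr F.2 (fun i => Sum.inl (Sum.inl (Sum.inr i))) (Sum.inl (Sum.inr ()))).imp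
      ((fd_gr F.2 (fun i => Sum.inl (Sum.inl (Sum.inr i))) (Sum.inr ())).imp (FD.eq _ _))
  exact (h1.and h2).congr fun S => ⟨fun ⟨a, b⟩ => ⟨a, b⟩, fun ⟨a, b⟩ => ⟨a, b⟩⟩

theorem fd_term {γ : Type} (t : L.Term γ) :
    FD (L := LF L) W (fun S (w : γ ⊕ Unit → ℕ) =>
      @Term.realize L ℕ (D S) γ (fun i => w (Sum.inl i)) t = w (Sum.inr ())) := by
  induction t with
  | var i => exact FD.eq (Sum.inl i) (Sum.inr ())
  | @func n F ts ih =>
    have h1 : FD (L := LF L) W (fun S (w : γ ⊕ Unit → ℕ) => ∃ b : Fin n → ℕ,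
        (∀ i, @Term.realize L ℕ (D S) γ (fun i => w (Sum.inl i)) (ts i) = b i) ∧
          gr S F b (w (Sum.inr ()))) := by
      refine FD.ex (P := fun S w b =>
        (∀ i, @Term.realize L ℕ (D S) γ (fun i => w (Sum.inl i)) (ts i) = b i) ∧
          gr S F b (w (Sum.inr ()))) ?_
      refine (FD.fin fun i => ?_).and (fd_gr F (fun i => Sum.inr i) (Sum.inl (Sum.inr ())))
      exact (ih i).sub (Sum.elim (fun j => Sum.inl (Sum.inl j)) (fun _ => Sum.inr i))
    refine h1.congr fun S hS w => ?_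
    constructor
    · rintro ⟨b, hb1, hb2⟩
      rw [← fun_iff hS] at hb2
      rw [← hb2]
      show @Structure.funMap L ℕ (D S) n F (fun i => @Term.realize L ℕ (D S) γ _ (ts i)) = _
      congr 1
      funext i
      exact hb1 i
    · intro hb
      exact ⟨_, fun i => rfl, (fun_iff hS F _ _).1 hb⟩

/-- Translation of formulas. -/
theorem trans {β : Type} {n : ℕ} (φ : L.BoundedFormula β n) :
    FD (L := LF L) W (fun S (w : β ⊕ Fin n → ℕ) =>
      @BoundedFormula.Realize L ℕ (D S) _ _ φ (fun i => w (Sum.inl i))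
        (fun i => w (Sum.inr i))) := by
  have hel : ∀ {n : ℕ} (w : β ⊕ Fin n → ℕ), Sum.elim (fun i => w (Sum.inl i))
      (fun i => w (Sum.inr i)) = w := by
    intro n w
    funext i
    rcases i with i | i <;> rfl
  induction φ with
  | falsum => exact FD.const False
  | @equal n t1 t2 =>
    have h1 : FD (L := LF L) W (fun S (w : β ⊕ Fin n → ℕ) => ∃ b,
        @Term.realize L ℕ (D S) _ w t1 = b ∧ @Term.realize L ℕ (D S) _ w t2 = b) :=
      FD.ex1 (P := fun S w b => @Term.realize L ℕ (D S) _ w t1 = b ∧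
        @Term.realize L ℕ (D S) _ w t2 = b) ((fd_term t1).and (fd_term t2))
    refine h1.congr fun S hS w => ?_
    show _ ↔ @Term.realize L ℕ (D S) _ (Sum.elim (fun i => w (Sum.inl i))
      (fun i => w (Sum.inr i))) t1 = @Term.realize L ℕ (D S) _ (Sum.elim (fun i => w (Sum.inl i))
      (fun i => w (Sum.inr i))) t2
    rw [hel]
    constructor
    · rintro ⟨b, h2, h3⟩
      exact h2.trans h3.symm
    · exact fun h2 => ⟨_, h2, rfl⟩
  | @rel n l R ts =>
    have h1 : FD (L := LF L) W (fun S (w : β ⊕ Fin n → ℕ) => ∃ b : Fin l → ℕ,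
        (∀ i, @Term.realize L ℕ (D S) _ w (ts i) = b i) ∧
          @Structure.RelMap (LF L) ℕ S _ (RF.rel R) b) := by
      refine FD.ex (P := fun S w b =>
        (∀ i, @Term.realize L ℕ (D S) _ w (ts i) = b i) ∧
          @Structure.RelMap (LF L) ℕ S _ (RF.rel R) b) ?_
      refine (FD.fin fun i => ?_).and (FD.rel (L := LF L) (RF.rel R) (fun i => Sum.inr i))
      exact (fd_term (ts i)).sub (Sum.elim (fun j => Sum.inl j) (fun _ => Sum.inr i))
    refine h1.congr fun S hS w => ?_
    show _ ↔ @Structure.RelMap L ℕ (D S) l R (fun i => @Term.realize L ℕ (D S) _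
      (Sum.elim (fun i => w (Sum.inl i)) (fun i => w (Sum.inr i))) (ts i))
    rw [hel]
    constructor
    · rintro ⟨b, h2, h3⟩
      have e : (fun i => @Term.realize L ℕ (D S) _ w (ts i)) = b := funext h2
      rw [e]
      exact h3
    · exact fun h2 => ⟨_, fun i => rfl, h2⟩
  | @imp n f1 f2 h1 h2 => exact h1.imp h2
  | @all n f h =>
    refine FD.all1 (P := fun S (w : β ⊕ Fin n → ℕ) a =>
      @BoundedFormula.Realize L ℕ (D S) _ _ f (fun i => w (Sum.inl i))
        (Fin.snoc (fun i => w (Sum.inr i)) a)) ?_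
    let g : β ⊕ Fin (n + 1) → (β ⊕ Fin n) ⊕ Unit :=
      Sum.elim (fun b => Sum.inl (Sum.inl b))
        (fun i => Fin.lastCases (motive := fun _ => (β ⊕ Fin n) ⊕ Unit)
          (Sum.inr ()) (fun i' => Sum.inl (Sum.inr i')) i)
    refine (h.sub g).congr fun S hS w => ?_
    have e : (fun i => w (g (Sum.inr i))) =
        Fin.snoc (α := fun _ => ℕ) (fun i => w (Sum.inl (Sum.inr i))) (w (Sum.inr ())) := by
      funext m
      refine Fin.lastCases ?_ (fun m' => ?_) m
      · simp only [g, Sum.elim_inr, Fin.lastCases_last, Fin.snoc_last]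
      · simp only [g, Sum.elim_inr, Fin.lastCases_castSucc, Fin.snoc_castSucc]
    show @BoundedFormula.Realize L ℕ (D S) _ _ f _ (fun i => w (g (Sum.inr i))) ↔ _
    rw [e]
    exact Iff.rfl

/-- The structures whose decoded structure is a model of a theory are the models of a theory. -/
theorem ax_theory (T : L.Theory) :
    Ax (fun S : (LF L).Structure ℕ => W S ∧ @Theory.Model L ℕ (D S) T) := by
  have h : ∀ φ : T, Ax (fun S : (LF L).Structure ℕ => W S ∧
      @Sentence.Realize L ℕ (D S) φ.1) := by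
    intro φ
    refine Ax.of_fd (ax_W L) ?_
    refine ((trans (φ.1 : L.BoundedFormula Empty 0)).sub
      (Sum.elim (fun x => x) (fun x => x.elim0) : Empty ⊕ Fin 0 → Empty)).congr
      fun S hS v => ?_
    have key : ∀ (a b : Empty → ℕ) (a' b' : Fin 0 → ℕ),
        @BoundedFormula.Realize L ℕ (D S) _ _ φ.1 a a' ↔
          @BoundedFormula.Realize L ℕ (D S) _ _ φ.1 b b' := by
      intro a b a' b'
      rw [Subsingleton.elim a b, Subsingleton.elim a' b']
    exact key _ _ _ _
  refine ((ax_W L).and (Ax.all h)).congr fun S => ?_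
  constructor
  · rintro ⟨h1, h2⟩
    exact ⟨h1, (@Theory.model_iff L ℕ (D S) T).2 fun φ hφ => (h2 ⟨φ, hφ⟩).2⟩
  · rintro ⟨h1, h2⟩
    exact ⟨h1, fun φ => ⟨h1, (@Theory.model_iff L ℕ (D S) T).1 h2 φ.1 φ.2⟩⟩

theorem iso_down {S S' : (LF L).Structure ℕ} (h : W S) (h' : W S') (hi : SIso S S') :
    SIso (D S) (D S') := by
  obtain ⟨f⟩ := hi
  let σ : Equiv.Perm ℕ := @FirstOrder.Language.Equiv.toEquiv (LF L) ℕ ℕ S S' f
  have hr : ∀ {n : ℕ} (R : (LF L).Relations n) (v : Fin n → ℕ),
      @Structure.RelMap (LF L) ℕ S' n R (fun i => σ (v i)) ↔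
        @Structure.RelMap (LF L) ℕ S n R v := fun R v => iso_rel f R v
  refine ⟨@FirstOrder.Language.Equiv.mk L ℕ ℕ (D S) (D S') σ ?_ ?_⟩
  · intro n F v
    symm
    rw [fun_iff h']
    have h1 : gr S F v (@Structure.funMap L ℕ (D S) n F v) := (fun_iff h F v _).1 rfl
    have h2 := (hr _ _).2 h1
    have e : (fun i => σ (Fin.snoc (α := fun _ => ℕ) v (@Structure.funMap L ℕ (D S) n F v) i)) =
        Fin.snoc (α := fun _ => ℕ) (fun i => σ (v i))
          (σ (@Structure.funMap L ℕ (D S) n F v)) := by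
      funext m
      refine Fin.lastCases ?_ (fun m' => ?_) m
      · simp only [Fin.snoc_last]
      · simp only [Fin.snoc_castSucc]
    rw [e] at h2
    exact h2
  · intro n R v
    exact hr (RF.rel R) v

theorem iso_up {S S' : (LF L).Structure ℕ} (h : W S) (h' : W S') (hi : SIso (D S) (D S')) :
    SIso S S' := by
  obtain ⟨f⟩ := hi
  let σ : Equiv.Perm ℕ := @FirstOrder.Language.Equiv.toEquiv L ℕ ℕ (D S) (D S') f
  have hr : ∀ {n : ℕ} (R : L.Relations n) (v : Fin n → ℕ),
      @Structure.RelMap L ℕ (D S') n R (fun i => σ (v i)) ↔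
        @Structure.RelMap L ℕ (D S) n R v := fun R v => iso_rel f R v
  have hfn : ∀ {n : ℕ} (F : L.Functions n) (v : Fin n → ℕ),
      σ (@Structure.funMap L ℕ (D S) n F v) =
        @Structure.funMap L ℕ (D S') n F (fun i => σ (v i)) := fun F v =>
    @FirstOrder.Language.Equiv.map_fun L ℕ ℕ (D S) (D S') f _ F v
  obtain ⟨g, -⟩ := siso_of (S := S) (S' := S') σ (fun n Q v => by
    cases Q with
    | rel R => exact hr R v
    | @fn n F =>
      have e1 : v = Fin.snoc (α := fun _ => ℕ) (fun i => v i.castSucc) (v (Fin.last n)) := by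
        funext m
        refine Fin.lastCases ?_ (fun m' => ?_) m
        · simp only [Fin.snoc_last]
        · simp only [Fin.snoc_castSucc]
      have e2 : (fun i => σ (v i)) = Fin.snoc (α := fun _ => ℕ) (fun i => σ (v i.castSucc))
          (σ (v (Fin.last n))) := by
        funext m
        refine Fin.lastCases ?_ (fun m' => ?_) m
        · simp only [Fin.snoc_last]
        · simp only [Fin.snoc_castSucc]
      rw [e2]
      conv_rhs => rw [e1]
      show gr S' F (fun i => σ (v i.castSucc)) (σ (v (Fin.last n))) ↔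
        gr S F (fun i => v i.castSucc) (v (Fin.last n))
      rw [← fun_iff h', ← fun_iff h, ← hfn]
      exact σ.apply_eq_iff_eq)
  exact ⟨g⟩

/-- existence -/
theorem ex (M : L.Structure ℕ) : ∃ S : (LF L).Structure ℕ, W S ∧ SIso (D S) M := by
  let S : (LF L).Structure ℕ :=
    { funMap := fun {_} f => isEmptyElim f
      RelMap := fun {n} Q => match n, Q with
        | _, @RF.rel _ n R => fun v => @Structure.RelMap L ℕ M n R v
        | _, @RF.fn _ n F => fun v =>
            @Structure.funMap L ℕ M n F (fun i => v i.castSucc) = v (Fin.last n) }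
  have hg : ∀ {n : ℕ} (F : L.Functions n) (v : Fin n → ℕ) (b : ℕ),
      gr S F v b ↔ @Structure.funMap L ℕ M n F v = b := by
    intro n F v b
    show @Structure.funMap L ℕ M n F (fun i => Fin.snoc (α := fun _ => ℕ) v b i.castSucc) =
      Fin.snoc (α := fun _ => ℕ) v b (Fin.last n) ↔ _
    simp only [Fin.snoc_castSucc, Fin.snoc_last]
  have hW : W S := ⟨fun F v => ⟨_, (hg F.2 v _).2 rfl⟩, fun F v b b' h1 h2 =>
    ((hg F.2 v b).1 h1).symm.trans ((hg F.2 v b').1 h2)⟩
  refine ⟨S, hW, ⟨@FirstOrder.Language.Equiv.mk L ℕ ℕ (D S) M (Equiv.refl ℕ) ?_ ?_⟩⟩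
  · intro n F v
    show @Structure.funMap L ℕ (D S) n F v = @Structure.funMap L ℕ M n F v
    rw [fun_iff hW, hg]
  · intro n R v
    exact Iff.rfl

theorem countable_LF [Countable L.Symbols] : Countable (Σ n, (LF L).Relations n) := by
  let p : L.Symbols → Σ n, (LF L).Relations n := fun o => match o with
    | Sum.inl q => ⟨_, RF.fn q.2⟩
    | Sum.inr q => ⟨_, RF.rel q.2⟩
  refine Function.Surjective.countable (f := p) ?_
  rintro ⟨n, Q⟩
  cases Q with
  | rel R => exact ⟨Sum.inr ⟨_, R⟩, rfl⟩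
  | fn F => exact ⟨Sum.inl ⟨_, F⟩, rfl⟩

/-- the reduction -/
theorem reduce (L : FirstOrder.Language.{0, 0})
    (hV : ∀ T' : (LF L).Theory, Vaught (LF L) T') (T : L.Theory) : VaughtF L T := by
  obtain ⟨T', hT'⟩ := ax_theory T
  rcases hV T' with ⟨g, hg⟩ | ⟨f, hf1, hf2, hf3⟩
  · left
    refine ⟨fun n => D (g n), fun M hM => ?_⟩
    obtain ⟨S, hS, hi⟩ := ex M
    obtain ⟨n, hn⟩ := hg S ((hT' S).2 ⟨hS, hi.symm.model hM⟩)
    obtain ⟨T'', hT''⟩ := ax_W L
    have hgn : W (g n) := (hT'' (g n)).1 (SIso.model hn ((hT'' S).2 hS))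
    exact ⟨n, hi.symm.trans (iso_down hS hgn hn)⟩
  · right
    have hW : ∀ x, W (f x) := fun x => ((hT' _).1 (hf1 x)).1
    refine ⟨fun x => D (f x), fun x => ((hT' _).1 (hf1 x)).2,
      fun x y hxy => hf2 x y (iso_up (hW x) (hW y) hxy), fun n R a => hf3 n (RF.rel R) a,
      fun n F a b => ?_⟩
    have : {x : ℕ → Bool | @FirstOrder.Language.Structure.funMap L ℕ (D (f x)) n F a = b} =
        {x | @Structure.RelMap (LF L) ℕ (f x) _ (RF.fn F) (Fin.snoc (α := fun _ => ℕ) a b)} := by
      ext x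
      exact fun_iff (hW x) F a b
    rw [this]
    exact (hf3 _ (RF.fn F) _).isOpen

end St0

end Pool.Agent.W889.FO
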