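import Pool.Agent.W889.FO.Gen

set_option autoImplicit false

/-! Counting the elements of a set of natural numbers. -/

namespace Pool.Agent.W889.FO

open Pool.Agent.W889.VC (BP)

open Classical in
/-- the number of elements, `none` if there are infinitely many -/
noncomputable def cnt (P : ℕ → Prop) : Option ℕ :=
  if h : ∃ s : Finset ℕ, ∀ u, u ∈ s ↔ P u then some h.choose.card else none

theorem cnt_some {P : ℕ → Prop} {n : ℕ} :
    cnt P = some n ↔ ∃ s : Finset ℕ, s.card = n ∧ ∀ u, u ∈ s ↔ P u := by
  classical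
  constructor
  · intro h
    by_cases hex : ∃ s : Finset ℕ, ∀ u, u ∈ s ↔ P u
    · have h1 : cnt P = some hex.choose.card := dif_pos hex
      rw [h1, Option.some.injEq] at h
      exact ⟨_, h, hex.choose_spec⟩
    · have h1 : cnt P = none := dif_neg hex
      rw [h1] at h
      exact absurd h (by simp)
  · rintro ⟨s, rfl, hs⟩
    have hex : ∃ s : Finset ℕ, ∀ u, u ∈ s ↔ P u := ⟨s, hs⟩
    have h1 : cnt P = some hex.choose.card := dif_pos hex
    rw [h1]
    congr 2
    ext u
    rw [hex.choose_spec, hs]

theorem cnt_none {P : ℕ → Prop} : cnt P = none ↔ ∀ s : Finset ℕ, ¬ ∀ u, u ∈ s ↔ P u := by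
  classical
  constructor
  · intro h s hs
    have := cnt_some.2 ⟨s, rfl, hs⟩
    rw [h] at this
    exact absurd this (by simp)
  · intro h
    exact dif_neg fun ⟨s, hs⟩ => h s hs

theorem bp_cnt {Y : Type} [MeasurableSpace Y] {P : Y → ℕ → Prop}
    (h : ∀ u, BP (fun y => P y u)) (c : Option ℕ) : BP (fun y => cnt (P y) = c) := by
  cases c with
  | none =>
    refine (BP.all fun s : Finset ℕ => (BP.all fun u => (BP.const (u ∈ s)).iff (h u)).not).congr
      fun y => cnt_none.symm
  | some n =>
    refine (BP.ex fun s : Finset ℕ => (BP.const (s.card = n)).and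
      (BP.all fun u => (BP.const (u ∈ s)).iff (h u))).congr fun y => cnt_some.symm

/-- sets with the same number of elements -/
theorem cnt_equiv {P Q : ℕ → Prop} (h : cnt P = cnt Q) :
    Nonempty ({u // P u} ≃ {u // Q u}) := by
  classical
  rcases hP : cnt P with _ | n
  · have hQ : cnt Q = none := by rw [← h, hP]
    have key : ∀ {R : ℕ → Prop}, cnt R = none → Infinite {u // R u} := by
      intro R hR
      by_contra hfin
      rw [not_infinite_iff_finite] at hfin
      have hs : {u | R u}.Finite := hfin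
      exact cnt_none.1 hR hs.toFinset fun u => by simp
    have h1 := key hP
    have h2 := key hQ
    exact nonempty_equiv_of_countable
  · have hQ : cnt Q = some n := by rw [← h, hP]
    obtain ⟨s, hs1, hs2⟩ := cnt_some.1 hP
    obtain ⟨t, ht1, ht2⟩ := cnt_some.1 hQ
    have h1 : {u // P u} ≃ s := Equiv.subtypeEquivRight fun u => (hs2 u).symm
    have h2 : {u // Q u} ≃ t := Equiv.subtypeEquivRight fun u => (ht2 u).symm
    have h3 : s ≃ t := Finset.equivOfCardEq (hs1.trans ht1.symm)
    exact ⟨(h1.trans h3).trans h2.symm⟩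

/-- an infinite set -/
theorem inf_of_card {P : ℕ → Prop} (h : ∀ m : ℕ, ∃ X : Fin m → ℕ, Function.Injective X ∧
    ∀ i, P (X i)) (N : ℕ) : ∃ u, N ≤ u ∧ P u := by
  classical
  by_contra hcon
  push Not at hcon
  obtain ⟨X, h1, h2⟩ := h (N + 1)
  have h3 : ∀ i, X i < N := fun i => by
    by_contra hlt
    exact hcon _ (not_lt.1 hlt) (h2 i)
  have h5 : Function.Injective fun i => (⟨X i, h3 i⟩ : Fin N) := by
    intro i i' hii
    exact h1 (congrArg Fin.val hii)
  have := Fintype.card_le_of_injective _ h5
  simp at this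

end Pool.Agent.W889.FO
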