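import Pool.Agent.W889.TV.Basic

set_option autoImplicit false

/-! Generic colourings of the sets with `k + 1` elements. -/

namespace Pool.Agent.W889.FO

open Pool.Agent.W889.TV (bfS)

/-- generic colouring of the sets with `k + 1` elements -/
def GC (k : ℕ) (c : Finset ℕ → ℕ) : Prop :=
  ∀ (F : Finset ℕ) (q : Finset ℕ → ℕ), ∃ b, b ∉ F ∧ ∀ K, K ⊆ F → K.card = k →
    c (insert b K) = q K

theorem gc_exists (k : ℕ) : ∃ c, GC k c := by
  classical
  let ι := Σ F : Finset ℕ, ({K // K ∈ F.powerset} → ℕ)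
  obtain ⟨s, hs⟩ := exists_surjective_nat ι
  let c : Finset ℕ → ℕ := fun T =>
    if h : T.Nonempty then
      if h' : T.erase (T.max' h) ∈ (s (Nat.unpair (T.max' h)).1).1.powerset then
        (s (Nat.unpair (T.max' h)).1).2 ⟨_, h'⟩
      else 0
    else 0
  refine ⟨c, fun F q => ?_⟩
  obtain ⟨r, hr⟩ := hs ⟨F, fun K => q K.1⟩
  obtain ⟨N, hN⟩ : ∃ N, ∀ x ∈ F, x < N := ⟨F.sup id + 1, fun x hx =>
    Nat.lt_succ_of_le (Finset.le_sup (f := id) hx)⟩
  have hb : ∀ x ∈ F, x < Nat.pair r N := fun x hx => (hN x hx).trans_le (Nat.right_le_pair r N)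
  refine ⟨Nat.pair r N, fun h => lt_irrefl _ (hb _ h), fun K hK _ => ?_⟩
  have hne : (insert (Nat.pair r N) K).Nonempty := Finset.insert_nonempty _ _
  have hmax : (insert (Nat.pair r N) K).max' hne = Nat.pair r N := by
    apply le_antisymm
    · apply Finset.max'_le
      intro y hy
      rw [Finset.mem_insert] at hy
      rcases hy with rfl | hy
      · exact le_rfl
      · exact (hb y (hK hy)).le
    · exact Finset.le_max' _ _ (Finset.mem_insert_self _ _)
  have her : (insert (Nat.pair r N) K).erase (Nat.pair r N) = K :=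
    Finset.erase_insert fun h => lt_irrefl _ (hb _ (hK h))
  have key : ∀ (m : ℕ) (hm : m = Nat.pair r N) (K' : Finset ℕ) (hK' : K' = K),
      (if h' : K' ∈ (s (Nat.unpair m).1).1.powerset then
        (s (Nat.unpair m).1).2 ⟨_, h'⟩ else 0) = q K := by
    rintro m rfl K' rfl
    rw [Nat.unpair_pair]
    show (if h' : K' ∈ (s r).1.powerset then (s r).2 ⟨_, h'⟩ else 0) = q K'
    rw [hr]
    rw [dif_pos (Finset.mem_powerset.2 hK)]
  show (if h : (insert (Nat.pair r N) K).Nonempty then _ else 0) = q K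
  rw [dif_pos hne]
  exact key _ hmax _ (by rw [hmax, her])

/-- a finite partial isomorphism between colourings -/
structure PI (k : ℕ) (c c' : Finset ℕ → ℕ) (τ : Equiv.Perm ℕ) (F : Finset ℕ) (g : ℕ → ℕ) :
    Prop where
  inj : Set.InjOn g F
  col : ∀ T, T ⊆ F → T.card = k + 1 → c' (T.image g) = τ (c T)

variable {k : ℕ} {c c' : Finset ℕ → ℕ} {τ : Equiv.Perm ℕ} {F : Finset ℕ} {g : ℕ → ℕ}

theorem PI.step (h : PI k c c' τ F g) (hc' : GC k c') (a : ℕ) :
    ∃ F' g', F ⊆ F' ∧ a ∈ F' ∧ (∀ x ∈ F, g' x = g x) ∧ PI k c c' τ F' g' := by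
  classical
  by_cases ha : a ∈ F
  · exact ⟨F, g, Finset.Subset.refl _, ha, fun _ _ => rfl, h⟩
  obtain ⟨b, hb1, hb2⟩ := hc' (F.image g)
    (fun K' => τ (c (insert a (F.filter fun x => g x ∈ K'))))
  have hne : ∀ x ∈ F, Function.update g a b x = g x := fun x hx =>
    Function.update_of_ne (fun e : x = a => ha (e ▸ hx)) _ _
  have haa : Function.update g a b a = b := Function.update_self _ _ _
  refine ⟨insert a F, Function.update g a b, Finset.subset_insert _ _,
    Finset.mem_insert_self _ _, hne, ?_, ?_⟩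
  · intro x hx y hy hxy
    rw [Finset.mem_coe, Finset.mem_insert] at hx hy
    rcases hx with rfl | hx <;> rcases hy with rfl | hy
    · rfl
    · rw [haa, hne y hy] at hxy
      exact absurd (hxy ▸ Finset.mem_image_of_mem g hy) hb1
    · rw [haa, hne x hx] at hxy
      exact absurd (hxy ▸ Finset.mem_image_of_mem g hx) hb1
    · rw [hne x hx, hne y hy] at hxy
      exact h.inj hx hy hxy
  · intro T hT hcard
    by_cases haT : a ∈ T
    · have hKF : T.erase a ⊆ F := by
        intro x hx
        rw [Finset.mem_erase] at hx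
        have := hT hx.2
        rw [Finset.mem_insert] at this
        exact this.resolve_left hx.1
      have hKc : ((T.erase a).image g).card = k := by
        rw [Finset.card_image_of_injOn (h.inj.mono (by exact_mod_cast hKF)),
          Finset.card_erase_of_mem haT, hcard]
        rfl
      have h1 := hb2 ((T.erase a).image g) (Finset.image_subset_image hKF) hKc
      have h2 : (F.filter fun x => g x ∈ (T.erase a).image g) = T.erase a := by
        ext x
        rw [Finset.mem_filter]
        constructor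
        · rintro ⟨hx, hx'⟩
          rw [Finset.mem_image] at hx'
          obtain ⟨y, hy, hyx⟩ := hx'
          rw [← h.inj (hKF hy) hx hyx]
          exact hy
        · intro hx
          exact ⟨hKF hx, Finset.mem_image_of_mem g hx⟩
      rw [h2, Finset.insert_erase haT] at h1
      rw [← h1]
      congr 1
      conv_lhs => rw [← Finset.insert_erase haT]
      rw [Finset.image_insert, haa]
      congr 1
      apply Finset.image_congr
      intro x hx
      exact hne x (hKF hx)
    · have hTF : T ⊆ F := by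
        intro x hx
        have := hT hx
        rw [Finset.mem_insert] at this
        exact this.resolve_left fun e => haT (e ▸ hx)
      rw [← h.col T hTF hcard]
      congr 1
      apply Finset.image_congr
      intro x hx
      exact hne x (hTF hx)

theorem PI.symm (h : PI k c c' τ F g) :
    PI k c' c τ.symm (F.image g) (Function.invFunOn g F) := by
  have hinv : ∀ x ∈ F, Function.invFunOn g F (g x) = x := fun x hx =>
    h.inj (Function.invFunOn_mem ⟨x, hx, rfl⟩) hx (Function.invFunOn_eq ⟨x, hx, rfl⟩)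
  constructor
  · intro x hx y hy hxy
    rw [Finset.mem_coe, Finset.mem_image] at hx hy
    obtain ⟨x, hx, rfl⟩ := hx
    obtain ⟨y, hy, rfl⟩ := hy
    rw [hinv x hx, hinv y hy] at hxy
    rw [hxy]
  · intro T hT hcard
    have h1 : (T.image (Function.invFunOn g F)).image g = T := by
      rw [Finset.image_image]
      conv_rhs => rw [← Finset.image_id (s := T)]
      apply Finset.image_congr
      intro x hx
      have := hT hx
      rw [Finset.mem_image] at this
      obtain ⟨y, hy, rfl⟩ := this
      show g (Function.invFunOn g F (g y)) = id (g y)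
      rw [hinv y hy]
      rfl
    have h2 : T.image (Function.invFunOn g F) ⊆ F := by
      intro x hx
      rw [Finset.mem_image] at hx
      obtain ⟨y, hy, rfl⟩ := hx
      have := hT hy
      rw [Finset.mem_image] at this
      obtain ⟨z, hz, rfl⟩ := this
      rw [hinv z hz]
      exact hz
    have h3 : (T.image (Function.invFunOn g F)).card = k + 1 := by
      rw [← hcard]
      conv_rhs => rw [← h1]
      rw [Finset.card_image_of_injOn (h.inj.mono (by exact_mod_cast h2))]
    have h4 := h.col _ h2 h3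
    rw [h1] at h4
    rw [h4, Equiv.symm_apply_apply]

theorem PI.hinv (h : PI k c c' τ F g) (x : ℕ) (hx : x ∈ F) :
    Function.invFunOn g F (g x) = x :=
  h.inj (Function.invFunOn_mem ⟨x, hx, rfl⟩) hx (Function.invFunOn_eq ⟨x, hx, rfl⟩)

/-- finite partial isomorphisms between generic colourings extend -/
theorem PI.extend (h : PI k c c' τ F g) (hc : GC k c) (hc' : GC k c') :
    ∃ σ : Equiv.Perm ℕ, (∀ a ∈ F, σ a = g a) ∧
      ∀ T : Finset ℕ, T.card = k + 1 → c' (T.image σ) = τ (c T) := by
  classical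
  obtain ⟨e, he⟩ := bfS (A := ℕ) (B := ℕ)
    (fun f => ∃ F' g', F ⊆ F' ∧ (∀ x ∈ F, g' x = g x) ∧ f ⊆ F'.image (fun x => (x, g' x)) ∧
      PI k c c' τ F' g')
    ⟨F, g, Finset.Subset.refl _, fun _ _ => rfl, Finset.empty_subset _, h⟩
    (by
      rintro f ⟨F1, g1, h1, h2, h3, h4⟩ a
      obtain ⟨F2, g2, h5, h6, h7, h8⟩ := h4.step hc' a
      refine ⟨g2 a, F2.image (fun x => (x, g2 x)), ?_, Finset.mem_image_of_mem _ h6, F2, g2,
        h1.trans h5, fun x hx => by rw [h7 x (h1 hx), h2 x hx], Finset.Subset.refl _, h8⟩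
      refine h3.trans ?_
      intro q hq
      rw [Finset.mem_image] at hq ⊢
      obtain ⟨x, hx, rfl⟩ := hq
      exact ⟨x, h5 hx, by rw [h7 x hx]⟩)
    (by
      rintro f ⟨F1, g1, h1, h2, h3, h4⟩ b
      obtain ⟨F2, g2, h5, h6, h7, h8⟩ := h4.symm.step hc b
      have h9 := h8.symm
      rw [Equiv.symm_symm] at h9
      have e1 : ∀ x ∈ F1, x ∈ F2.image g2 := by
        intro x hx
        rw [Finset.mem_image]
        refine ⟨g1 x, h5 (Finset.mem_image_of_mem _ hx), ?_⟩
        rw [h7 _ (Finset.mem_image_of_mem _ hx), h4.hinv x hx]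
      have e2 : ∀ x ∈ F1, Function.invFunOn g2 F2 x = g1 x := by
        intro x hx
        have e3 : g2 (g1 x) = x := by
          rw [h7 _ (Finset.mem_image_of_mem _ hx), h4.hinv x hx]
        conv_lhs => rw [← e3]
        exact h8.hinv _ (h5 (Finset.mem_image_of_mem _ hx))
      refine ⟨g2 b, (F2.image g2).image (fun x => (x, Function.invFunOn g2 F2 x)), ?_, ?_,
        F2.image g2, Function.invFunOn g2 F2, fun x hx => e1 x (h1 hx),
        fun x hx => by rw [e2 x (h1 hx), h2 x hx], Finset.Subset.refl _, h9⟩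
      · refine h3.trans ?_
        intro q hq
        rw [Finset.mem_image] at hq ⊢
        obtain ⟨x, hx, rfl⟩ := hq
        exact ⟨x, e1 x hx, by rw [e2 x hx]⟩
      · rw [Finset.mem_image]
        exact ⟨g2 b, Finset.mem_image_of_mem _ h6, by rw [h8.hinv b h6]⟩)
    (by
      rintro f ⟨F1, g1, h1, h2, h3, h4⟩ p hp q hq
      have hp' := h3 hp
      have hq' := h3 hq
      rw [Finset.mem_image] at hp' hq'
      obtain ⟨x, hx, rfl⟩ := hp'
      obtain ⟨y, hy, rfl⟩ := hq'
      constructor
      · intro hxy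
        exact congrArg g1 hxy
      · intro hxy
        exact h4.inj hx hy hxy)
  refine ⟨e, fun a ha => ?_, fun T hT => ?_⟩
  · obtain ⟨f, ⟨F1, g1, h1, h2, h3, h4⟩, h5⟩ := he {a}
    have h6 := h3 (h5 a (Finset.mem_singleton_self a))
    rw [Finset.mem_image] at h6
    obtain ⟨x, hx, hxe⟩ := h6
    rw [Prod.mk.injEq] at hxe
    obtain ⟨rfl, hxe⟩ := hxe
    rw [← hxe, h2 x ha]
  · obtain ⟨f, ⟨F1, g1, h1, h2, h3, h4⟩, h5⟩ := he T
    have h6 : ∀ a ∈ T, a ∈ F1 ∧ e a = g1 a := by
      intro a ha
      have h6 := h3 (h5 a ha)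
      rw [Finset.mem_image] at h6
      obtain ⟨x, hx, hxe⟩ := h6
      rw [Prod.mk.injEq] at hxe
      obtain ⟨rfl, hxe⟩ := hxe
      exact ⟨hx, hxe.symm⟩
    rw [← h4.col T (fun a ha => (h6 a ha).1) hT]
    congr 1
    apply Finset.image_congr
    intro a ha
    exact (h6 a ha).2

end Pool.Agent.W889.FO
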