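import Pool.Agent.W889.FO.StB3
import Pool.Agent.H579R3.SB

set_option autoImplicit false

/-! Reduction to complete theories, by Silver's theorem. -/

namespace Pool.Agent.W889.FO

open FirstOrder FirstOrder.Language
open Pool.Agent.W889.VC (BP)

variable {L : FirstOrder.Language.{0, 0}}

theorem countable_sentence [L.IsRelational] [Countable (Σ n, L.Relations n)] :
    Countable L.Sentence := by
  have h1 : Countable (Σ n, L.Functions n) := by
    have : ∀ n, IsEmpty (L.Functions n) := fun n => inferInstance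
    infer_instance
  have h2 : Countable L.Symbols :=
    inferInstanceAs (Countable ((Σ n, L.Functions n) ⊕ Σ n, L.Relations n))
  have h3 : Cardinal.mk (Σ n, L.BoundedFormula Empty n) ≤ Cardinal.aleph0 := by
    refine BoundedFormula.card_le.trans ?_
    refine max_le le_rfl ?_
    rw [Cardinal.mk_eq_zero Empty]
    simp only [zero_add, Cardinal.lift_id]
    exact Cardinal.mk_le_aleph0
  have h4 : Countable (Σ n, L.BoundedFormula Empty n) := Cardinal.mk_le_aleph0_iff.1 h3
  exact (sigma_mk_injective (β := fun n => L.BoundedFormula Empty n) (i := 0)).countable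

/-- the structures are the points of the Cantor space -/
@[reducible] def dec [L.IsRelational] (x : (Σ n, L.Relations n × (Fin n → ℕ)) → Bool) :
    L.Structure ℕ where
  funMap := fun {_} f => isEmptyElim f
  RelMap := fun {n} R v => x ⟨n, R, v⟩ = true

theorem exists_dec [L.IsRelational] (S : L.Structure ℕ) :
    ∃ x : (Σ n, L.Relations n × (Fin n → ℕ)) → Bool, SIso S (dec x) := by
  classical
  refine ⟨fun p => decide (@Structure.RelMap L ℕ S p.1 p.2.1 p.2.2), ?_⟩
  obtain ⟨f, -⟩ := siso_of (S := S) (S' := dec fun p => decide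
    (@Structure.RelMap L ℕ S p.1 p.2.1 p.2.2)) (Equiv.refl ℕ) (fun n R v => by
      show decide (@Structure.RelMap L ℕ S n R v) = true ↔ _
      rw [decide_eq_true_iff])
  exact ⟨f⟩

theorem bp_sentence [L.IsRelational] {Y : Type} [MeasurableSpace Y] {f : Y → L.Structure ℕ}
    (hf : ∀ (n : ℕ) (R : L.Relations n) (a : Fin n → ℕ),
      BP (fun y => @Structure.RelMap L ℕ (f y) n R a)) (φ : L.Sentence) :
    BP (fun y => @Sentence.Realize L ℕ (f y) φ) :=
  bp_realize hf φ _ _

/-- The dichotomy for the complete theories of the models. -/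
theorem of_complete [L.IsRelational] [Countable (Σ n, L.Relations n)] (T : L.Theory)
    (h : ∀ S : L.Structure ℕ, @Theory.Model L ℕ S T →
      Vaught L (@FirstOrder.Language.completeTheory L ℕ S)) : Vaught L T := by
  classical
  have : Countable (Σ n, L.Relations n × (Fin n → ℕ)) := by
    have : ∀ n, Countable (L.Relations n) := fun n =>
      (sigma_mk_injective (β := L.Relations) (i := n)).countable
    infer_instance
  have hsc : Countable L.Sentence := countable_sentence
  have hP : PolishSpace ((Σ n, L.Relations n × (Fin n → ℕ)) → Bool) := by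
    have h1 : SecondCountableTopology ((Σ n, L.Relations n × (Fin n → ℕ)) → Bool) :=
      inferInstance
    have h2 : TopologicalSpace.IsCompletelyMetrizableSpace
      ((Σ n, L.Relations n × (Fin n → ℕ)) → Bool) := inferInstance
    exact {}
  have hdec : ∀ (n : ℕ) (R : L.Relations n) (a : Fin n → ℕ),
      BP (fun x : (Σ n, L.Relations n × (Fin n → ℕ)) → Bool =>
        @Structure.RelMap L ℕ (dec x) n R a) := fun n R a => by
    have h1 : IsClopen ((fun x : (Σ n, L.Relations n × (Fin n → ℕ)) → Bool =>
        x ⟨n, R, a⟩) ⁻¹' {true}) := (isClopen_discrete ({true} : Set Bool)).preimage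
      (continuous_apply (⟨n, R, a⟩ : Σ n, L.Relations n × (Fin n → ℕ)))
    exact h1.isOpen.measurableSet
  let E : ((Σ n, L.Relations n × (Fin n → ℕ)) → Bool) →
      ((Σ n, L.Relations n × (Fin n → ℕ)) → Bool) → Prop := fun x y =>
    ∀ φ : L.Sentence, @Sentence.Realize L ℕ (dec x) φ ↔ @Sentence.Realize L ℕ (dec y) φ
  have hE : Equivalence E := ⟨fun x φ => Iff.rfl, fun h φ => (h φ).symm,
    fun h h' φ => (h φ).trans (h' φ)⟩
  have hm : MeasurableSet {q : ((Σ n, L.Relations n × (Fin n → ℕ)) → Bool) ×
      ((Σ n, L.Relations n × (Fin n → ℕ)) → Bool) | E q.1 q.2} := by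
    have : BP (fun q : ((Σ n, L.Relations n × (Fin n → ℕ)) → Bool) ×
        ((Σ n, L.Relations n × (Fin n → ℕ)) → Bool) => E q.1 q.2) :=
      BP.all fun φ => (bp_sentence (f := fun q : ((Σ n, L.Relations n × (Fin n → ℕ)) → Bool) ×
        ((Σ n, L.Relations n × (Fin n → ℕ)) → Bool) => dec q.1)
        (fun n R a => (measurable_fst (hdec n R a))) φ).iff
        (bp_sentence (f := fun q : ((Σ n, L.Relations n × (Fin n → ℕ)) → Bool) ×
        ((Σ n, L.Relations n × (Fin n → ℕ)) → Bool) => dec q.2)
        (fun n R a => (measurable_snd (hdec n R a))) φ)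
    exact this
  have hA : MeasureTheory.AnalyticSet {x : (Σ n, L.Relations n × (Fin n → ℕ)) → Bool |
      @Theory.Model L ℕ (dec x) T} := by
    have : BP (fun x : (Σ n, L.Relations n × (Fin n → ℕ)) → Bool =>
        ∀ φ : T, @Sentence.Realize L ℕ (dec x) φ.1) := by
      have : Countable T := Subtype.countable
      exact BP.all fun φ => bp_sentence hdec φ.1
    refine MeasurableSet.analyticSet ?_
    refine (congrArg MeasurableSet (Set.ext fun x => ?_)).mp this
    constructor
    · intro h1
      exact ax_iff.2 fun φ hφ => h1 ⟨φ, hφ⟩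
    · intro h1 φ
      exact ax_iff.1 h1 φ.1 φ.2
  rcases Pool.Agent.H579R3.SV.silver hE hm hA with ⟨s, hs1, hs2, hs3⟩ | ⟨f, hf1, hf2, hf3⟩
  · -- countably many complete theories
    by_cases hp : ∃ x ∈ s, ∃ f : (ℕ → Bool) → L.Structure ℕ,
        (∀ y, @Theory.Model L ℕ (f y) (@FirstOrder.Language.completeTheory L ℕ (dec x))) ∧
        (∀ x y : ℕ → Bool, Nonempty (@FirstOrder.Language.Equiv L ℕ ℕ (f x) (f y)) → x = y) ∧
        (∀ (n : ℕ) (R : L.Relations n) (a : Fin n → ℕ),
          IsClopen {x : ℕ → Bool | @Structure.RelMap L ℕ (f x) n R a})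
    · right
      obtain ⟨x, hx, f, hf1, hf2, hf3⟩ := hp
      refine ⟨f, fun y => ax_iff.2 fun φ hφ => ax_iff.1 (hf1 y) φ ?_, hf2, hf3⟩
      exact ax_iff.1 (hs1 hx) φ hφ
    · left
      have hg : ∀ x ∈ s, ∃ g : ℕ → L.Structure ℕ, ∀ S : L.Structure ℕ,
          @Theory.Model L ℕ S (@FirstOrder.Language.completeTheory L ℕ (dec x)) →
            ∃ n : ℕ, Nonempty (@FirstOrder.Language.Equiv L ℕ ℕ S (g n)) := by
        intro x hx
        rcases h (dec x) (hs1 hx) with h1 | ⟨f, hf⟩
        · exact h1
        · exact absurd ⟨x, hx, f, hf⟩ hp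
      rcases s.eq_empty_or_nonempty with he | hne
      · refine ⟨fun _ => dec fun _ => true, fun S hS => ?_⟩
        obtain ⟨x, hx⟩ := exists_dec S
        obtain ⟨y, hy, -⟩ := hs3 x (hx.model hS)
        rw [he] at hy
        exact absurd hy (Set.notMem_empty y)
      · obtain ⟨e, he⟩ := hs2.exists_eq_range hne
        have hes : ∀ n, e n ∈ s := fun n => by
          rw [he]
          exact ⟨n, rfl⟩
        choose g hg using fun n => hg (e n) (hes n)
        refine ⟨fun n => g (Nat.unpair n).1 (Nat.unpair n).2, fun S hS => ?_⟩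
        obtain ⟨x, hx⟩ := exists_dec S
        obtain ⟨y, hy, hxy⟩ := hs3 x (hx.model hS)
        rw [he] at hy
        obtain ⟨n, rfl⟩ := hy
        obtain ⟨m, hm⟩ := hg n (dec x) (ax_iff.2 fun φ hφ => (hxy φ).2 hφ)
        have hnm : g (Nat.unpair (Nat.pair n m)).1 (Nat.unpair (Nat.pair n m)).2 = g n m := by
          rw [Nat.unpair_pair]
        refine ⟨Nat.pair n m, ?_⟩
        show SIso S (g (Nat.unpair (Nat.pair n m)).1 (Nat.unpair (Nat.pair n m)).2)
        rw [hnm]
        exact hx.trans hm
  · right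
    refine ⟨fun x => dec (f x), hf2, fun x y hxy => ?_, fun n R a => ?_⟩
    · by_contra hne
      apply hf3 x y hne
      intro φ
      obtain ⟨e⟩ := hxy
      exact @StrongHomClass.realize_sentence L ℕ ℕ (dec (f x)) (dec (f y)) _ _ _ e φ
    · exact (isClopen_discrete ({true} : Set Bool)).preimage ((continuous_apply
        (⟨n, R, a⟩ : Σ n, L.Relations n × (Fin n → ℕ))).comp hf1)

end Pool.Agent.W889.FO
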