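import Mathlib

set_option autoImplicit false

/-! Predicates on structures and assignments which are uniformly first-order definable. -/

namespace Pool.Agent.W889.FO

open FirstOrder FirstOrder.Language

variable {L : FirstOrder.Language.{0, 0}}

/-- the predicate `P` is defined by a formula in all structures on `ℕ` with the property `W` -/
def FD (W : L.Structure ℕ → Prop) {α : Type} (P : L.Structure ℕ → (α → ℕ) → Prop) : Prop :=
  ∃ ψ : L.Formula α, ∀ S : L.Structure ℕ, W S → ∀ v, @Formula.Realize L ℕ S α ψ v ↔ P S v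

variable {W : L.Structure ℕ → Prop} {α β : Type}

theorem FD.congr {P Q : L.Structure ℕ → (α → ℕ) → Prop} (h : FD W P)
    (hPQ : ∀ S, W S → ∀ v, P S v ↔ Q S v) : FD W Q := by
  obtain ⟨ψ, hψ⟩ := h
  exact ⟨ψ, fun S hS v => (hψ S hS v).trans (hPQ S hS v)⟩

theorem FD.mono {V : L.Structure ℕ → Prop} {P : L.Structure ℕ → (α → ℕ) → Prop} (h : FD V P)
    (hVW : ∀ S, W S → V S) : FD W P := by
  obtain ⟨ψ, hψ⟩ := h
  exact ⟨ψ, fun S hS v => hψ S (hVW S hS) v⟩

theorem FD.not {P : L.Structure ℕ → (α → ℕ) → Prop} (h : FD W P) :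
    FD W (fun S v => ¬ P S v) := by
  obtain ⟨ψ, hψ⟩ := h
  refine ⟨ψ.not, fun S hS v => ?_⟩
  show _ ↔ ¬ P S v
  rw [← hψ S hS v]
  exact Formula.realize_not

theorem FD.and {P Q : L.Structure ℕ → (α → ℕ) → Prop} (h : FD W P) (h' : FD W Q) :
    FD W (fun S v => P S v ∧ Q S v) := by
  obtain ⟨ψ, hψ⟩ := h
  obtain ⟨χ, hχ⟩ := h'
  refine ⟨ψ ⊓ χ, fun S hS v => ?_⟩
  show _ ↔ P S v ∧ Q S v
  rw [← hψ S hS v, ← hχ S hS v]
  exact Formula.realize_inf

theorem FD.imp {P Q : L.Structure ℕ → (α → ℕ) → Prop} (h : FD W P) (h' : FD W Q) :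
    FD W (fun S v => P S v → Q S v) := by
  obtain ⟨ψ, hψ⟩ := h
  obtain ⟨χ, hχ⟩ := h'
  refine ⟨ψ.imp χ, fun S hS v => ?_⟩
  show _ ↔ (P S v → Q S v)
  rw [← hψ S hS v, ← hχ S hS v]
  exact Formula.realize_imp

theorem FD.or {P Q : L.Structure ℕ → (α → ℕ) → Prop} (h : FD W P) (h' : FD W Q) :
    FD W (fun S v => P S v ∨ Q S v) :=
  (h.not.imp h').congr fun S _ v => by tauto

theorem FD.iff {P Q : L.Structure ℕ → (α → ℕ) → Prop} (h : FD W P) (h' : FD W Q) :
    FD W (fun S v => P S v ↔ Q S v) :=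
  ((h.imp h').and (h'.imp h)).congr fun S _ v => by tauto

theorem FD.const (c : Prop) : FD W (fun _ (_ : α → ℕ) => c) := by
  by_cases hc : c
  · refine ⟨⊤, fun S _ v => ?_⟩
    simp only [hc, iff_true]
    exact Formula.realize_top.2 trivial
  · refine ⟨⊥, fun S _ v => ?_⟩
    simp only [hc, iff_false]
    exact fun h => Formula.realize_bot.1 h

theorem FD.eq (i j : α) : FD W (fun _ v => v i = v j) := by
  refine ⟨Term.equal (Term.var i) (Term.var j), fun S _ v => ?_⟩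
  exact Formula.realize_equal

theorem FD.rel {n : ℕ} (R : L.Relations n) (t : Fin n → α) :
    FD W (fun S v => @Structure.RelMap L ℕ S n R (fun i => v (t i))) := by
  refine ⟨R.formula (fun i => Term.var (t i)), fun S _ v => ?_⟩
  exact Formula.realize_rel

theorem FD.sub {P : L.Structure ℕ → (α → ℕ) → Prop} (h : FD W P) (g : α → β) :
    FD W (fun S v => P S (fun i => v (g i))) := by
  obtain ⟨ψ, hψ⟩ := h
  refine ⟨ψ.relabel g, fun S hS v => ?_⟩
  have := hψ S hS (v ∘ g)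
  rw [@Formula.realize_relabel L ℕ S α β ψ g v]
  exact this

theorem FD.all {P : L.Structure ℕ → (α → ℕ) → (β → ℕ) → Prop} [Finite β]
    (h : FD W (fun S (w : α ⊕ β → ℕ) => P S (fun i => w (Sum.inl i)) (fun i => w (Sum.inr i)))) :
    FD W (fun S v => ∀ b : β → ℕ, P S v b) := by
  obtain ⟨ψ, hψ⟩ := h
  refine ⟨ψ.iAlls β, fun S hS v => ?_⟩
  rw [@Formula.realize_iAlls L ℕ S α β _ ψ v]
  refine forall_congr' fun b => ?_
  rw [hψ S hS]
  rfl

theorem FD.ex {P : L.Structure ℕ → (α → ℕ) → (β → ℕ) → Prop} [Finite β]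
    (h : FD W (fun S (w : α ⊕ β → ℕ) => P S (fun i => w (Sum.inl i)) (fun i => w (Sum.inr i)))) :
    FD W (fun S v => ∃ b : β → ℕ, P S v b) := by
  refine ((FD.all (P := fun S v b => ¬ P S v b) h.not).not).congr fun S _ v => ?_
  push Not
  rfl

/-- finite conjunctions -/
theorem FD.fin {ι : Type} [Finite ι] {P : ι → L.Structure ℕ → (α → ℕ) → Prop}
    (h : ∀ i, FD W (P i)) : FD W (fun S v => ∀ i, P i S v) := by
  choose ψ hψ using h
  refine ⟨Formula.iInf ψ, fun S hS v => ?_⟩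
  rw [@Formula.realize_iInf L ℕ S α ι _ ψ v]
  exact forall_congr' fun i => hψ i S hS v

/-- the assignment is injective on some variables -/
theorem FD.inj {γ : Type} [Finite γ] (t : γ → α) :
    FD W (fun _ v => Function.Injective fun i => v (t i)) := by
  refine (FD.fin fun i : γ => FD.fin fun j : γ => (FD.eq (W := W) (t i) (t j)).imp
    (FD.const (i = j))).congr fun S _ v => ?_
  rfl

/-- the class `W` is the class of models of a theory -/
def Ax (W : L.Structure ℕ → Prop) : Prop :=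
  ∃ T : L.Theory, ∀ S : L.Structure ℕ, @Theory.Model L ℕ S T ↔ W S

theorem ax_iff {T : L.Theory} {S : L.Structure ℕ} :
    @Theory.Model L ℕ S T ↔ ∀ φ ∈ T, @Sentence.Realize L ℕ S φ :=
  @Theory.model_iff L ℕ S T

theorem Ax.all {ι : Type} {P : ι → L.Structure ℕ → Prop} (h : ∀ i, Ax (P i)) :
    Ax (fun S => ∀ i, P i S) := by
  choose T hT using h
  refine ⟨⋃ i, T i, fun S => ?_⟩
  rw [ax_iff]
  constructor
  · intro h i
    rw [← hT, ax_iff]
    exact fun φ hφ => h φ (Set.mem_iUnion.2 ⟨i, hφ⟩)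
  · intro h φ hφ
    obtain ⟨i, hi⟩ := Set.mem_iUnion.1 hφ
    exact ax_iff.1 ((hT i S).2 (h i)) φ hi

theorem Ax.and {P Q : L.Structure ℕ → Prop} (h : Ax P) (h' : Ax Q) : Ax (fun S => P S ∧ Q S) := by
  obtain ⟨T, hT⟩ := h
  obtain ⟨T', hT'⟩ := h'
  refine ⟨T ∪ T', fun S => ?_⟩
  show _ ↔ P S ∧ Q S
  rw [← hT, ← hT', ax_iff, ax_iff, ax_iff]
  constructor
  · exact fun h => ⟨fun φ hφ => h φ (Or.inl hφ), fun φ hφ => h φ (Or.inr hφ)⟩
  · rintro ⟨h1, h2⟩ φ (hφ | hφ)
    · exact h1 φ hφ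
    · exact h2 φ hφ

theorem Ax.congr {P Q : L.Structure ℕ → Prop} (h : Ax P) (hPQ : ∀ S, P S ↔ Q S) : Ax Q := by
  obtain ⟨T, hT⟩ := h
  exact ⟨T, fun S => (hT S).trans (hPQ S)⟩

/-- a definable condition without parameters on the members of an axiomatisable class -/
theorem Ax.of_fd {P : L.Structure ℕ → Prop} (hW : Ax W)
    (h : FD W (fun S (_ : Empty → ℕ) => P S)) : Ax (fun S => W S ∧ P S) := by
  obtain ⟨T, hT⟩ := hW
  obtain ⟨ψ, hψ⟩ := h
  refine ⟨T ∪ {ψ}, fun S => ?_⟩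
  rw [ax_iff]
  have key : ∀ (χ : L.Formula Empty) (a b : Empty → ℕ), @Formula.Realize L ℕ S Empty χ a →
      @Formula.Realize L ℕ S Empty χ b := by
    intro χ a b h
    rw [Subsingleton.elim b a]
    exact h
  constructor
  · intro h
    have hW : W S := (hT S).1 (ax_iff.2 fun φ hφ => h φ (Or.inl hφ))
    refine ⟨hW, (hψ S hW (fun i => i.elim)).1 ?_⟩
    exact key ψ _ _ (h ψ (Or.inr rfl))
  · rintro ⟨hW, hP⟩ φ (hφ | rfl)
    · exact ax_iff.1 ((hT S).2 hW) φ hφ
    · exact key φ _ _ ((hψ S hW (fun i => i.elim)).2 hP)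

/-- a definable condition without parameters -/
theorem Ax.of {P : L.Structure ℕ → Prop}
    (h : FD (fun _ => True) (fun S (_ : Empty → ℕ) => P S)) : Ax P := by
  have h0 : Ax (fun _ : L.Structure ℕ => True) := ⟨∅, fun S => by
    rw [ax_iff]
    simp⟩
  exact (Ax.of_fd h0 h).congr fun S => by simp

end Pool.Agent.W889.FO
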