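import Pool.Agent.W889.FO.Main

set_option autoImplicit false

/-! Interpretations on definable sets. -/

namespace Pool.Agent.W889.FO

open FirstOrder FirstOrder.Language
open Pool.Agent.W889.VC (BP cont_of_meas)
open Pool.Agent.W889.SD (Nth nth_equiv bp_nth)

/-- definable predicates are invariant under isomorphisms -/
theorem FD.iso {L : FirstOrder.Language.{0, 0}} {V : L.Structure ℕ → Prop} {α : Type}
    {P : L.Structure ℕ → (α → ℕ) → Prop} (h : FD V P) {S S' : L.Structure ℕ} (hS : V S)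
    (hS' : V S') (e : @FirstOrder.Language.Equiv L ℕ ℕ S S') (v : α → ℕ) :
    P S v ↔ P S' (fun i => e (v i)) := by
  obtain ⟨ψ, hψ⟩ := h
  rw [← hψ S hS, ← hψ S' hS']
  exact (@StrongHomClass.realize_formula L ℕ ℕ S S' α _ _ _ e ψ v).symm

/-- satisfaction is measurable -/
theorem bp_realize {L : FirstOrder.Language.{0, 0}} [L.IsRelational] {Y : Type}
    [MeasurableSpace Y] {f : Y → L.Structure ℕ}
    (hf : ∀ (n : ℕ) (R : L.Relations n) (a : Fin n → ℕ),
      BP (fun y => @Structure.RelMap L ℕ (f y) n R a)) {β : Type} {n : ℕ}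
    (φ : L.BoundedFormula β n) (c : β → ℕ) (d : Fin n → ℕ) :
    BP (fun y => @BoundedFormula.Realize L ℕ (f y) _ _ φ c d) := by
  have ht : ∀ {n : ℕ} (c : β → ℕ) (d : Fin n → ℕ) (t : L.Term (β ⊕ Fin n)), ∃ a : ℕ, ∀ y : Y,
      @Term.realize L ℕ (f y) _ (Sum.elim c d) t = a := by
    intro n c d t
    cases t with
    | var i => exact ⟨Sum.elim c d i, fun y => rfl⟩
    | func g _ => exact isEmptyElim g
  induction φ with
  | falsum => exact BP.const False
  | @equal n t1 t2 =>
    obtain ⟨a, ha⟩ := ht c d t1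
    obtain ⟨b, hb⟩ := ht c d t2
    refine (BP.const (a = b)).congr fun y => ?_
    show _ ↔ @Term.realize L ℕ (f y) _ (Sum.elim c d) t1 =
      @Term.realize L ℕ (f y) _ (Sum.elim c d) t2
    rw [ha, hb]
  | @rel n l R ts =>
    choose a ha using fun i => ht c d (ts i)
    refine (hf l R a).congr fun y => ?_
    show _ ↔ @Structure.RelMap L ℕ (f y) l R
      (fun i => @Term.realize L ℕ (f y) _ (Sum.elim c d) (ts i))
    have e : (fun i => @Term.realize L ℕ (f y) _ (Sum.elim c d) (ts i)) = a :=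
      funext fun i => ha i y
    rw [e]
  | @imp n f1 f2 h1 h2 => exact (h1 d).imp (h2 d)
  | @all n g h => exact BP.all fun a => h (Fin.snoc d a)

/-- definable predicates are measurable -/
theorem FD.bp {L : FirstOrder.Language.{0, 0}} [L.IsRelational] {V : L.Structure ℕ → Prop}
    {α : Type} {P : L.Structure ℕ → (α → ℕ) → Prop} (h : FD V P) {Y : Type}
    [MeasurableSpace Y] {f : Y → L.Structure ℕ}
    (hf : ∀ (n : ℕ) (R : L.Relations n) (a : Fin n → ℕ),
      BP (fun y => @Structure.RelMap L ℕ (f y) n R a)) (hV : ∀ y, V (f y)) (v : α → ℕ) :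
    BP (fun y => P (f y) v) := by
  obtain ⟨ψ, hψ⟩ := h
  refine (bp_realize hf ψ v (fun i => i.elim0)).congr fun y => Iff.trans ?_ (hψ (f y) (hV y) v)
  have key : ∀ a b : Fin 0 → ℕ, @BoundedFormula.Realize L ℕ (f y) _ _ ψ v a ↔
      @BoundedFormula.Realize L ℕ (f y) _ _ ψ v b := by
    intro a b
    rw [Subsingleton.elim a b]
  exact key _ _

/-- Interpretations of `L`-structures in a class of `L'`-structures, on definable subsets. -/
structure Itp (L L' : FirstOrder.Language.{0, 0}) where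
  /-- the class -/
  W : L'.Structure ℕ → Prop
  axW : Ax W
  /-- the domain -/
  dom : L'.Structure ℕ → ℕ → Prop
  /-- the relations -/
  rel : ∀ {n : ℕ}, L.Relations n → L'.Structure ℕ → (Fin n → ℕ) → Prop
  fdom : FD W (fun S (v : Unit → ℕ) => dom S (v ()))
  frel : ∀ {n : ℕ} (R : L.Relations n), FD W (fun S v => rel R S v)
  inf : ∀ S, W S → ∀ N, ∃ u, N ≤ u ∧ dom S u

namespace Itp

variable {L L' : FirstOrder.Language.{0, 0}} (I : Itp L L')

/-- the interpreted structure -/
@[reducible] def D [L.IsRelational] (S : L'.Structure ℕ) : L.Structure ℕ where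
  funMap := fun {_} f => isEmptyElim f
  RelMap := fun {n} R v => ∃ u : Fin n → ℕ, (∀ i, Nth (I.dom S) (v i) (u i)) ∧ I.rel R S u

variable {I} {S S' : L'.Structure ℕ}

theorem nth (h : I.W S) : ∃ e : ℕ ≃ {u // I.dom S u},
    ∀ n u, Nth (I.dom S) n u ↔ (e n : ℕ) = u := nth_equiv (I.inf S h)

theorem rel_iff [L.IsRelational] (h : I.W S) {n : ℕ} (R : L.Relations n) {u v : Fin n → ℕ}
    (hu : ∀ i, Nth (I.dom S) (v i) (u i)) :
    @Structure.RelMap L ℕ (I.D S) n R v ↔ I.rel R S u := by
  obtain ⟨e, he⟩ := I.nth h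
  constructor
  · rintro ⟨u', h1, h2⟩
    have : u' = u := funext fun i => by
      rw [← (he _ _).1 (h1 i), ← (he _ _).1 (hu i)]
    rw [← this]
    exact h2
  · exact fun h2 => ⟨u, hu, h2⟩

/-- Translation of formulas. -/
theorem trans (I : Itp L L') [L.IsRelational] {β : Type} {n : ℕ} (φ : L.BoundedFormula β n) :
    ∃ ψ : L'.Formula (β ⊕ Fin n), ∀ S : L'.Structure ℕ, I.W S →
      ∀ (w : β ⊕ Fin n → ℕ) (c : β → ℕ) (d : Fin n → ℕ),
        (∀ i, Nth (I.dom S) (c i) (w (Sum.inl i))) →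
        (∀ i, Nth (I.dom S) (d i) (w (Sum.inr i))) →
        (@Formula.Realize L' ℕ S _ ψ w ↔
          @BoundedFormula.Realize L ℕ (I.D S) _ _ φ c d) := by
  induction φ with
  | falsum =>
    obtain ⟨ψ, hψ⟩ := FD.const (W := I.W) (α := β ⊕ Fin _) False
    exact ⟨ψ, fun S hS w c d _ _ => hψ S hS w⟩
  | @equal n t1 t2 =>
    have hv : ∀ t : L.Term (β ⊕ Fin n), ∃ i, t = Term.var i := by
      intro t
      cases t with
      | var i => exact ⟨i, rfl⟩
      | func f _ => exact isEmptyElim f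
    obtain ⟨i1, rfl⟩ := hv t1
    obtain ⟨i2, rfl⟩ := hv t2
    obtain ⟨ψ, hψ⟩ := FD.eq (W := I.W) i1 i2
    refine ⟨ψ, fun S hS w c d hc hd => ?_⟩
    rw [hψ S hS w]
    obtain ⟨e, he⟩ := I.nth hS
    have hl : ∀ i, (e (Sum.elim c d i) : ℕ) = w i := by
      rintro (i | i)
      · exact (he _ _).1 (hc i)
      · exact (he _ _).1 (hd i)
    show w i1 = w i2 ↔ Sum.elim c d i1 = Sum.elim c d i2
    rw [← hl, ← hl]
    constructor
    · intro h
      exact e.injective (Subtype.ext h)
    · intro h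
      rw [h]
  | @rel n l R ts =>
    have hv : ∀ t : L.Term (β ⊕ Fin n), ∃ i, t = Term.var i := by
      intro t
      cases t with
      | var i => exact ⟨i, rfl⟩
      | func f _ => exact isEmptyElim f
    choose g hg using fun i => hv (ts i)
    obtain ⟨ψ, hψ⟩ := (I.frel R).sub g
    refine ⟨ψ, fun S hS w c d hc hd => ?_⟩
    rw [hψ S hS w]
    have hl : ∀ i, Nth (I.dom S) (Sum.elim c d i) (w i) := by
      rintro (i | i)
      · exact hc i
      · exact hd i
    show I.rel R S (fun i => w (g i)) ↔ @Structure.RelMap L ℕ (I.D S) l R _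
    rw [← I.rel_iff hS R (v := fun i => Sum.elim c d (g i)) fun i => hl (g i)]
    have e : (fun i => @Term.realize L ℕ (I.D S) _ (Sum.elim c d) (ts i)) =
        fun i => Sum.elim c d (g i) := by
      funext i
      rw [hg i]
      rfl
    rw [e]
  | @imp n f1 f2 h1 h2 =>
    obtain ⟨ψ1, hψ1⟩ := h1
    obtain ⟨ψ2, hψ2⟩ := h2
    refine ⟨ψ1.imp ψ2, fun S hS w c d hc hd => ?_⟩
    have e1 := hψ1 S hS w c d hc hd
    have e2 := hψ2 S hS w c d hc hd
    have e3 : @Formula.Realize L' ℕ S _ (ψ1.imp ψ2) w ↔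
      (@Formula.Realize L' ℕ S _ ψ1 w → @Formula.Realize L' ℕ S _ ψ2 w) :=
      Formula.realize_imp
    rw [e3, e1, e2]
    exact Iff.rfl
  | @all n f h =>
    obtain ⟨ψ, hψ⟩ := h
    let g : β ⊕ Fin (n + 1) → (β ⊕ Fin n) ⊕ Unit :=
      Sum.elim (fun b => Sum.inl (Sum.inl b))
        (fun i => Fin.lastCases (motive := fun _ => (β ⊕ Fin n) ⊕ Unit)
          (Sum.inr ()) (fun i' => Sum.inl (Sum.inr i')) i)
    have hfd : FD I.W (fun S w => ∀ b : Unit → ℕ, I.dom S (b ()) →
        @Formula.Realize L' ℕ S _ ψ (fun p => Sum.elim w b (g p))) := by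
      refine FD.all (P := fun S w b => I.dom S (b ()) →
        @Formula.Realize L' ℕ S _ ψ (fun p => Sum.elim w b (g p))) ?_
      refine (I.fdom.sub (fun _ => Sum.inr ())).imp ?_
      refine ⟨ψ.relabel g, fun S _ v => ?_⟩
      rw [@Formula.realize_relabel L' ℕ S _ _ ψ g v]
      have e : (v ∘ g) = fun p => Sum.elim (fun i => v (Sum.inl i)) (fun i => v (Sum.inr i))
          (g p) := by
        funext p
        show v (g p) = _
        rcases g p with q | q <;> rfl
      rw [e]
    obtain ⟨χ, hχ⟩ := hfd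
    refine ⟨χ, fun S hS w c d hc hd => ?_⟩
    rw [hχ S hS w]
    show _ ↔ ∀ a, @BoundedFormula.Realize L ℕ (I.D S) _ _ f c (Fin.snoc d a)
    obtain ⟨e, he⟩ := I.nth hS
    have key : ∀ (b : Unit → ℕ) (a : ℕ), Nth (I.dom S) a (b ()) →
        (@Formula.Realize L' ℕ S _ ψ (fun p => Sum.elim w b (g p)) ↔
          @BoundedFormula.Realize L ℕ (I.D S) _ _ f c (Fin.snoc d a)) := by
      intro b a hb
      refine hψ S hS _ c (Fin.snoc d a) (fun i => hc i) (fun i => ?_)
      refine Fin.lastCases ?_ (fun i' => ?_) i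
      · simp only [g, Sum.elim_inr, Fin.lastCases_last, Fin.snoc_last]
        exact hb
      · simp only [g, Sum.elim_inr, Fin.lastCases_castSucc, Sum.elim_inl, Fin.snoc_castSucc]
        exact hd i'
    constructor
    · intro h a
      exact (key (fun _ => e a) a ((he _ _).2 rfl)).1 (h _ (e a).2)
    · intro h b hb
      exact (key b (e.symm ⟨b (), hb⟩) ((he _ _).2 (by rw [Equiv.apply_symm_apply]))).2 (h _)

/-- The structures whose interpreted structure is a model of a theory are the models of a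
theory. -/
theorem ax_theory (I : Itp L L') [L.IsRelational] (T : L.Theory) :
    Ax (fun S : L'.Structure ℕ => I.W S ∧ @Theory.Model L ℕ (I.D S) T) := by
  have h : ∀ φ : T, Ax (fun S : L'.Structure ℕ => I.W S ∧
      @Sentence.Realize L ℕ (I.D S) φ.1) := by
    intro φ
    refine Ax.of_fd I.axW ?_
    obtain ⟨ψ, hψ⟩ := I.trans (φ.1 : L.BoundedFormula Empty 0)
    let e : Empty ⊕ Fin 0 → Empty := Sum.elim (fun x => x) (fun x => x.elim0)
    refine ⟨ψ.relabel e, fun S hS v => ?_⟩
    rw [@Formula.realize_relabel L' ℕ S _ _ ψ e v]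
    rw [hψ S hS (v ∘ e) (fun i => i.elim) (fun i => i.elim0) (fun i => i.elim)
      (fun i => i.elim0)]
    have key : ∀ (a b : Empty → ℕ) (a' b' : Fin 0 → ℕ),
        @BoundedFormula.Realize L ℕ (I.D S) _ _ φ.1 a a' ↔
          @BoundedFormula.Realize L ℕ (I.D S) _ _ φ.1 b b' := by
      intro a b a' b'
      rw [Subsingleton.elim a b, Subsingleton.elim a' b']
    exact key _ _ _ _
  refine (I.axW.and (Ax.all h)).congr fun S => ?_
  constructor
  · rintro ⟨h1, h2⟩
    exact ⟨h1, (@Theory.model_iff L ℕ (I.D S) T).2 fun φ hφ => (h2 ⟨φ, hφ⟩).2⟩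
  · rintro ⟨h1, h2⟩
    exact ⟨h1, fun φ => ⟨h1, (@Theory.model_iff L ℕ (I.D S) T).1 h2 φ.1 φ.2⟩⟩

theorem W_iso (h : I.W S) (hi : SIso S S') : I.W S' := by
  obtain ⟨T, hT⟩ := I.axW
  exact (hT S').1 (hi.model ((hT S).2 h))

/-- isomorphisms of the interpreted structures from bijections of the domains -/
theorem D_iso_iff [L.IsRelational] (h : I.W S) (h' : I.W S') :
    SIso (I.D S) (I.D S') ↔ ∃ π : {u // I.dom S u} ≃ {u // I.dom S' u},
      ∀ {n : ℕ} (R : L.Relations n) (u : Fin n → {u // I.dom S u}),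
        I.rel R S (fun i => u i) ↔ I.rel R S' (fun i => π (u i)) := by
  obtain ⟨e, he⟩ := I.nth h
  obtain ⟨e', he'⟩ := I.nth h'
  constructor
  · rintro ⟨τ⟩
    let t : Equiv.Perm ℕ := @FirstOrder.Language.Equiv.toEquiv L ℕ ℕ (I.D S) (I.D S') τ
    refine ⟨(e.symm.trans t).trans e', fun {n} R u => ?_⟩
    have h1 : ∀ i, Nth (I.dom S) (e.symm (u i)) (u i : ℕ) := fun i => by
      rw [he, Equiv.apply_symm_apply]
    have h2 : ∀ i, Nth (I.dom S') (t (e.symm (u i))) (e' (t (e.symm (u i))) : ℕ) := fun i => by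
      rw [he']
    rw [← I.rel_iff h R h1]
    show _ ↔ I.rel R S' (fun i => (e' (t (e.symm (u i))) : ℕ))
    rw [← I.rel_iff h' R h2]
    exact (iso_rel τ R (fun i => e.symm (u i))).symm
  · rintro ⟨π, hπ⟩
    obtain ⟨f, -⟩ := siso_of (S := I.D S) (S' := I.D S') ((e.trans π).trans e'.symm)
      (fun n R v => by
        have h1 : ∀ i, Nth (I.dom S) (v i) (e (v i) : ℕ) := fun i => by rw [he]
        have h2 : ∀ i, Nth (I.dom S') (e'.symm (π (e (v i)))) (π (e (v i)) : ℕ) := fun i => by
          rw [he', Equiv.apply_symm_apply]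
        rw [I.rel_iff h R h1]
        show @Structure.RelMap L ℕ (I.D S') n R (fun i => e'.symm (π (e (v i)))) ↔ _
        rw [I.rel_iff h' R h2]
        exact (hπ R fun i => e (v i)).symm)
    exact ⟨f⟩

/-- isomorphic structures have isomorphic interpreted structures -/
theorem iso_down [L.IsRelational] (h : I.W S) (hi : SIso S S') : SIso (I.D S) (I.D S') := by
  have h' := I.W_iso h hi
  obtain ⟨f⟩ := hi
  have hd : ∀ u, I.dom S u ↔ I.dom S' (f u) := fun u => I.fdom.iso h h' f (fun _ => u)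
  let F : Equiv.Perm ℕ := @FirstOrder.Language.Equiv.toEquiv L' ℕ ℕ S S' f
  refine (I.D_iso_iff h h').2 ⟨F.subtypeEquiv hd, fun {n} R u => ?_⟩
  exact (I.frel R).iso h h' f (fun i => u i)

/-- the interpreted structure is isomorphic to a given one -/
theorem D_iso [L.IsRelational] (h : I.W S) {M : L.Structure ℕ}
    (π : ℕ ≃ {u // I.dom S u})
    (hπ : ∀ {n : ℕ} (R : L.Relations n) (u : Fin n → ℕ),
      @Structure.RelMap L ℕ M n R u ↔ I.rel R S (fun i => π (u i))) : SIso (I.D S) M := by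
  obtain ⟨e, he⟩ := I.nth h
  obtain ⟨f, -⟩ := siso_of (S := I.D S) (S' := M) (e.trans π.symm) (fun n R v => by
    have h1 : ∀ i, Nth (I.dom S) (v i) (e (v i) : ℕ) := fun i => by rw [he]
    rw [I.rel_iff h R h1, hπ]
    simp)
  exact ⟨f⟩

/-- an invariant with countably many values that, with the interpreted structure, determines the
structure up to isomorphism -/
structure Cnt (I : Itp L L') [L.IsRelational] (J : Type) (j : L'.Structure ℕ → J) : Prop where
  up : ∀ S S', I.W S → I.W S' → SIso (I.D S) (I.D S') → j S = j S' → SIso S S'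
  bp : ∀ (f : (ℕ → Bool) → L'.Structure ℕ), (∀ (n : ℕ) (R : L'.Relations n) (a : Fin n → ℕ),
    BP (fun y => @Structure.RelMap L' ℕ (f y) n R a)) → (∀ y, I.W (f y)) →
      ∀ c, BP (fun y => j (f y) = c)

/-- a copy of the Cantor space in an open set -/
theorem cylinder {U : Set (ℕ → Bool)} (hU : IsOpen U) {x0 : ℕ → Bool} (h0 : x0 ∈ U) :
    ∃ e : (ℕ → Bool) → (ℕ → Bool), Function.Injective e ∧ Continuous e ∧ ∀ x, e x ∈ U := by
  obtain ⟨N, hN⟩ : ∃ N : ℕ, ∀ x : ℕ → Bool, (∀ n < N, x n = x0 n) → x ∈ U := by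
    have := (PiNat.isTopologicalBasis_cylinders (fun _ : ℕ => Bool)).exists_subset_of_mem_open
      h0 hU
    obtain ⟨_, ⟨y, n, rfl⟩, h1, h2⟩ := this
    refine ⟨n, fun x hx => h2 ?_⟩
    rw [PiNat.mem_cylinder_iff] at h1 ⊢
    intro i hi
    rw [hx i hi, h1 i hi]
  refine ⟨fun x n => if n < N then x0 n else x (n - N), ?_, ?_, fun x => hN _ fun n hn => ?_⟩
  · intro x y hxy
    funext n
    have := congrFun hxy (n + N)
    simpa using this
  · refine continuous_pi fun n => ?_
    by_cases hn : n < N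
    · simp only [hn, if_true]
      exact continuous_const
    · simp only [hn, if_false]
      exact continuous_apply _
  · simp [hn]

/-- Transfer of the dichotomy. -/
theorem transfer (I : Itp L L') [L.IsRelational] [L'.IsRelational]
    [Countable (Σ n, L.Relations n)] {J : Type} [Countable J] {j : L'.Structure ℕ → J}
    (hj : Cnt I J j) (T : L.Theory)
    (hex : ∀ M : L.Structure ℕ, @Theory.Model L ℕ M T → ∃ S, I.W S ∧ SIso (I.D S) M)
    (hV : ∀ T' : L'.Theory, (∀ S : L'.Structure ℕ, @Theory.Model L' ℕ S T' →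
      I.W S ∧ @Theory.Model L ℕ (I.D S) T) → Vaught L' T') : Vaught L T := by
  classical
  obtain ⟨T', hT'⟩ := I.ax_theory T
  rcases hV T' (fun S hS => (hT' S).1 hS) with ⟨g, hg⟩ | ⟨f, hf1, hf2, hf3⟩
  · left
    refine ⟨fun n => I.D (g n), fun M hM => ?_⟩
    obtain ⟨S, hS, hi⟩ := hex M hM
    obtain ⟨n, hn⟩ := hg S ((hT' S).2 ⟨hS, hi.symm.model hM⟩)
    exact ⟨n, hi.symm.trans (I.iso_down hS hn)⟩
  · right
    have hb : ∀ (n : ℕ) (R : L'.Relations n) (a : Fin n → ℕ),
        BP (fun y => @Structure.RelMap L' ℕ (f y) n R a) := fun n R a =>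
      (hf3 n R a).isOpen.measurableSet
    have hW : ∀ y, I.W (f y) := fun y => ((hT' _).1 (hf1 y)).1
    have hdom : ∀ u, BP (fun y => I.dom (f y) u) := fun u => I.fdom.bp hb hW (fun _ => u)
    have hD : ∀ {n : ℕ} (R : L.Relations n) (v : Fin n → ℕ),
        BP (fun y => @Structure.RelMap L ℕ (I.D (f y)) n R v) := fun {n} R v =>
      BP.ex fun u : Fin n → ℕ => (BP.all fun i => bp_nth hdom (v i) (u i)).and
        ((I.frel R).bp hb hW u)
    have : Countable (Σ n, L.Relations n × (Fin n → ℕ)) := by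
      have : ∀ n, Countable (L.Relations n) := fun n =>
        (sigma_mk_injective (β := L.Relations) (i := n)).countable
      infer_instance
    obtain ⟨κ, hκ⟩ := Countable.exists_injective_nat J
    let F : (ℕ → Bool) → ((Σ n, L.Relations n × (Fin n → ℕ)) → Bool) × ℕ := fun x =>
      (fun p => decide (@Structure.RelMap L ℕ (I.D (f x)) p.1 p.2.1 p.2.2), κ (j (f x)))
    have hF : Measurable F := by
      refine Measurable.prodMk ?_ ?_
      · refine measurable_pi_iff.2 fun p => measurable_to_bool ?_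
        refine (congrArg MeasurableSet (Set.ext fun x => ?_)).mp (hD p.2.1 p.2.2)
        simp
      · refine measurable_to_countable' fun m => ?_
        have h1 : BP (fun x => ∃ c, κ c = m ∧ j (f x) = c) :=
          BP.ex fun c => (BP.const _).and (hj.bp f hb hW c)
        refine (congrArg MeasurableSet (Set.ext fun x => ?_)).mp h1
        constructor
        · rintro ⟨c, h1, h2⟩
          show κ (j (f x)) = m
          rw [h2, h1]
        · intro h1
          exact ⟨_, h1, rfl⟩
    obtain ⟨h, h1, h2⟩ := cont_of_meas hF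
    have h3 : Continuous fun x => (F (h x)).2 := continuous_snd.comp h2
    let x0 : ℕ → Bool := fun _ => false
    obtain ⟨e, he1, he2, he3⟩ := cylinder (U := {x | (F (h x)).2 = (F (h x0)).2})
      ((isOpen_discrete {(F (h x0)).2}).preimage h3) (x0 := x0) rfl
    refine ⟨fun x => I.D (f (h (e x))), fun x => ((hT' _).1 (hf1 _)).2, fun x y hxy => ?_,
      fun n R a => ?_⟩
    · have h4 : j (f (h (e x))) = j (f (h (e y))) :=
        hκ ((he3 x).trans (he3 y).symm)
      exact he1 (h1 (hf2 _ _ (hj.up _ _ (hW _) (hW _) hxy h4)))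
    · have hc : Continuous fun x => (F (h (e x))).1 ⟨n, R, a⟩ :=
        (continuous_apply (⟨n, R, a⟩ : Σ n, L.Relations n × (Fin n → ℕ))).comp
          (continuous_fst.comp (h2.comp he2))
      have hcl : IsClopen ((fun x => (F (h (e x))).1 ⟨n, R, a⟩) ⁻¹' {true}) :=
        (isClopen_discrete {true}).preimage hc
      convert hcl using 1
      ext x
      simp [F]

end Itp

end Pool.Agent.W889.FO
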