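import Pool.Agent.W889.SD.Enum

set_option autoImplicit false

/-! Conjugacy of injective maps without periodic points. -/

namespace Pool.Agent.W889.FO

section one

variable {X : Type} {f : X → X}

/-- `x` is reached from `b` in `z` steps -/
def Off (f : X → X) (z : ℤ) (b x : X) : Prop := ∃ m n : ℕ, f^[m] x = f^[n] b ∧ (n : ℤ) - m = z

/-- an injective map without periodic points -/
structure InjMap (f : X → X) : Prop where
  inj : Function.Injective f
  ap : ∀ n x, f^[n + 1] x ≠ x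

theorem InjMap.iter (h : InjMap f) {a b : ℕ} {y : X} (hab : f^[a] y = f^[b] y) : a = b := by
  by_contra hne
  rcases lt_or_gt_of_ne hne with h' | h'
  · obtain ⟨d, rfl⟩ := Nat.exists_eq_add_of_lt h'
    have e : a + d + 1 = (d + 1) + a := by omega
    rw [e, Function.iterate_add_apply] at hab
    exact h.ap d _ hab.symm
  · obtain ⟨d, rfl⟩ := Nat.exists_eq_add_of_lt h'
    have e : b + d + 1 = (d + 1) + b := by omega
    rw [e, Function.iterate_add_apply] at hab
    exact h.ap d _ hab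

theorem off_iter (f : X → X) (n : ℕ) (b : X) : Off f n b (f^[n] b) := ⟨0, n, rfl, by simp⟩

theorem off_iter' (f : X → X) (n : ℕ) (x : X) : Off f (-(n : ℤ)) (f^[n] x) x :=
  ⟨n, 0, rfl, by simp⟩

theorem off_zero (f : X → X) (b : X) : Off f 0 b b := ⟨0, 0, rfl, by simp⟩

theorem Off.symm {z : ℤ} {b x : X} (h : Off f z b x) : Off f (-z) x b := by
  obtain ⟨m, n, h1, h2⟩ := h
  exact ⟨n, m, h1.symm, by omega⟩

theorem Off.trans {z w : ℤ} {b x y : X} (h : Off f z b x) (h' : Off f w x y) :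
    Off f (z + w) b y := by
  obtain ⟨m, n, h1, h2⟩ := h
  obtain ⟨m', n', h3, h4⟩ := h'
  refine ⟨m + m', n' + n, ?_, by omega⟩
  rw [Function.iterate_add_apply, h3, ← Function.iterate_add_apply, Nat.add_comm m n',
    Function.iterate_add_apply, h1, ← Function.iterate_add_apply]

theorem InjMap.uniq_z (h : InjMap f) {z w : ℤ} {b x : X} (h1 : Off f z b x)
    (h2 : Off f w b x) : z = w := by
  have h3 := h1.trans h2.symm
  obtain ⟨m, n, h4, h5⟩ := h3
  have := h.iter h4
  omega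

theorem InjMap.uniq_x (h : InjMap f) {z : ℤ} {b x y : X} (h1 : Off f z b x)
    (h2 : Off f z b y) : x = y := by
  have h3 := h1.symm.trans h2
  obtain ⟨m, n, h4, h5⟩ := h3
  have h6 : m = n := by omega
  subst h6
  exact (h.inj.iterate m h4).symm

theorem Off.succ {z : ℤ} {b x : X} (h : Off f z b x) : Off f (z + 1) b (f x) := by
  have := h.trans (off_iter f 1 x)
  simpa using this

/-- without a start the map can be inverted in the component -/
theorem off_exists {b : X} (hb : ∀ z x, Off f z b x → ∃ y, f y = x) (z : ℤ) :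
    ∃ x, Off f z b x := by
  rcases Int.eq_nat_or_neg z with ⟨n, rfl | rfl⟩
  · exact ⟨_, off_iter f n b⟩
  · induction n with
    | zero => exact ⟨b, by simpa using off_zero f b⟩
    | succ n ih =>
      obtain ⟨x, hx⟩ := ih
      obtain ⟨y, rfl⟩ := hb _ x hx
      refine ⟨y, ?_⟩
      have h1 := hx.trans (off_iter' f 1 y)
      have e : (-((n + 1 : ℕ) : ℤ)) = -(n : ℤ) + -((1 : ℕ) : ℤ) := by
        push_cast
        ring
      rw [e]
      simpa using h1

theorem InjMap.start (h : InjMap f) {b : X} (hb : ∀ y, f y ≠ b) {z : ℤ} {x : X}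
    (hx : Off f z b x) : ∃ n : ℕ, z = n ∧ f^[n] b = x := by
  obtain ⟨m, n, h1, h2⟩ := hx
  rcases Nat.lt_or_ge n m with h' | h'
  · exfalso
    obtain ⟨d, rfl⟩ := Nat.exists_eq_add_of_lt h'
    have e : n + d + 1 = n + (d + 1) := by omega
    rw [e, Function.iterate_add_apply] at h1
    have h3 := h.inj.iterate n h1
    rw [Function.iterate_succ_apply'] at h3
    exact hb _ h3
  · obtain ⟨d, rfl⟩ := Nat.exists_eq_add_of_le h'
    rw [Function.iterate_add_apply] at h1
    exact ⟨d, by omega, (h.inj.iterate m h1).symm⟩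

/-- elements of a component are related by iterates -/
theorem InjMap.off_cases (h : InjMap f) {z : ℤ} {b x : X} (hx : Off f z b x) :
    (∃ n : ℕ, z = n ∧ f^[n] b = x) ∨ (∃ n : ℕ, z = -(n : ℤ) ∧ f^[n] x = b) := by
  rcases Int.eq_nat_or_neg z with ⟨n, rfl | rfl⟩
  · exact Or.inl ⟨n, rfl, h.uniq_x (off_iter f n b) hx⟩
  · refine Or.inr ⟨n, rfl, ?_⟩
    have h1 := hx.symm
    rw [neg_neg] at h1
    exact h.uniq_x (off_iter f n x) h1

end one

/-- Matching bases of the components gives an isomorphism. -/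
theorem match_exists {X X' : Type} {f : X → X} {f' : X' → X'} (hf : InjMap f) (hf' : InjMap f')
    (Mt : X → X' → Prop) (h1 : ∀ x, ∃ b b' z, Mt b b' ∧ Off f z b x)
    (h2 : ∀ x', ∃ b b' z, Mt b b' ∧ Off f' z b' x')
    (h3 : ∀ b b' c c' z, Mt b b' → Mt c c' → Off f z b c → b = c ∧ b' = c')
    (h4 : ∀ b b' c c' z, Mt b b' → Mt c c' → Off f' z b' c' → b = c ∧ b' = c')
    (h5 : ∀ b b' z, Mt b b' → ((∃ x, Off f z b x) ↔ ∃ x', Off f' z b' x')) :
    ∃ σ : X ≃ X', (∀ b b' z x, Mt b b' → Off f z b x → Off f' z b' (σ x)) ∧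
      ∀ x, σ (f x) = f' (σ x) := by
  obtain ⟨σ, hσ⟩ := Pool.Agent.W889.SD.equiv_of_rel
    (fun (x : X) (x' : X') => ∃ b b' z, Mt b b' ∧ Off f z b x ∧ Off f' z b' x')
    (fun x => by
      obtain ⟨b, b', z, hm, hx⟩ := h1 x
      obtain ⟨x', hx'⟩ := (h5 b b' z hm).1 ⟨x, hx⟩
      exact ⟨x', b, b', z, hm, hx, hx'⟩)
    (fun x' => by
      obtain ⟨b, b', z, hm, hx'⟩ := h2 x'
      obtain ⟨x, hx⟩ := (h5 b b' z hm).2 ⟨x', hx'⟩
      exact ⟨x, b, b', z, hm, hx, hx'⟩)
    (by
      rintro x x1 x2 ⟨b, b', z, hm, hx, hx'⟩ ⟨c, c', w, hm', hy, hy'⟩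
      obtain ⟨rfl, rfl⟩ := h3 b b' c c' _ hm hm' (hx.trans hy.symm)
      have := hf.uniq_z hx hy
      subst this
      exact hf'.uniq_x hx' hy')
    (by
      rintro x1 x2 x' ⟨b, b', z, hm, hx, hx'⟩ ⟨c, c', w, hm', hy, hy'⟩
      obtain ⟨rfl, rfl⟩ := h4 b b' c c' _ hm hm' (hx'.trans hy'.symm)
      have := hf'.uniq_z hx' hy'
      subst this
      exact hf.uniq_x hx hy)
  have key : ∀ b b' z x, Mt b b' → Off f z b x → Off f' z b' (σ x) := by
    intro b b' z x hm hx
    obtain ⟨c, c', w, hm', hy, hy'⟩ := hσ x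
    obtain ⟨rfl, rfl⟩ := h3 b b' c c' _ hm hm' (hx.trans hy.symm)
    have := hf.uniq_z hx hy
    subst this
    exact hy'
  refine ⟨σ, key, fun x => ?_⟩
  obtain ⟨b, b', z, hm, hx⟩ := h1 x
  exact hf'.uniq_x (key b b' _ _ hm hx.succ) (key b b' z x hm hx).succ

end Pool.Agent.W889.FO
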