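import Pool.Agent.W889.FO.Trans

set_option autoImplicit false

/-! Isomorphisms of coloured structures, existence, and automorphisms. -/

namespace Pool.Agent.W889.FO

open FirstOrder FirstOrder.Language

/-- isomorphism of structures on `ℕ` -/
def SIso {L : FirstOrder.Language.{0, 0}} (S S' : L.Structure ℕ) : Prop :=
  Nonempty (@FirstOrder.Language.Equiv L ℕ ℕ S S')

theorem SIso.refl {L : FirstOrder.Language.{0, 0}} (S : L.Structure ℕ) : SIso S S :=
  ⟨@FirstOrder.Language.Equiv.refl L ℕ S⟩

theorem SIso.symm {L : FirstOrder.Language.{0, 0}} {S S' : L.Structure ℕ} (h : SIso S S') :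
    SIso S' S := by
  obtain ⟨e⟩ := h
  exact ⟨@FirstOrder.Language.Equiv.symm L ℕ ℕ S S' e⟩

theorem SIso.trans {L : FirstOrder.Language.{0, 0}} {S S' S'' : L.Structure ℕ} (h : SIso S S')
    (h' : SIso S' S'') : SIso S S'' := by
  obtain ⟨e⟩ := h
  obtain ⟨e'⟩ := h'
  exact ⟨@FirstOrder.Language.Equiv.comp L ℕ ℕ S S' ℕ S'' e' e⟩

theorem SIso.model {L : FirstOrder.Language.{0, 0}} {S S' : L.Structure ℕ} (h : SIso S S')
    {T : L.Theory} (hT : @Theory.Model L ℕ S T) : @Theory.Model L ℕ S' T := by
  obtain ⟨e⟩ := h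
  rw [@Theory.model_iff L ℕ S' T]
  intro φ hφ
  have h1 := (@Theory.model_iff L ℕ S T).1 hT φ hφ
  exact (@StrongHomClass.realize_sentence L ℕ ℕ S S' _ _ _ e φ).1 h1

/-- isomorphisms from bijections, in relational languages -/
theorem siso_of {L : FirstOrder.Language.{0, 0}} [L.IsRelational] {S S' : L.Structure ℕ}
    (σ : Equiv.Perm ℕ) (h : ∀ (n : ℕ) (R : L.Relations n) (v : Fin n → ℕ),
      @Structure.RelMap L ℕ S' n R (fun i => σ (v i)) ↔ @Structure.RelMap L ℕ S n R v) :
    ∃ e : @FirstOrder.Language.Equiv L ℕ ℕ S S', ∀ a, e a = σ a := by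
  refine ⟨@FirstOrder.Language.Equiv.mk L ℕ ℕ S S' σ ?_ ?_, fun a => rfl⟩
  · intro n f
    exact isEmptyElim f
  · intro n R v
    exact h n R v

theorem iso_rel {L : FirstOrder.Language.{0, 0}} {S S' : L.Structure ℕ}
    (e : @FirstOrder.Language.Equiv L ℕ ℕ S S') {n : ℕ} (R : L.Relations n) (v : Fin n → ℕ) :
    @Structure.RelMap L ℕ S' n R (fun i => e (v i)) ↔ @Structure.RelMap L ℕ S n R v :=
  @FirstOrder.Language.Equiv.map_rel L ℕ ℕ S S' e n R v

variable {k : ℕ} {L : FirstOrder.Language.{0, 0}} [L.IsRelational]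
  {S S' : (TL k L).Structure ℕ}

theorem image_comp (σ : ℕ → ℕ) (x : Tu k) :
    Finset.univ.image (fun j => σ (x j)) = (Finset.univ.image x).image σ := by
  rw [Finset.image_image]
  rfl

theorem card_image_tu {x : Tu k} (hx : Function.Injective x) :
    (Finset.univ.image x).card = k + 1 := by
  rw [Finset.card_image_of_injective _ hx, Finset.card_univ, Fintype.card_fin]

/-- colour preserving permutations are isomorphisms -/
theorem iso_of_col (h : W S) (h' : W S') (e : @FirstOrder.Language.Equiv L ℕ ℕ (D S) (D S'))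
    (σ : Equiv.Perm ℕ)
    (hσ : ∀ T : Finset ℕ, T.card = k + 1 → col S' (T.image σ) = e (col S T)) :
    ∃ f : @FirstOrder.Language.Equiv (TL k L) ℕ ℕ S S', ∀ a, f a = σ a := by
  have hi : ∀ x : Tu k, (Function.Injective fun j => σ (x j)) ↔ Function.Injective x :=
    fun x => σ.injective.of_comp_iff x
  have hc : ∀ x : Tu k, Function.Injective x →
      col S' (Finset.univ.image fun j => σ (x j)) = e (col S (Finset.univ.image x)) := by
    intro x hx
    rw [image_comp, hσ _ (card_image_tu hx)]
  have hinj : Function.Injective e := @FirstOrder.Language.Equiv.injective L ℕ ℕ (D S) (D S') e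
  have hcs : ∀ x y : Tu k, Cs S' (fun j => σ (x j)) (fun j => σ (y j)) ↔ Cs S x y := by
    intro x y
    rw [h'.cs_iff, h.cs_iff, hi, hi]
    constructor
    · rintro ⟨h1, h2, h3⟩
      rw [hc x h1, hc y h2] at h3
      exact ⟨h1, h2, hinj h3⟩
    · rintro ⟨h1, h2, h3⟩
      rw [hc x h1, hc y h2, h3]
      exact ⟨h1, h2, rfl⟩
  have hrs : ∀ {n : ℕ} (R : L.Relations n) (X : Fin n → Tu k),
      Rs S' R (fun i j => σ (X i j)) ↔ Rs S R X := by
    intro n R X
    rw [h'.rs_iff, h.rs_iff]
    constructor
    · rintro ⟨h1, h2⟩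
      have h1' : ∀ i, Function.Injective (X i) := fun i => (hi _).1 (h1 i)
      refine ⟨h1', ?_⟩
      rw [← iso_rel e]
      have e1 : (fun i => e (col S (Finset.univ.image (X i)))) =
          fun i => col S' (Finset.univ.image fun j => σ (X i j)) :=
        funext fun i => (hc _ (h1' i)).symm
      rw [e1]
      exact h2
    · rintro ⟨h1, h2⟩
      refine ⟨fun i => (hi _).2 (h1 i), ?_⟩
      rw [← iso_rel e] at h2
      have e1 : (fun i => e (col S (Finset.univ.image (X i)))) =
          fun i => col S' (Finset.univ.image fun j => σ (X i j)) :=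
        funext fun i => (hc _ (h1 i)).symm
      rw [e1] at h2
      exact h2
  refine siso_of σ fun n R v => ?_
  cases R with
  | eqv =>
    have h1 := hcs (bl v 0) (bl v 1)
    unfold Cs at h1
    have e1 : (![fun j => σ (bl v 0 j), fun j => σ (bl v 1 j)] : Fin 2 → Tu k) =
        fun i j => σ (bl v i j) := by
      funext i
      fin_cases i <;> rfl
    have e2 : (![bl v 0, bl v 1] : Fin 2 → Tu k) = bl v := by
      funext i
      fin_cases i <;> rfl
    rw [e1, e2, jn_bl] at h1
    have e3 : jn (fun i j => σ (bl v i j)) = fun i => σ (v i) := by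
      rw [← jn_comp (bl v) σ, jn_bl]
    rw [e3] at h1
    exact h1
  | rel R =>
    have h1 := hrs R (bl v)
    unfold Rs at h1
    rw [jn_bl] at h1
    have e3 : jn (fun i j => σ (bl v i j)) = fun i => σ (v i) := by
      rw [← jn_comp (bl v) σ, jn_bl]
    rw [e3] at h1
    exact h1

/-- isomorphic colour structures give isomorphic structures -/
theorem iso_up (h : W S) (h' : W S') (hi : SIso (D S) (D S')) : SIso S S' := by
  obtain ⟨e⟩ := hi
  let τ : Equiv.Perm ℕ := @FirstOrder.Language.Equiv.toEquiv L ℕ ℕ (D S) (D S') e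
  have h0 : PI k (col S) (col S') τ ∅ id := ⟨fun x hx => absurd hx (by simp), fun T hT hc => by
    rw [Finset.subset_empty] at hT
    subst hT
    simp at hc⟩
  obtain ⟨σ, -, hσ⟩ := h0.extend h.gc h'.gc
  obtain ⟨f, -⟩ := iso_of_col h h' e σ hσ
  exact ⟨f⟩

omit [L.IsRelational] in
theorem W.iso (h : W S) (hi : SIso S S') : W S' := by
  obtain ⟨T, hT⟩ := ax_W k L
  exact (hT S').1 (hi.model ((hT S).2 h))

/-- isomorphic structures have isomorphic colour structures -/
theorem iso_down (h : W S) (hi : SIso S S') : SIso (D S) (D S') := by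
  have h' := h.iso hi
  obtain ⟨f⟩ := hi
  have hcs : ∀ x y : Tu k, Cs S' (fun j => f (x j)) (fun j => f (y j)) ↔ Cs S x y := by
    intro x y
    have h1 := iso_rel f (TR.eqv : (TL k L).Relations (2 * (k + 1))) (jn ![x, y])
    have e : (fun i => f (jn (![x, y] : Fin 2 → Tu k) i)) =
        jn ![fun j => f (x j), fun j => f (y j)] := by
      rw [jn_comp]
      congr 1
      funext i
      fin_cases i <;> rfl
    rw [e] at h1
    exact h1
  have hrs : ∀ {n : ℕ} (R : L.Relations n) (X : Fin n → Tu k),
      Rs S' R (fun i j => f (X i j)) ↔ Rs S R X := by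
    intro n R X
    exact iso_rel f (TR.rel R : (TL k L).Relations (n * (k + 1))) (jn X)
  have hinj : Function.Injective f := @FirstOrder.Language.Equiv.injective _ ℕ ℕ S S' f
  have hsurj : Function.Surjective f := @FirstOrder.Language.Equiv.surjective _ ℕ ℕ S S' f
  obtain ⟨τ, hτ⟩ := Pool.Agent.W889.SD.equiv_of_rel
    (fun n m : ℕ => ∃ x : Tu k, lab S x n ∧ lab S' (fun j => f (x j)) m)
    (fun n => by
      obtain ⟨x, hx⟩ := h.lab_surj n
      obtain ⟨m, hm⟩ := h'.lab_exists (x := fun j => f (x j)) (hinj.comp (h.lab_inj hx))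
      exact ⟨m, x, hx, hm⟩)
    (fun m => by
      obtain ⟨y, hy⟩ := h'.lab_surj m
      choose x hx using fun j => hsurj (y j)
      have e : (fun j => f (x j)) = y := funext hx
      have hxi : Function.Injective x := by
        intro i j hij
        apply h'.lab_inj hy
        rw [← hx, ← hx, hij]
      obtain ⟨n, hn⟩ := h.lab_exists hxi
      exact ⟨n, x, hn, by rw [e]; exact hy⟩)
    (by
      rintro n m m' ⟨x, h1, h2⟩ ⟨y, h3, h4⟩
      have h5 := (h.lab_cs h1).1 h3
      rw [← hcs] at h5
      exact h'.lab_unique ((h'.lab_cs h2).2 h5) h4)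
    (by
      rintro n n' m ⟨x, h1, h2⟩ ⟨y, h3, h4⟩
      have h5 := (h'.lab_cs h2).1 h4
      rw [hcs] at h5
      exact h.lab_unique ((h.lab_cs h1).2 h5) h3)
  have hlab : ∀ (x : Tu k) n, lab S x n → lab S' (fun j => f (x j)) (τ n) := by
    intro x n hx
    obtain ⟨y, h1, h2⟩ := hτ n
    have h5 := (h.lab_cs h1).1 hx
    rw [← hcs] at h5
    exact (h'.lab_cs h2).2 h5
  obtain ⟨e, -⟩ := siso_of (S := D S) (S' := D S') τ (fun n R v => by
    choose X hX using fun i => h.lab_surj (v i)
    rw [h.rel_iff R (fun i => hX i), h'.rel_iff R (fun i => hlab _ _ (hX i))]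
    exact hrs R X)
  exact ⟨e⟩

/-- existence -/
theorem exists_W (k : ℕ) (M : L.Structure ℕ) :
    ∃ S : (TL k L).Structure ℕ, W S ∧ SIso (D S) M := by
  classical
  obtain ⟨c, hc⟩ := gc_exists k
  let cl : Tu k → ℕ := fun x => c (Finset.univ.image x)
  let S : (TL k L).Structure ℕ :=
    { funMap := fun {_} f => isEmptyElim f
      RelMap := fun {n} Q => match n, Q with
        | _, TR.eqv => fun v => Function.Injective (bl v 0) ∧ Function.Injective (bl v 1) ∧
            cl (bl v 0) = cl (bl v 1)
        | _, TR.rel R => fun v => (∀ i, Function.Injective (bl v i)) ∧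
            @Structure.RelMap L ℕ M _ R (fun i => cl (bl v i)) }
  have hCs : ∀ x y, Cs S x y ↔ Function.Injective x ∧ Function.Injective y ∧ cl x = cl y := by
    intro x y
    show (Function.Injective (bl (jn ![x, y]) 0) ∧ Function.Injective (bl (jn ![x, y]) 1) ∧
      cl (bl (jn ![x, y]) 0) = cl (bl (jn ![x, y]) 1)) ↔ _
    rw [bl_jn]
    rfl
  have hRs : ∀ {n : ℕ} (R : L.Relations n) (X : Fin n → Tu k), Rs S R X ↔
      (∀ i, Function.Injective (X i)) ∧ @Structure.RelMap L ℕ M _ R (fun i => cl (X i)) := by
    intro n R X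
    show ((∀ i, Function.Injective (bl (jn X) i)) ∧
      @Structure.RelMap L ℕ M _ R (fun i => cl (bl (jn X) i))) ↔ _
    rw [bl_jn]
  -- all colours occur
  have hsurj : ∀ n, ∃ x : Tu k, Function.Injective x ∧ cl x = n := by
    intro n
    obtain ⟨b, hb1, hb2⟩ := hc (Finset.range k) (fun _ => n)
    have hbk : k ≤ b := by
      by_contra hlt
      exact hb1 (Finset.mem_range.2 (not_le.1 hlt))
    refine ⟨fun j => Fin.snoc (α := fun _ => ℕ) (fun i : Fin k => (i : ℕ)) b j, ?_, ?_⟩
    · intro i j
      refine Fin.lastCases ?_ (fun i' => ?_) i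
      · refine Fin.lastCases ?_ (fun j' => ?_) j
        · intro _
          rfl
        · intro h
          simp only [Fin.snoc_last, Fin.snoc_castSucc] at h
          omega
      · refine Fin.lastCases ?_ (fun j' => ?_) j
        · intro h
          simp only [Fin.snoc_last, Fin.snoc_castSucc] at h
          omega
        · intro h
          simp only [Fin.snoc_castSucc] at h
          rw [Fin.ext h]
    · show c _ = n
      rw [image_snoc]
      have : (Finset.univ.image fun i : Fin k => (i : ℕ)) = Finset.range k := by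
        ext x
        simp only [Finset.mem_image, Finset.mem_univ, true_and, Finset.mem_range]
        constructor
        · rintro ⟨i, rfl⟩
          exact i.2
        · intro hx
          exact ⟨⟨x, hx⟩, rfl⟩
      rw [this]
      exact hb2 _ (Finset.Subset.refl _) (Finset.card_range k)
  have hW : W S := by
    constructor
    · intro x y h
      rw [hCs] at h
      exact ⟨h.1, h.2.1⟩
    · intro x hx
      rw [hCs]
      exact ⟨hx, hx, rfl⟩
    · intro x y h
      rw [hCs] at h ⊢
      exact ⟨h.2.1, h.1, h.2.2.symm⟩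
    · intro x y z h h'
      rw [hCs] at h h' ⊢
      exact ⟨h.1, h'.2.1, h.2.2.trans h'.2.2⟩
    · intro π x hx
      rw [hCs]
      refine ⟨hx, hx.comp π.injective, ?_⟩
      show c _ = c _
      congr 1
      ext a
      simp only [Finset.mem_image, Finset.mem_univ, true_and]
      constructor
      · rintro ⟨i, rfl⟩
        exact ⟨π.symm i, by rw [Equiv.apply_symm_apply]⟩
      · rintro ⟨i, rfl⟩
        exact ⟨π i, rfl⟩
    · intro R X h
      rw [hRs] at h
      exact h.1
    · intro R X Y h h'
      rw [hRs] at h' ⊢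
      have h1 : ∀ i, cl (fun j => X (i, j)) = cl (fun j => Y (i, j)) := fun i =>
        ((hCs _ _).1 (h i)).2.2
      refine ⟨fun i => ((hCs _ _).1 (h i)).2.1, ?_⟩
      have e : (fun i => cl (fun j => Y (i, j))) = fun i => cl (fun j => X (i, j)) :=
        funext fun i => (h1 i).symm
      rw [e]
      exact h'.2
    · intro m
      choose x hx1 hx2 using hsurj
      refine ⟨fun p => x p.1 p.2, fun i => hx1 i, fun i i' h => ?_⟩
      have h1 := ((hCs _ _).1 h).2.2
      have h2 : cl (x i) = cl (x i') := h1
      rw [hx2, hx2] at h2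
      exact Fin.ext h2
    · intro m f hf Q hQ
      obtain ⟨b, hb1, hb2⟩ := hc (Finset.univ.image f)
        (fun T => if h : ∃ K : Fin k ↪o Fin m, Finset.univ.image (fun i => f (K i)) = T then
          cl (fun j => Q (h.choose, j)) else 0)
      refine ⟨fun _ => b, fun i hi => hb1 ?_, fun K => ?_⟩
      · have hi' : f i = b := hi
        rw [← hi']
        exact Finset.mem_image_of_mem _ (Finset.mem_univ _)
      · have hne : ∀ i, f i ≠ b := fun i hi => hb1 (by
          rw [← hi]
          exact Finset.mem_image_of_mem _ (Finset.mem_univ _))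
        rw [hCs]
        refine ⟨?_, hQ K, ?_⟩
        · intro i j
          refine Fin.lastCases ?_ (fun i' => ?_) i
          · refine Fin.lastCases ?_ (fun j' => ?_) j
            · intro _
              rfl
            · intro h
              simp only [Fin.snoc_last, Fin.snoc_castSucc] at h
              exact absurd h.symm (hne _)
          · refine Fin.lastCases ?_ (fun j' => ?_) j
            · intro h
              simp only [Fin.snoc_last, Fin.snoc_castSucc] at h
              exact absurd h (hne _)
            · intro h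
              simp only [Fin.snoc_castSucc] at h
              rw [K.injective (hf h)]
        · show c _ = _
          rw [image_snoc]
          have hex : ∃ K' : Fin k ↪o Fin m, Finset.univ.image (fun i => f (K' i)) =
              Finset.univ.image (fun i => f (K i)) := ⟨K, rfl⟩
          have h1 := hb2 (Finset.univ.image fun i => f (K i)) (by
            intro x hx
            rw [Finset.mem_image] at hx ⊢
            obtain ⟨i, -, rfl⟩ := hx
            exact ⟨_, Finset.mem_univ _, rfl⟩) (by
            rw [Finset.card_image_of_injective (f := fun i => f (K i)) _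
              (hf.comp K.injective), Finset.card_univ, Fintype.card_fin])
          rw [dif_pos hex] at h1
          rw [h1]
          -- the chosen embedding is `K`
          have h2 : hex.choose = K := by
            have h3 := hex.choose_spec
            have h4 : Finset.univ.image hex.choose = Finset.univ.image K := by
              ext i
              have h5 := Finset.ext_iff.1 h3 (f i)
              simp only [Finset.mem_image, Finset.mem_univ, true_and] at h5 ⊢
              constructor
              · rintro ⟨l, rfl⟩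
                obtain ⟨l', h6⟩ := h5.1 ⟨l, rfl⟩
                exact ⟨l', hf h6⟩
              · rintro ⟨l, rfl⟩
                obtain ⟨l', h6⟩ := h5.2 ⟨l, rfl⟩
                exact ⟨l', hf h6⟩
            apply RelEmbedding.ext
            intro l
            have h6 : StrictMono.orderIso hex.choose hex.choose.strictMono l =
              StrictMono.orderIso hex.choose hex.choose.strictMono l := rfl
            have h7 : Set.range hex.choose = Set.range K := by
              ext i
              have := Finset.ext_iff.1 h4 i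
              simpa using this
            exact congrFun ((hex.choose.strictMono.range_inj K.strictMono).1 h7) l
          rw [h2]
  refine ⟨S, hW, ?_⟩
  -- the colours
  obtain ⟨τ, hτ⟩ := Pool.Agent.W889.SD.equiv_of_rel
    (fun n m : ℕ => ∃ x : Tu k, lab S x n ∧ cl x = m)
    (fun n => by
      obtain ⟨x, hx⟩ := hW.lab_surj n
      exact ⟨_, x, hx, rfl⟩)
    (fun m => by
      obtain ⟨x, hx1, hx2⟩ := hsurj m
      obtain ⟨n, hn⟩ := hW.lab_exists hx1
      exact ⟨n, x, hn, hx2⟩)
    (by
      rintro n m m' ⟨x, h1, rfl⟩ ⟨y, h3, rfl⟩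
      exact ((hCs _ _).1 ((hW.lab_cs h1).1 h3)).2.2)
    (by
      rintro n n' m ⟨x, h1, h2⟩ ⟨y, h3, h4⟩
      have h5 : Cs S x y := (hCs _ _).2 ⟨hW.lab_inj h1, hW.lab_inj h3, h2.trans h4.symm⟩
      exact hW.lab_unique ((hW.lab_cs h1).2 h5) h3)
  have hlab : ∀ (x : Tu k) n, lab S x n → cl x = τ n := by
    intro x n hx
    obtain ⟨y, h1, h2⟩ := hτ n
    rw [← h2]
    exact ((hCs _ _).1 ((hW.lab_cs hx).1 h1)).2.2
  obtain ⟨e, -⟩ := siso_of (S := D S) (S' := M) τ (fun n R v => by
    choose X hX using fun i => hW.lab_surj (v i)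
    rw [hW.rel_iff R (fun i => hX i), hRs]
    have e : (fun i => cl (X i)) = fun i => τ (v i) := funext fun i => hlab _ _ (hX i)
    rw [e]
    exact ⟨fun h => ⟨fun i => hW.lab_inj (hX i), h⟩, fun h => h.2⟩)
  exact ⟨e⟩

end Pool.Agent.W889.FO
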