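import Pool.Agent.W889.FO.Col
import Pool.Agent.W889.FO.Def
import Pool.Agent.W889.SD.Enum

set_option autoImplicit false

/-! The language of coloured `(k+1)`-sets. -/

namespace Pool.Agent.W889.FO

open FirstOrder FirstOrder.Language
open Pool.Agent.W889.SD (Nth nth_equiv)

/-- the relation symbols: equality of colours, and the relations of the colours -/
inductive TR (k : ℕ) (L : FirstOrder.Language.{0, 0}) : ℕ → Type
  | eqv : TR k L (2 * (k + 1))
  | rel {n : ℕ} (R : L.Relations n) : TR k L (n * (k + 1))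

/-- the target language -/
def TL (k : ℕ) (L : FirstOrder.Language.{0, 0}) : FirstOrder.Language.{0, 0} :=
  ⟨fun _ => Empty, TR k L⟩

instance (k : ℕ) (L : FirstOrder.Language.{0, 0}) : (TL k L).IsRelational :=
  fun _ => inferInstanceAs (IsEmpty Empty)

/-- tuples of length `k + 1` -/
abbrev Tu (k : ℕ) : Type := Fin (k + 1) → ℕ

variable {k : ℕ} {L : FirstOrder.Language.{0, 0}}

/-- concatenation -/
def jn {A : Type} {n : ℕ} (X : Fin n → Fin (k + 1) → A) : Fin (n * (k + 1)) → A :=
  fun i => X (finProdFinEquiv.symm i).1 (finProdFinEquiv.symm i).2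

/-- the blocks of a tuple -/
def bl {A : Type} {n : ℕ} (v : Fin (n * (k + 1)) → A) : Fin n → Fin (k + 1) → A :=
  fun i j => v (finProdFinEquiv (i, j))

theorem jn_bl {A : Type} {n : ℕ} (v : Fin (n * (k + 1)) → A) : jn (bl v) = v := by
  funext i
  show v (finProdFinEquiv ((finProdFinEquiv.symm i).1, (finProdFinEquiv.symm i).2)) = v i
  rw [Prod.mk.eta, Equiv.apply_symm_apply]

theorem bl_jn {A : Type} {n : ℕ} (X : Fin n → Fin (k + 1) → A) : bl (jn X) = X := by
  funext i j
  show X (finProdFinEquiv.symm (finProdFinEquiv (i, j))).1 _ = _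
  rw [Equiv.symm_apply_apply]

theorem jn_comp {A B : Type} {n : ℕ} (X : Fin n → Fin (k + 1) → A) (g : A → B) :
    (fun i => g (jn X i)) = jn (fun i j => g (X i j)) := rfl

/-- same colour -/
def Cs (S : (TL k L).Structure ℕ) (x y : Tu k) : Prop :=
  @Structure.RelMap (TL k L) ℕ S _ TR.eqv (jn ![x, y])

/-- relations of colours -/
def Rs (S : (TL k L).Structure ℕ) {n : ℕ} (R : L.Relations n) (X : Fin n → Tu k) : Prop :=
  @Structure.RelMap (TL k L) ℕ S _ (TR.rel R) (jn X)

/-- the axioms -/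
structure W (S : (TL k L).Structure ℕ) : Prop where
  inj : ∀ x y, Cs S x y → Function.Injective x ∧ Function.Injective y
  refl : ∀ x, Function.Injective x → Cs S x x
  symm : ∀ x y, Cs S x y → Cs S y x
  trans : ∀ x y z, Cs S x y → Cs S y z → Cs S x z
  perm : ∀ (π : Equiv.Perm (Fin (k + 1))) x, Function.Injective x → Cs S x (fun i => x (π i))
  rinj : ∀ (R : Σ n, L.Relations n) (X : Fin R.1 × Fin (k + 1) → ℕ),
    Rs S R.2 (fun i j => X (i, j)) → ∀ i, Function.Injective fun j => X (i, j)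
  rcs : ∀ (R : Σ n, L.Relations n) (X Y : Fin R.1 × Fin (k + 1) → ℕ),
    (∀ i, Cs S (fun j => X (i, j)) (fun j => Y (i, j))) → Rs S R.2 (fun i j => X (i, j)) →
      Rs S R.2 (fun i j => Y (i, j))
  inf : ∀ m : ℕ, ∃ X : Fin m × Fin (k + 1) → ℕ, (∀ i, Function.Injective fun j => X (i, j)) ∧
    ∀ i i', Cs S (fun j => X (i, j)) (fun j => X (i', j)) → i = i'
  gen : ∀ (m : ℕ) (f : Fin m → ℕ), Function.Injective f →
    ∀ Q : (Fin k ↪o Fin m) × Fin (k + 1) → ℕ, (∀ K, Function.Injective fun j => Q (K, j)) →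
      ∃ a : Unit → ℕ, (∀ i, f i ≠ a ()) ∧
        ∀ K, Cs S (fun j => Fin.snoc (α := fun _ => ℕ) (fun i => f (K i)) (a ()) j)
          (fun j => Q (K, j))

/-- an enumeration of the tuples -/
noncomputable def en (k : ℕ) : Tu k ≃ ℕ :=
  Classical.choice (nonempty_equiv_of_countable (α := Tu k) (β := ℕ))

/-- the first tuples of the colours -/
def P (S : (TL k L).Structure ℕ) (u : ℕ) : Prop :=
  Function.Injective ((en k).symm u) ∧ ∀ u', u' < u → ¬ Cs S ((en k).symm u') ((en k).symm u)

/-- the tuple `x` has colour `n` -/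
def lab (S : (TL k L).Structure ℕ) (x : Tu k) (n : ℕ) : Prop :=
  ∃ u, Nth (P S) n u ∧ Cs S ((en k).symm u) x

section

variable {S : (TL k L).Structure ℕ}

theorem W.exists_P (h : W S) {x : Tu k} (hx : Function.Injective x) :
    ∃ u, P S u ∧ Cs S ((en k).symm u) x := by
  classical
  have hex : ∃ u, Cs S ((en k).symm u) x := ⟨en k x, by
    rw [Equiv.symm_apply_apply]
    exact h.refl x hx⟩
  refine ⟨Nat.find hex, ⟨(h.inj _ _ (Nat.find_spec hex)).1, fun u' hu' hc => ?_⟩,
    Nat.find_spec hex⟩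
  exact Nat.find_min hex hu' (h.trans _ _ _ hc (Nat.find_spec hex))

theorem W.P_eq (h : W S) {u v : ℕ} (hu : P S u) (hv : P S v)
    (hc : Cs S ((en k).symm u) ((en k).symm v)) : u = v := by
  rcases lt_trichotomy u v with h' | h' | h'
  · exact absurd hc (hv.2 u h')
  · exact h'
  · exact absurd (h.symm _ _ hc) (hu.2 v h')

theorem W.inf_P (h : W S) (N : ℕ) : ∃ u, N ≤ u ∧ P S u := by
  classical
  by_contra hcon
  push Not at hcon
  obtain ⟨X, h1, h2⟩ := h.inf (N + 1)
  have h3 : ∀ i : Fin (N + 1), ∃ u, P S u ∧ Cs S ((en k).symm u) (fun j => X (i, j)) :=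
    fun i => h.exists_P (h1 i)
  choose u hu1 hu2 using h3
  have h4 : ∀ i, u i < N := fun i => by
    by_contra hlt
    exact hcon (u i) (not_lt.1 hlt) (hu1 i)
  have h5 : Function.Injective fun i => (⟨u i, h4 i⟩ : Fin N) := by
    intro i i' hii
    have h6 : u i = u i' := congrArg Fin.val hii
    refine h2 i i' (h.trans _ _ _ (h.symm _ _ (hu2 i)) ?_)
    rw [h6]
    exact hu2 i'
  have := Fintype.card_le_of_injective _ h5
  simp at this

theorem W.nth (h : W S) : ∃ e : ℕ ≃ {u // P S u}, ∀ n u, Nth (P S) n u ↔ (e n : ℕ) = u :=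
  nth_equiv h.inf_P

theorem W.lab_unique (h : W S) {x : Tu k} {n m : ℕ} (h1 : lab S x n) (h2 : lab S x m) :
    n = m := by
  obtain ⟨e, he⟩ := h.nth
  obtain ⟨u, hu, hux⟩ := h1
  obtain ⟨v, hv, hvx⟩ := h2
  rw [he] at hu hv
  have h3 : u = v := by
    refine h.P_eq (hu ▸ (e n).2) (hv ▸ (e m).2) (h.trans _ _ _ hux (h.symm _ _ hvx))
  apply e.injective
  apply Subtype.ext
  rw [hu, hv, h3]

theorem W.lab_exists (h : W S) {x : Tu k} (hx : Function.Injective x) : ∃ n, lab S x n := by
  obtain ⟨e, he⟩ := h.nth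
  obtain ⟨u, hu, hux⟩ := h.exists_P hx
  exact ⟨e.symm ⟨u, hu⟩, u, (he _ _).2 (by rw [Equiv.apply_symm_apply]), hux⟩

theorem W.lab_inj (h : W S) {x : Tu k} {n : ℕ} (h1 : lab S x n) : Function.Injective x := by
  obtain ⟨u, _, hux⟩ := h1
  exact (h.inj _ _ hux).2

theorem W.lab_surj (h : W S) (n : ℕ) : ∃ x, lab S x n := by
  obtain ⟨e, he⟩ := h.nth
  exact ⟨(en k).symm (e n), e n, (he _ _).2 rfl, h.refl _ (e n).2.1⟩

theorem W.lab_cs (h : W S) {x y : Tu k} {n : ℕ} (h1 : lab S x n) : lab S y n ↔ Cs S x y := by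
  obtain ⟨e, he⟩ := h.nth
  constructor
  · rintro ⟨v, hv, hvy⟩
    obtain ⟨u, hu, hux⟩ := h1
    rw [he] at hu hv
    rw [← hu] at hux
    rw [← hv] at hvy
    exact h.trans _ _ _ (h.symm _ _ hux) hvy
  · intro hc
    obtain ⟨u, hu, hux⟩ := h1
    exact ⟨u, hu, h.trans _ _ _ hux hc⟩

/-- the structure of the colours -/
@[reducible] def D [L.IsRelational] (S : (TL k L).Structure ℕ) : L.Structure ℕ where
  funMap := fun {_} f => isEmptyElim f
  RelMap := fun {n} R v => ∃ X : Fin n → Tu k, (∀ i, lab S (X i) (v i)) ∧ Rs S R X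

theorem W.rel_iff [L.IsRelational] (h : W S) {n : ℕ} (R : L.Relations n) {X : Fin n → Tu k}
    {v : Fin n → ℕ} (hX : ∀ i, lab S (X i) (v i)) :
    @Structure.RelMap L ℕ (D S) n R v ↔ Rs S R X := by
  constructor
  · rintro ⟨Y, hY, hR⟩
    exact h.rcs ⟨n, R⟩ (fun p => Y p.1 p.2) (fun p => X p.1 p.2)
      (fun i => (h.lab_cs (hY i)).1 (hX i)) hR
  · intro hR
    exact ⟨X, hX, hR⟩

open Classical in
/-- the colour of a set -/
noncomputable def col (S : (TL k L).Structure ℕ) (T : Finset ℕ) : ℕ :=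
  if h : ∃ n, ∃ x : Tu k, Finset.univ.image x = T ∧ lab S x n then h.choose else 0

/-- injective tuples with the same range differ by a permutation -/
theorem exists_perm {x y : Tu k} (hy : Function.Injective y)
    (h : Finset.univ.image x = Finset.univ.image y) :
    ∃ π : Equiv.Perm (Fin (k + 1)), ∀ i, y i = x (π i) := by
  have h1 : ∀ i, ∃ j, x j = y i := by
    intro i
    have : y i ∈ Finset.univ.image x := by
      rw [h]
      exact Finset.mem_image_of_mem _ (Finset.mem_univ _)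
    rw [Finset.mem_image] at this
    obtain ⟨j, -, hj⟩ := this
    exact ⟨j, hj⟩
  choose p hp using h1
  have hpi : Function.Injective p := by
    intro i i' hii
    apply hy
    rw [← hp, ← hp, hii]
  exact ⟨Equiv.ofBijective p (Finite.injective_iff_bijective.1 hpi), fun i => (hp i).symm⟩

theorem W.lab_perm (h : W S) {x y : Tu k} {n : ℕ} (h1 : lab S x n) (hy : Function.Injective y)
    (hxy : Finset.univ.image x = Finset.univ.image y) : lab S y n := by
  have hx := h.lab_inj h1
  obtain ⟨π, hπ⟩ := exists_perm hy hxy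
  rw [h.lab_cs h1]
  have := h.perm π x hx
  have e : y = fun i => x (π i) := funext hπ
  rw [e]
  exact this

theorem W.col_eq (h : W S) {x : Tu k} {n : ℕ} (h1 : lab S x n) :
    col S (Finset.univ.image x) = n := by
  have hex : ∃ n, ∃ y : Tu k, Finset.univ.image y = Finset.univ.image x ∧ lab S y n :=
    ⟨n, x, rfl, h1⟩
  have h2 : col S (Finset.univ.image x) = hex.choose := dif_pos hex
  rw [h2]
  obtain ⟨y, hy1, hy2⟩ := hex.choose_spec
  exact h.lab_unique (h.lab_perm hy2 (h.lab_inj h1) hy1) h1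

theorem W.lab_col (h : W S) {x : Tu k} (hx : Function.Injective x) :
    lab S x (col S (Finset.univ.image x)) := by
  obtain ⟨n, hn⟩ := h.lab_exists hx
  rw [h.col_eq hn]
  exact hn

theorem W.cs_iff (h : W S) (x y : Tu k) : Cs S x y ↔ Function.Injective x ∧
    Function.Injective y ∧ col S (Finset.univ.image x) = col S (Finset.univ.image y) := by
  constructor
  · intro hc
    obtain ⟨hx, hy⟩ := h.inj _ _ hc
    refine ⟨hx, hy, ?_⟩
    have h1 := h.lab_col hx
    exact h.lab_unique ((h.lab_cs h1).2 hc) (h.lab_col hy)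
  · rintro ⟨hx, hy, he⟩
    have h1 := h.lab_col hx
    rw [he] at h1
    exact (h.lab_cs h1).1 (h.lab_col hy)

theorem W.rs_iff [L.IsRelational] (h : W S) {n : ℕ} (R : L.Relations n) (X : Fin n → Tu k) :
    Rs S R X ↔ (∀ i, Function.Injective (X i)) ∧
      @Structure.RelMap L ℕ (D S) n R (fun i => col S (Finset.univ.image (X i))) := by
  constructor
  · intro hR
    have hi : ∀ i, Function.Injective (X i) := h.rinj ⟨n, R⟩ (fun p => X p.1 p.2) hR
    exact ⟨hi, (h.rel_iff R fun i => h.lab_col (hi i)).2 hR⟩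
  · rintro ⟨hi, hR⟩
    exact (h.rel_iff R fun i => h.lab_col (hi i)).1 hR

theorem image_snoc {m : ℕ} (t : Fin m → ℕ) (a : ℕ) :
    Finset.univ.image (fun j => Fin.snoc (α := fun _ => ℕ) t a j) =
      insert a (Finset.univ.image t) := by
  ext x
  simp only [Finset.mem_image, Finset.mem_univ, true_and, Finset.mem_insert]
  constructor
  · rintro ⟨j, rfl⟩
    refine Fin.lastCases ?_ (fun i => ?_) j
    · left
      simp
    · right
      exact ⟨i, by simp⟩
  · rintro (rfl | ⟨i, rfl⟩)
    · exact ⟨Fin.last m, by simp⟩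
    · exact ⟨i.castSucc, by simp⟩

theorem W.gc (h : W S) : GC k (col S) := by
  classical
  intro F q
  let f : Fin F.card ↪o ℕ := F.orderEmbOfFin rfl
  have hf : ∀ x, x ∈ F ↔ ∃ i, f i = x := by
    intro x
    have := Finset.range_orderEmbOfFin F rfl
    rw [← Finset.mem_coe, ← this]
    rfl
  have hQ : ∀ K : Fin k ↪o Fin F.card, ∃ x : Tu k,
      lab S x (q (Finset.univ.image fun i => f (K i))) := fun K => h.lab_surj _
  choose Q hQ using hQ
  obtain ⟨a, ha1, ha2⟩ := h.gen F.card f f.injective (fun p => Q p.1 p.2)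
    (fun K => h.lab_inj (hQ K))
  refine ⟨a (), fun haF => ?_, fun K hK hcard => ?_⟩
  · obtain ⟨i, hi⟩ := (hf _).1 haF
    exact ha1 i hi
  · let I : Finset (Fin F.card) := Finset.univ.filter fun i => f i ∈ K
    have hI : I.image f = K := by
      ext x
      rw [Finset.mem_image]
      constructor
      · rintro ⟨i, hi, rfl⟩
        exact (Finset.mem_filter.1 hi).2
      · intro hx
        obtain ⟨i, rfl⟩ := (hf x).1 (hK hx)
        exact ⟨i, Finset.mem_filter.2 ⟨Finset.mem_univ _, hx⟩, rfl⟩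
    have hIc : I.card = k := by
      rw [← hcard, ← hI, Finset.card_image_of_injective _ f.injective]
    have h1 := ha2 (I.orderEmbOfFin hIc)
    have h2 : Finset.univ.image (fun i => f (I.orderEmbOfFin hIc i)) = K := by
      rw [← hI]
      ext x
      simp only [Finset.mem_image, Finset.mem_univ, true_and]
      constructor
      · rintro ⟨i, rfl⟩
        exact ⟨_, Finset.orderEmbOfFin_mem I hIc i, rfl⟩
      · rintro ⟨i, hi, rfl⟩
        have h3 := Finset.range_orderEmbOfFin I hIc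
        have h4 : i ∈ Set.range (I.orderEmbOfFin hIc) := by
          rw [h3]
          exact hi
        obtain ⟨j, hj⟩ := h4
        exact ⟨j, by rw [hj]⟩
    have h3 := hQ (I.orderEmbOfFin hIc)
    rw [h2] at h3
    have h4 := (h.lab_cs h3).2 (h.symm _ _ h1)
    have h5 := h.col_eq h4
    rw [image_snoc, h2] at h5
    exact h5

end

end Pool.Agent.W889.FO
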