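import Pool.Agent.W889.FO.Iso

set_option autoImplicit false

/-! Transitivity, absence of algebraicity, and the transfer of the dichotomy. -/

namespace Pool.Agent.W889.FO

open FirstOrder FirstOrder.Language
open Pool.Agent.W889.VC (BP cont_of_meas)

/-- Vaught's conjecture, perfect-set form, for the theory `T` (in a relational language): the
models with universe `ℕ` fall into countably many isomorphism classes, or some continuous family
of models, indexed by the Cantor space, consists of pairwise non-isomorphic models. -/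
def Vaught (L : FirstOrder.Language.{0, 0}) (T : L.Theory) : Prop :=
  (∃ g : ℕ → L.Structure ℕ, ∀ S : L.Structure ℕ, @Theory.Model L ℕ S T →
    ∃ n : ℕ, Nonempty (@FirstOrder.Language.Equiv L ℕ ℕ S (g n))) ∨
  (∃ f : (ℕ → Bool) → L.Structure ℕ, (∀ x : ℕ → Bool, @Theory.Model L ℕ (f x) T) ∧
    (∀ x y : ℕ → Bool, Nonempty (@FirstOrder.Language.Equiv L ℕ ℕ (f x) (f y)) → x = y) ∧
    (∀ (n : ℕ) (R : L.Relations n) (a : Fin n → ℕ),
      IsClopen {x : ℕ → Bool | @Structure.RelMap L ℕ (f x) n R a}))

/-- the automorphism group of the structure is transitive on the `k`-tuples of distinct elements -/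
def Transitive {L : FirstOrder.Language.{0, 0}} (k : ℕ) (S : L.Structure ℕ) : Prop :=
  ∀ x y : Fin k → ℕ, Function.Injective x → Function.Injective y →
    ∃ σ : @FirstOrder.Language.Equiv L ℕ ℕ S S, ∀ i, σ (x i) = y i

/-- no element outside a finite set `F` has a finite orbit under the automorphisms that fix the
elements of `F` -/
def NoAlgebraicity {L : FirstOrder.Language.{0, 0}} (S : L.Structure ℕ) : Prop :=
  ∀ (F : Finset ℕ) (a : ℕ), a ∉ F →
    {b : ℕ | ∃ σ : @FirstOrder.Language.Equiv L ℕ ℕ S S, (∀ c ∈ F, σ c = c) ∧ σ a = b}.Infinite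

variable {k : ℕ} {L : FirstOrder.Language.{0, 0}} [L.IsRelational]
  {S : (TL k L).Structure ℕ}

/-- finite partial colour preserving maps extend to automorphisms -/
theorem W.aut (h : W S) {F : Finset ℕ} {g : ℕ → ℕ} (hg : PI k (col S) (col S) 1 F g) :
    ∃ f : @FirstOrder.Language.Equiv (TL k L) ℕ ℕ S S, ∀ a ∈ F, f a = g a := by
  obtain ⟨σ, h1, h2⟩ := hg.extend h.gc h.gc
  obtain ⟨f, hf⟩ := iso_of_col h h (@FirstOrder.Language.Equiv.refl L ℕ (D S)) σ (fun T hT => by
    rw [h2 T hT]
    rfl)
  exact ⟨f, fun a ha => by rw [hf, h1 a ha]⟩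

theorem W.transitive (h : W S) : Transitive k S := by
  classical
  intro x y hx hy
  rcases Nat.eq_zero_or_pos k with rfl | hk
  · exact ⟨@FirstOrder.Language.Equiv.refl _ ℕ S, fun i => i.elim0⟩
  let g : ℕ → ℕ := fun a => if ha : ∃ i, x i = a then y ha.choose else 0
  have hg : ∀ i, g (x i) = y i := by
    intro i
    have ha : ∃ j, x j = x i := ⟨i, rfl⟩
    have : g (x i) = y ha.choose := dif_pos ha
    rw [this, hx ha.choose_spec]
  have hPI : PI k (col S) (col S) 1 (Finset.univ.image x) g := by
    constructor
    · intro a ha b hb hab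
      rw [Finset.mem_coe, Finset.mem_image] at ha hb
      obtain ⟨i, -, rfl⟩ := ha
      obtain ⟨j, -, rfl⟩ := hb
      rw [hg, hg] at hab
      rw [hy hab]
    · intro T hT hc
      have h1 := Finset.card_le_card hT
      rw [hc, Finset.card_image_of_injective _ hx, Finset.card_univ, Fintype.card_fin] at h1
      omega
  obtain ⟨f, hf⟩ := h.aut hPI
  exact ⟨f, fun i => by rw [hf _ (Finset.mem_image_of_mem _ (Finset.mem_univ i)), hg]⟩

theorem W.noAlg (h : W S) : NoAlgebraicity S := by
  classical
  intro F a ha hfin
  obtain ⟨b, hb1, hb2⟩ := h.gc (F ∪ hfin.toFinset) (fun K => col S (insert a K))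
  rw [Finset.mem_union, not_or] at hb1
  have hne : ∀ x ∈ F, Function.update id a b x = x := fun x hx =>
    Function.update_of_ne (fun e : x = a => ha (e ▸ hx)) _ _
  have haa : Function.update id a b a = b := Function.update_self _ _ _
  have hPI : PI k (col S) (col S) 1 (insert a F) (Function.update id a b) := by
    constructor
    · intro x hx y hy hxy
      rw [Finset.mem_coe, Finset.mem_insert] at hx hy
      rcases hx with rfl | hx <;> rcases hy with rfl | hy
      · rfl
      · rw [haa, hne y hy] at hxy
        exact absurd (hxy ▸ hy) hb1.1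
      · rw [haa, hne x hx] at hxy
        exact absurd (hxy ▸ hx) hb1.1
      · rw [hne x hx, hne y hy] at hxy
        exact hxy
    · intro T hT hc
      by_cases haT : a ∈ T
      · have hKF : T.erase a ⊆ F := by
          intro x hx
          rw [Finset.mem_erase] at hx
          have := hT hx.2
          rw [Finset.mem_insert] at this
          exact this.resolve_left hx.1
        have h1 := hb2 (T.erase a) (hKF.trans Finset.subset_union_left) (by
          rw [Finset.card_erase_of_mem haT, hc]
          rfl)
        rw [Finset.insert_erase haT] at h1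
        rw [Equiv.Perm.one_apply, ← h1]
        congr 1
        conv_lhs => rw [← Finset.insert_erase haT]
        rw [Finset.image_insert, haa]
        congr 1
        conv_rhs => rw [← Finset.image_id (s := T.erase a)]
        apply Finset.image_congr
        intro x hx
        exact hne x (hKF hx)
      · have hTF : T ⊆ F := by
          intro x hx
          have := hT hx
          rw [Finset.mem_insert] at this
          exact this.resolve_left fun e => haT (e ▸ hx)
        rw [Equiv.Perm.one_apply]
        congr 1
        conv_rhs => rw [← Finset.image_id (s := T)]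
        apply Finset.image_congr
        intro x hx
        exact hne x (hTF hx)
  obtain ⟨f, hf⟩ := h.aut hPI
  apply hb1.2
  rw [Set.Finite.mem_toFinset]
  refine ⟨f, fun c hc => ?_, ?_⟩
  · rw [hf c (Finset.mem_insert_of_mem hc), hne c hc]
  · rw [hf a (Finset.mem_insert_self _ _), haa]

section transfer

/-- the relations of the decoded structures are measurable -/
theorem bp_D [Countable (Σ n, L.Relations n)] {f : (ℕ → Bool) → (TL k L).Structure ℕ}
    (hf : ∀ (n : ℕ) (R : (TL k L).Relations n) (a : Fin n → ℕ),
      IsClopen {x : ℕ → Bool | @Structure.RelMap (TL k L) ℕ (f x) n R a})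
    {n : ℕ} (R : L.Relations n) (v : Fin n → ℕ) :
    BP (fun x => @Structure.RelMap L ℕ (D (f x)) n R v) := by
  have hm : ∀ (n : ℕ) (R : (TL k L).Relations n) (a : Fin n → ℕ),
      BP (fun x => @Structure.RelMap (TL k L) ℕ (f x) n R a) := fun n R a =>
    (hf n R a).isOpen.measurableSet
  have hCs : ∀ x y, BP (fun z => Cs (f z) x y) := fun x y => hm _ TR.eqv _
  have hP : ∀ u, BP (fun z => P (f z) u) := fun u =>
    (BP.const _).and <| BP.all fun u' => (BP.const _).imp (hCs _ _).not
  have hlab : ∀ x n, BP (fun z => lab (f z) x n) := fun x n =>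
    BP.ex fun u => (Pool.Agent.W889.SD.bp_nth hP n u).and (hCs _ _)
  exact BP.ex fun X : Fin n → Tu k => (BP.all fun i => hlab (X i) (v i)).and (hm _ (TR.rel R) _)

/-- the transfer -/
theorem transfer [Countable (Σ n, L.Relations n)] (T : L.Theory) (T' : (TL k L).Theory)
    (hT' : ∀ S : (TL k L).Structure ℕ, @Theory.Model (TL k L) ℕ S T' ↔
      W S ∧ @Theory.Model L ℕ (D S) T) (hV : Vaught (TL k L) T') : Vaught L T := by
  classical
  rcases hV with ⟨g, hg⟩ | ⟨f, hf1, hf2, hf3⟩
  · left
    refine ⟨fun n => D (g n), fun M hM => ?_⟩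
    obtain ⟨S, hS, hi⟩ := exists_W k M
    obtain ⟨n, hn⟩ := hg S ((hT' S).2 ⟨hS, hi.symm.model hM⟩)
    exact ⟨n, hi.symm.trans (iso_down hS hn)⟩
  · right
    let Cd : Type := (Σ n, L.Relations n × (Fin n → ℕ)) → Bool
    have : Countable (Σ n, L.Relations n × (Fin n → ℕ)) := by
      have : ∀ n, Countable (L.Relations n) := fun n =>
        (sigma_mk_injective (β := L.Relations) (i := n)).countable
      infer_instance
    let F : (ℕ → Bool) → ((Σ n, L.Relations n × (Fin n → ℕ)) → Bool) := fun x p =>
      decide (@Structure.RelMap L ℕ (D (f x)) p.1 p.2.1 p.2.2)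
    have hF : Measurable F := by
      refine measurable_pi_iff.2 fun p => measurable_to_bool ?_
      refine (congrArg MeasurableSet (Set.ext fun x => ?_)).mp (bp_D hf3 p.2.1 p.2.2)
      simp [F]
    obtain ⟨h, h1, h2⟩ := cont_of_meas hF
    refine ⟨fun x => D (f (h x)), fun x => ((hT' _).1 (hf1 _)).2, fun x y hxy => ?_,
      fun n R a => ?_⟩
    · have hx := ((hT' _).1 (hf1 (h x))).1
      have hy := ((hT' _).1 (hf1 (h y))).1
      exact h1 (hf2 _ _ (iso_up hx hy hxy))
    · have hc : Continuous fun x => F (h x) ⟨n, R, a⟩ :=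
        (continuous_apply (⟨n, R, a⟩ : Σ n, L.Relations n × (Fin n → ℕ))).comp h2
      have hcl : IsClopen ((fun x => F (h x) ⟨n, R, a⟩) ⁻¹' {true}) :=
        (isClopen_discrete {true}).preimage hc
      convert hcl using 1
      ext x
      simp [F]

end transfer

omit [L.IsRelational] in
theorem countable_TL [Countable L.Symbols] : Countable (TL k L).Symbols := by
  have h1 : Countable (Σ n, L.Relations n) :=
    (Sum.inr_injective (α := Σ n, L.Functions n) (β := Σ n, L.Relations n)).countable
  have h2 : Countable (Σ n, (TL k L).Relations n) := by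
    let p : Option (Σ n, L.Relations n) → Σ n, (TL k L).Relations n := fun o => match o with
      | none => ⟨_, TR.eqv⟩
      | some q => ⟨_, TR.rel q.2⟩
    refine Function.Surjective.countable (f := p) ?_
    rintro ⟨n, Q⟩
    cases Q with
    | eqv => exact ⟨none, rfl⟩
    | rel R => exact ⟨some ⟨_, R⟩, rfl⟩
  have h3 : Countable (Σ n, (TL k L).Functions n) := by
    have : ∀ n, IsEmpty ((TL k L).Functions n) := fun n => inferInstanceAs (IsEmpty Empty)
    infer_instance
  exact inferInstanceAs (Countable ((Σ n, (TL k L).Functions n) ⊕ Σ n, (TL k L).Relations n))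

/-- the reduction -/
theorem reduction (k : ℕ)
    (h : ∀ L : FirstOrder.Language.{0, 0}, Countable L.Symbols → L.IsRelational →
      ∀ T : L.Theory, (∀ S : L.Structure ℕ, @Theory.Model L ℕ S T →
        Transitive k S ∧ NoAlgebraicity S) → Vaught L T)
    (L : FirstOrder.Language.{0, 0}) (hL : Countable L.Symbols) (hR : L.IsRelational)
    (T : L.Theory) : Vaught L T := by
  have : Countable (Σ n, L.Relations n) :=
    (Sum.inr_injective (α := Σ n, L.Functions n) (β := Σ n, L.Relations n)).countable
  obtain ⟨T', hT'⟩ := ax_theory (k := k) T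
  refine transfer T T' hT' (h (TL k L) countable_TL inferInstance T' fun S hS => ?_)
  have hW := ((hT' S).1 hS).1
  exact ⟨hW.transitive, hW.noAlg⟩

end Pool.Agent.W889.FO
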