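import Pool.Agent.W889.FO.Cnt

set_option autoImplicit false

/-! From arbitrary relational languages to languages with unary and binary relations. -/

namespace Pool.Agent.W889.FO

open FirstOrder FirstOrder.Language
open Pool.Agent.W889.VC (BP)

namespace StA

/-- the relation symbols -/
inductive RA (L : FirstOrder.Language.{0, 0}) : ℕ → Type
  | dm : RA L 1
  | ur {n : ℕ} (R : L.Relations n) : RA L 1
  | pr {n : ℕ} (R : L.Relations n) (i : Fin n) : RA L 2

/-- the target language -/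
def LA (L : FirstOrder.Language.{0, 0}) : FirstOrder.Language.{0, 0} := ⟨fun _ => Empty, RA L⟩

instance (L : FirstOrder.Language.{0, 0}) : (LA L).IsRelational :=
  fun _ => inferInstanceAs (IsEmpty Empty)

variable {L : FirstOrder.Language.{0, 0}}

/-- the elements of the source structure -/
def dm (S : (LA L).Structure ℕ) (u : ℕ) : Prop :=
  @Structure.RelMap (LA L) ℕ S _ RA.dm (fun _ => u)

/-- the elements for the tuples in the relation `R` -/
def U (S : (LA L).Structure ℕ) (R : Σ n, L.Relations n) (u : ℕ) : Prop :=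
  @Structure.RelMap (LA L) ℕ S _ (RA.ur R.2) (fun _ => u)

/-- projections -/
def pi (S : (LA L).Structure ℕ) (R : Σ n, L.Relations n) (i : Fin R.1) (t a : ℕ) : Prop :=
  @Structure.RelMap (LA L) ℕ S _ (RA.pr R.2 i) (fun j => if j = 0 then t else a)

/-- the axioms -/
structure W (S : (LA L).Structure ℕ) : Prop where
  d1 : ∀ (R : Σ n, L.Relations n) u, dm S u → ¬ U S R u
  d2 : ∀ (R R' : Σ n, L.Relations n) u, U S R u → U S R' u → R = R'
  p1 : ∀ (R : Σ n, L.Relations n) (i : Fin R.1) t a, pi S R i t a → U S R t ∧ dm S a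
  p2 : ∀ (R : Σ n, L.Relations n) (i : Fin R.1) t, U S R t → ∃ a, pi S R i t a
  p3 : ∀ (R : Σ n, L.Relations n) (i : Fin R.1) t a a', pi S R i t a → pi S R i t a' → a = a'
  p4 : ∀ (R : Σ n, L.Relations n) t t', U S R t → U S R t' →
    (∀ i, ∃ a, pi S R i t a ∧ pi S R i t' a) → t = t'
  inf : ∀ m : ℕ, ∃ X : Fin m → ℕ, Function.Injective X ∧ ∀ i, dm S (X i)

section fd

variable {V : (LA L).Structure ℕ → Prop} {α : Type}

theorem fd_dm (i : α) : FD V (fun S v => dm S (v i)) :=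
  FD.rel (W := V) (L := LA L) RA.dm (fun _ => i)

theorem fd_U (R : Σ n, L.Relations n) (i : α) : FD V (fun S v => U S R (v i)) :=
  FD.rel (W := V) (L := LA L) (RA.ur R.2) (fun _ => i)

theorem fd_pi (R : Σ n, L.Relations n) (l : Fin R.1) (i j : α) :
    FD V (fun S v => pi S R l (v i) (v j)) := by
  refine (FD.rel (W := V) (L := LA L) (RA.pr R.2 l) (fun m => if m = 0 then i else j)).congr
    fun S _ v => ?_
  have e : (fun m : Fin 2 => v (if m = 0 then i else j)) =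
      fun m => if m = 0 then v i else v j := by
    funext m
    split <;> rfl
  show @Structure.RelMap (LA L) ℕ S _ (RA.pr R.2 l) (fun m => v (if m = 0 then i else j)) ↔ _
  rw [e]
  exact Iff.rfl

/-- one variable quantifiers -/
theorem FD.all1 {L' : FirstOrder.Language.{0, 0}} {V : L'.Structure ℕ → Prop} {α : Type}
    {P : L'.Structure ℕ → (α → ℕ) → ℕ → Prop}
    (h : FD V (fun S (w : α ⊕ Unit → ℕ) => P S (fun i => w (Sum.inl i)) (w (Sum.inr ())))) :
    FD V (fun S v => ∀ a, P S v a) := by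
  refine (FD.all (P := fun S v (b : Unit → ℕ) => P S v (b ())) h).congr fun S _ v => ?_
  exact ⟨fun h a => h fun _ => a, fun h b => h (b ())⟩

theorem FD.ex1 {L' : FirstOrder.Language.{0, 0}} {V : L'.Structure ℕ → Prop} {α : Type}
    {P : L'.Structure ℕ → (α → ℕ) → ℕ → Prop}
    (h : FD V (fun S (w : α ⊕ Unit → ℕ) => P S (fun i => w (Sum.inl i)) (w (Sum.inr ())))) :
    FD V (fun S v => ∃ a, P S v a) := by
  refine (FD.ex (P := fun S v (b : Unit → ℕ) => P S v (b ())) h).congr fun S _ v => ?_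
  exact ⟨fun ⟨b, h⟩ => ⟨b (), h⟩, fun ⟨a, h⟩ => ⟨fun _ => a, h⟩⟩

end fd

theorem ax_W (L : FirstOrder.Language.{0, 0}) : Ax (W (L := L)) := by
  have h1 : Ax (fun S : (LA L).Structure ℕ => ∀ (R : Σ n, L.Relations n) u, dm S u →
      ¬ U S R u) := Ax.all fun R => Ax.of <|
    FD.all1 (P := fun S _ u => dm S u → ¬ U S R u) ((fd_dm _).imp (fd_U _ _).not)
  have h2 : Ax (fun S : (LA L).Structure ℕ => ∀ (R R' : Σ n, L.Relations n) u, U S R u →
      U S R' u → R = R') := Ax.all fun R => Ax.all fun R' => Ax.of <|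
    FD.all1 (P := fun S _ u => U S R u → U S R' u → R = R')
      ((fd_U _ _).imp ((fd_U _ _).imp (FD.const _)))
  have h3 : Ax (fun S : (LA L).Structure ℕ => ∀ (R : Σ n, L.Relations n) (i : Fin R.1) t a,
      pi S R i t a → U S R t ∧ dm S a) := Ax.all fun R => Ax.all fun i => Ax.of <|
    FD.all1 (P := fun S _ t => ∀ a, pi S R i t a → U S R t ∧ dm S a) <|
    FD.all1 (P := fun S w a => pi S R i (w (Sum.inr ())) a → U S R (w (Sum.inr ())) ∧ dm S a) <|
    (fd_pi _ _ _ _).imp ((fd_U _ _).and (fd_dm _))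
  have h4 : Ax (fun S : (LA L).Structure ℕ => ∀ (R : Σ n, L.Relations n) (i : Fin R.1) t,
      U S R t → ∃ a, pi S R i t a) := Ax.all fun R => Ax.all fun i => Ax.of <|
    FD.all1 (P := fun S _ t => U S R t → ∃ a, pi S R i t a) <|
    (fd_U _ _).imp <|
    FD.ex1 (P := fun S w a => pi S R i (w (Sum.inr ())) a) <| fd_pi _ _ _ _
  have h5 : Ax (fun S : (LA L).Structure ℕ => ∀ (R : Σ n, L.Relations n) (i : Fin R.1) t a a',
      pi S R i t a → pi S R i t a' → a = a') := Ax.all fun R => Ax.all fun i => Ax.of <|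
    FD.all1 (P := fun S _ t => ∀ a a', pi S R i t a → pi S R i t a' → a = a') <|
    FD.all1 (P := fun S w a => ∀ a', pi S R i (w (Sum.inr ())) a →
      pi S R i (w (Sum.inr ())) a' → a = a') <|
    FD.all1 (P := fun S w a' => pi S R i (w (Sum.inl (Sum.inr ()))) (w (Sum.inr ())) →
      pi S R i (w (Sum.inl (Sum.inr ()))) a' → w (Sum.inr ()) = a') <|
    (fd_pi _ _ _ _).imp ((fd_pi _ _ _ _).imp (FD.eq _ _))
  have h6 : Ax (fun S : (LA L).Structure ℕ => ∀ (R : Σ n, L.Relations n) t t', U S R t →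
      U S R t' → (∀ i, ∃ a, pi S R i t a ∧ pi S R i t' a) → t = t') :=
    Ax.all fun R => Ax.of <|
    FD.all1 (P := fun S _ t => ∀ t', U S R t →
      U S R t' → (∀ i, ∃ a, pi S R i t a ∧ pi S R i t' a) → t = t') <|
    FD.all1 (P := fun S w t' => U S R (w (Sum.inr ())) →
      U S R t' → (∀ i, ∃ a, pi S R i (w (Sum.inr ())) a ∧ pi S R i t' a) →
        w (Sum.inr ()) = t') <|
    (fd_U _ _).imp <| (fd_U _ _).imp <| (FD.fin fun i =>
      FD.ex1 (P := fun S w a => pi S R i (w (Sum.inl (Sum.inr ()))) a ∧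
        pi S R i (w (Sum.inr ())) a) <|
      (fd_pi _ _ _ _).and (fd_pi _ _ _ _)).imp (FD.eq _ _)
  have h7 : Ax (fun S : (LA L).Structure ℕ => ∀ m : ℕ, ∃ X : Fin m → ℕ,
      Function.Injective X ∧ ∀ i, dm S (X i)) := Ax.all fun m => Ax.of <|
    FD.ex (P := fun S _ X => Function.Injective X ∧ ∀ i, dm S (X i)) <|
    (FD.inj _).and (FD.fin fun _ => fd_dm _)
  refine (h1.and (h2.and (h3.and (h4.and (h5.and (h6.and h7)))))).congr fun S => ?_
  constructor
  · rintro ⟨k1, k2, k3, k4, k5, k6, k7⟩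
    exact ⟨k1, k2, k3, k4, k5, k6, k7⟩
  · rintro ⟨k1, k2, k3, k4, k5, k6, k7⟩
    exact ⟨k1, k2, k3, k4, k5, k6, k7⟩

/-- the interpretation -/
def itp (L : FirstOrder.Language.{0, 0}) : Itp L (LA L) where
  W := W
  axW := ax_W L
  dom := dm
  rel := fun {n} R S v => ∃ t, U S ⟨n, R⟩ t ∧ ∀ i, pi S ⟨n, R⟩ i t (v i)
  fdom := fd_dm _
  frel := fun {n} R => FD.ex1 (P := fun S v t => U S ⟨n, R⟩ t ∧ ∀ i, pi S ⟨n, R⟩ i t (v i)) <|
    (fd_U _ _).and (FD.fin fun i => fd_pi _ _ _ _)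
  inf := fun _ h => inf_of_card h.inf

/-- the elements without meaning -/
def junk (S : (LA L).Structure ℕ) (u : ℕ) : Prop := ¬ dm S u ∧ ∀ R, ¬ U S R u

theorem up [L.IsRelational] {S S' : (LA L).Structure ℕ} (h : W S) (h' : W S')
    (hi : SIso ((itp L).D S) ((itp L).D S')) (hc : cnt (junk S) = cnt (junk S')) :
    SIso S S' := by
  classical
  obtain ⟨π, hπ⟩ := ((itp L).D_iso_iff h h').1 hi
  obtain ⟨ρ⟩ := cnt_equiv hc
  -- the matching of the elements
  let M : (Σ n, L.Relations n) → ℕ → ℕ → Prop := fun R u u' => U S R u ∧ U S' R u' ∧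
    ∀ i a, pi S R i u a → ∃ ha : dm S a, pi S' R i u' (π ⟨a, ha⟩)
  have hM1 : ∀ R u, U S R u → ∃ u', M R u u' := by
    intro R u hu
    choose a ha using fun i => h.p2 R i u hu
    have hd : ∀ i, dm S (a i) := fun i => (h.p1 R i u _ (ha i)).2
    obtain ⟨u', h1, h2⟩ := (hπ R.2 (fun i => ⟨a i, hd i⟩)).1 ⟨u, hu, ha⟩
    refine ⟨u', hu, h1, fun i b hb => ?_⟩
    have : b = a i := h.p3 R i u _ _ hb (ha i)
    subst this
    exact ⟨hd i, h2 i⟩
  have hM2 : ∀ R u', U S' R u' → ∃ u, M R u u' := by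
    intro R u' hu'
    choose a' ha' using fun i => h'.p2 R i u' hu'
    have hd' : ∀ i, dm S' (a' i) := fun i => (h'.p1 R i u' _ (ha' i)).2
    have h3 : ∃ t, U S' R t ∧ ∀ i, pi S' R i t (π (π.symm ⟨a' i, hd' i⟩)) := by
      refine ⟨u', hu', fun i => ?_⟩
      rw [Equiv.apply_symm_apply]
      exact ha' i
    obtain ⟨u, h1, h2⟩ := (hπ R.2 (fun i => π.symm ⟨a' i, hd' i⟩)).2 h3
    refine ⟨u, h1, hu', fun i b hb => ?_⟩
    have : b = (π.symm ⟨a' i, hd' i⟩ : ℕ) := h.p3 R i u _ _ hb (h2 i)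
    subst this
    refine ⟨(π.symm ⟨a' i, hd' i⟩).2, ?_⟩
    rw [Subtype.coe_eta, Equiv.apply_symm_apply]
    exact ha' i
  have hM3 : ∀ R u u1 u2, M R u u1 → M R u u2 → u1 = u2 := by
    rintro R u u1 u2 ⟨h1, h2, h3⟩ ⟨_, h4, h5⟩
    refine h'.p4 R _ _ h2 h4 fun i => ?_
    obtain ⟨a, ha⟩ := h.p2 R i u h1
    obtain ⟨hd, h6⟩ := h3 i a ha
    obtain ⟨_, h7⟩ := h5 i a ha
    exact ⟨_, h6, h7⟩
  have hM4 : ∀ R u1 u2 u, M R u1 u → M R u2 u → u1 = u2 := by
    rintro R u1 u2 u ⟨h1, h2, h3⟩ ⟨h4, _, h5⟩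
    refine h.p4 R _ _ h1 h4 fun i => ?_
    obtain ⟨a, ha⟩ := h.p2 R i u1 h1
    obtain ⟨b, hb⟩ := h.p2 R i u2 h4
    obtain ⟨hd, h6⟩ := h3 i a ha
    obtain ⟨hd', h7⟩ := h5 i b hb
    have h8 := h'.p3 R i u _ _ h6 h7
    have h9 : a = b := congrArg Subtype.val (π.injective (Subtype.ext h8))
    exact ⟨a, ha, h9 ▸ hb⟩
  obtain ⟨σ, hσ⟩ := Pool.Agent.W889.SD.equiv_of_rel
    (fun u u' : ℕ => (∃ hu : dm S u, (π ⟨u, hu⟩ : ℕ) = u') ∨ (∃ R, M R u u') ∨
      (∃ hu : junk S u, (ρ ⟨u, hu⟩ : ℕ) = u'))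
    (fun u => by
      by_cases hd : dm S u
      · exact ⟨_, Or.inl ⟨hd, rfl⟩⟩
      · by_cases hU : ∃ R, U S R u
        · obtain ⟨R, hR⟩ := hU
          obtain ⟨u', hu'⟩ := hM1 R u hR
          exact ⟨u', Or.inr (Or.inl ⟨R, hu'⟩)⟩
        · push Not at hU
          exact ⟨_, Or.inr (Or.inr ⟨⟨hd, hU⟩, rfl⟩)⟩)
    (fun u' => by
      by_cases hd : dm S' u'
      · refine ⟨π.symm ⟨u', hd⟩, Or.inl ⟨(π.symm ⟨u', hd⟩).2, ?_⟩⟩
        rw [Subtype.coe_eta, Equiv.apply_symm_apply]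
      · by_cases hU : ∃ R, U S' R u'
        · obtain ⟨R, hR⟩ := hU
          obtain ⟨u, hu⟩ := hM2 R u' hR
          exact ⟨u, Or.inr (Or.inl ⟨R, hu⟩)⟩
        · push Not at hU
          refine ⟨ρ.symm ⟨u', hd, hU⟩, Or.inr (Or.inr ⟨(ρ.symm ⟨u', hd, hU⟩).2, ?_⟩)⟩
          rw [Subtype.coe_eta, Equiv.apply_symm_apply])
    (by
      rintro u u1 u2 (⟨k1, rfl⟩ | ⟨R, k1⟩ | ⟨k1, rfl⟩) (⟨k2, rfl⟩ | ⟨R', k2⟩ | ⟨k2, rfl⟩)
      · rfl
      · exact absurd k2.1 (h.d1 R' u k1)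
      · exact absurd k1 k2.1
      · exact absurd k1.1 (h.d1 R u k2)
      · have : R = R' := h.d2 R R' u k1.1 k2.1
        subst this
        exact hM3 R u _ _ k1 k2
      · exact absurd k1.1 (k2.2 R)
      · exact absurd k2 k1.1
      · exact absurd k2.1 (k1.2 R')
      · rfl)
    (by
      have hd1 : ∀ u1 (k : dm S u1), dm S' (π ⟨u1, k⟩ : ℕ) := fun u1 k => (π ⟨u1, k⟩).2
      have hj1 : ∀ u1 (k : junk S u1), junk S' (ρ ⟨u1, k⟩ : ℕ) := fun u1 k => (ρ ⟨u1, k⟩).2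
      rintro u1 u2 u (⟨k1, e1⟩ | ⟨R, k1⟩ | ⟨k1, e1⟩) (⟨k2, e2⟩ | ⟨R', k2⟩ | ⟨k2, e2⟩)
      · exact congrArg Subtype.val (π.injective (Subtype.ext (e1.trans e2.symm)))
      · exact absurd k2.2.1 (h'.d1 R' u (e1 ▸ hd1 u1 k1))
      · exact absurd (e1 ▸ hd1 u1 k1) (e2 ▸ hj1 u2 k2).1
      · exact absurd k1.2.1 (h'.d1 R u (e2 ▸ hd1 u2 k2))
      · have : R = R' := h'.d2 R R' u k1.2.1 k2.2.1
        subst this
        exact hM4 R _ _ u k1 k2
      · exact absurd k1.2.1 ((e2 ▸ hj1 u2 k2).2 R)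
      · exact absurd (e2 ▸ hd1 u2 k2) (e1 ▸ hj1 u1 k1).1
      · exact absurd k2.2.1 ((e1 ▸ hj1 u1 k1).2 R')
      · exact congrArg Subtype.val (ρ.injective (Subtype.ext (e1.trans e2.symm))))
  have hdσ : ∀ u, dm S' (σ u) ↔ dm S u := by
    intro u
    rcases hσ u with ⟨k1, e1⟩ | ⟨R, k1⟩ | ⟨k1, e1⟩
    · exact ⟨fun _ => k1, fun _ => e1 ▸ (π ⟨u, k1⟩).2⟩
    · exact ⟨fun k => absurd k1.2.1 (h'.d1 R _ k), fun k => absurd k1.1 (h.d1 R _ k)⟩
    · exact ⟨fun k => absurd k (e1 ▸ (ρ ⟨u, k1⟩).2).1, fun k => absurd k k1.1⟩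
  have hdπ : ∀ u (hu : dm S u), (π ⟨u, hu⟩ : ℕ) = σ u := by
    intro u hu
    rcases hσ u with ⟨k1, e1⟩ | ⟨R, k1⟩ | ⟨k1, e1⟩
    · exact e1
    · exact absurd k1.1 (h.d1 R _ hu)
    · exact absurd hu k1.1
  have hUσ : ∀ R u, U S' R (σ u) ↔ U S R u := by
    intro R u
    rcases hσ u with ⟨k1, e1⟩ | ⟨R', k1⟩ | ⟨k1, e1⟩
    · exact ⟨fun k => absurd k (h'.d1 R _ ((hdσ u).2 k1)), fun k => absurd k (h.d1 R _ k1)⟩
    · constructor
      · intro k
        rw [h'.d2 R R' _ k k1.2.1]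
        exact k1.1
      · intro k
        rw [h.d2 R R' _ k k1.1]
        exact k1.2.1
    · exact ⟨fun k => absurd k ((e1 ▸ (ρ ⟨u, k1⟩).2).2 R), fun k => absurd k (k1.2 R)⟩
  have hMσ : ∀ R u, U S R u → M R u (σ u) := by
    intro R u hu
    rcases hσ u with ⟨k1, e1⟩ | ⟨R', k1⟩ | ⟨k1, e1⟩
    · exact absurd hu (h.d1 R _ k1)
    · rw [h.d2 R R' _ hu k1.1]
      exact k1
    · exact absurd hu (k1.2 R)
  have hpσ : ∀ R i t a, pi S' R i (σ t) (σ a) ↔ pi S R i t a := by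
    intro R i t a
    constructor
    · intro k
      obtain ⟨k1, k2⟩ := h'.p1 R i _ _ k
      rw [hUσ] at k1
      rw [hdσ] at k2
      obtain ⟨b, hb⟩ := h.p2 R i t k1
      obtain ⟨hd, h6⟩ := (hMσ R t k1).2.2 i b hb
      rw [hdπ] at h6
      have := σ.injective (h'.p3 R i _ _ _ k h6)
      rw [this]
      exact hb
    · intro k
      have k1 := (h.p1 R i _ _ k).1
      obtain ⟨hd, h6⟩ := (hMσ R t k1).2.2 i a k
      rw [hdπ] at h6
      exact h6
  obtain ⟨f, -⟩ := siso_of (S := S) (S' := S') σ (fun n Q v => by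
    cases Q with
    | dm =>
      have := hdσ (v 0)
      unfold dm at this
      have e1 : (fun _ : Fin 1 => v 0) = v := funext fun i => by rw [Subsingleton.elim i 0]
      have e2 : (fun _ : Fin 1 => σ (v 0)) = fun i => σ (v i) :=
        funext fun i => by rw [Subsingleton.elim i 0]
      rw [e1, e2] at this
      exact this
    | @ur n R =>
      have := hUσ ⟨n, R⟩ (v 0)
      unfold U at this
      have e1 : (fun _ : Fin 1 => v 0) = v := funext fun i => by rw [Subsingleton.elim i 0]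
      have e2 : (fun _ : Fin 1 => σ (v 0)) = fun i => σ (v i) :=
        funext fun i => by rw [Subsingleton.elim i 0]
      rw [e1, e2] at this
      exact this
    | @pr n R i =>
      have := hpσ ⟨n, R⟩ i (v 0) (v 1)
      unfold pi at this
      have e1 : (fun m : Fin 2 => if m = 0 then v 0 else v 1) = v := by
        funext m
        fin_cases m <;> rfl
      have e2 : (fun m : Fin 2 => if m = 0 then σ (v 0) else σ (v 1)) = fun i => σ (v i) := by
        funext m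
        fin_cases m <;> rfl
      rw [e1, e2] at this
      exact this)
  exact ⟨f⟩

theorem cntA [L.IsRelational] [Countable (Σ n, L.Relations n)] :
    Itp.Cnt (itp L) (Option ℕ) (fun S => cnt (junk S)) where
  up := fun _ _ h h' hi hc => up h h' hi hc
  bp := fun f hf _ c => bp_cnt (P := fun y => junk (f y))
    (fun u => BP.and (BP.not (hf 1 RA.dm (fun _ => u)))
      (BP.all fun R : (Σ n, L.Relations n) => BP.not (hf 1 (RA.ur R.2) (fun _ => u)))) c

/-- existence -/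
theorem ex [L.IsRelational] [Countable (Σ n, L.Relations n)] (M : L.Structure ℕ) :
    ∃ S : (LA L).Structure ℕ, W S ∧ SIso ((itp L).D S) M := by
  classical
  let C : Type := ℕ ⊕ (Σ R : (Σ n, L.Relations n),
    {v : Fin R.1 → ℕ // @Structure.RelMap L ℕ M R.1 R.2 v})
  have : Infinite C := Sum.infinite_of_left
  obtain ⟨b⟩ : Nonempty (ℕ ≃ C) := nonempty_equiv_of_countable
  let S : (LA L).Structure ℕ :=
    { funMap := fun {_} f => isEmptyElim f
      RelMap := fun {n} Q => match n, Q with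
        | _, RA.dm => fun v => ∃ x, b (v 0) = Sum.inl x
        | _, @RA.ur _ n R => fun v => ∃ x, b (v 0) = Sum.inr ⟨⟨n, R⟩, x⟩
        | _, @RA.pr _ n R i => fun v => ∃ x, b (v 0) = Sum.inr ⟨⟨n, R⟩, x⟩ ∧
            b (v 1) = Sum.inl (x.1 i) }
  have hdm : ∀ u, dm S u ↔ ∃ x, b u = Sum.inl x := fun u => Iff.rfl
  have hU : ∀ R u, U S R u ↔ ∃ x, b u = Sum.inr ⟨R, x⟩ := fun R u => Iff.rfl
  have hpi : ∀ R i t a, pi S R i t a ↔ ∃ x, b t = Sum.inr ⟨R, x⟩ ∧ b a = Sum.inl (x.1 i) :=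
    fun R i t a => Iff.rfl
  have hW : W S := by
    constructor
    · intro R u hd hu
      obtain ⟨x, hx⟩ := (hdm u).1 hd
      obtain ⟨y, hy⟩ := (hU R u).1 hu
      rw [hx] at hy
      exact absurd hy (by simp)
    · intro R R' u hu hu'
      obtain ⟨x, hx⟩ := (hU R u).1 hu
      obtain ⟨y, hy⟩ := (hU R' u).1 hu'
      rw [hx] at hy
      have := Sum.inr.inj hy
      exact congrArg Sigma.fst this
    · intro R i t a h
      obtain ⟨x, hx, hx'⟩ := (hpi R i t a).1 h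
      exact ⟨(hU R t).2 ⟨x, hx⟩, (hdm a).2 ⟨_, hx'⟩⟩
    · intro R i t hu
      obtain ⟨x, hx⟩ := (hU R t).1 hu
      exact ⟨b.symm (Sum.inl (x.1 i)), (hpi R i _ _).2 ⟨x, hx, by rw [Equiv.apply_symm_apply]⟩⟩
    · intro R i t a a' h h'
      obtain ⟨x, hx, hx'⟩ := (hpi R i t a).1 h
      obtain ⟨y, hy, hy'⟩ := (hpi R i t a').1 h'
      rw [hx] at hy
      have h1 := Sum.inr.inj hy
      rw [Sigma.mk.injEq] at h1
      have h2 : x = y := eq_of_heq h1.2
      apply b.injective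
      rw [hx', hy', h2]
    · intro R t t' hu hu' h
      obtain ⟨x, hx⟩ := (hU R t).1 hu
      obtain ⟨y, hy⟩ := (hU R t').1 hu'
      apply b.injective
      rw [hx, hy]
      congr 2
      apply Subtype.ext
      funext i
      obtain ⟨a, ha, ha'⟩ := h i
      obtain ⟨x1, hx1, hx1'⟩ := (hpi R i t a).1 ha
      obtain ⟨y1, hy1, hy1'⟩ := (hpi R i t' a).1 ha'
      rw [hx] at hx1
      rw [hy] at hy1
      have e1 : x = x1 := by
        have h1 := Sum.inr.inj hx1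
        rw [Sigma.mk.injEq] at h1
        exact eq_of_heq h1.2
      have e2 : y = y1 := by
        have h1 := Sum.inr.inj hy1
        rw [Sigma.mk.injEq] at h1
        exact eq_of_heq h1.2
      rw [e1, e2]
      rw [hx1'] at hy1'
      exact Sum.inl.inj hy1'
    · intro m
      refine ⟨fun i => b.symm (Sum.inl i), fun i j hij => ?_, fun i => ?_⟩
      · have := Sum.inl.inj (b.symm.injective hij)
        exact Fin.ext this
      · exact (hdm _).2 ⟨i, by rw [Equiv.apply_symm_apply]⟩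
  refine ⟨S, hW, ?_⟩
  obtain ⟨π, hπ⟩ := Pool.Agent.W889.SD.equiv_of_rel
    (fun (x : ℕ) (u : {u // dm S u}) => b u = Sum.inl x)
    (fun x => ⟨⟨b.symm (Sum.inl x), (hdm _).2 ⟨x, by rw [Equiv.apply_symm_apply]⟩⟩, by
      simp⟩)
    (fun u => (hdm _).1 u.2)
    (fun x u u' h h' => Subtype.ext (b.injective (h.trans h'.symm)))
    (fun x x' u h h' => Sum.inl.inj (h.symm.trans h'))
  refine (itp L).D_iso hW π fun {n} R u => ?_
  constructor
  · intro hR
    refine ⟨b.symm (Sum.inr ⟨⟨n, R⟩, ⟨u, hR⟩⟩), (hU _ _).2 ⟨_, by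
      rw [Equiv.apply_symm_apply]⟩, fun i => (hpi _ _ _ _).2 ⟨_, by
        rw [Equiv.apply_symm_apply], hπ (u i)⟩⟩
  · rintro ⟨t, ht, hti⟩
    obtain ⟨x, hx⟩ := (hU _ _).1 ht
    have : u = x.1 := by
      funext i
      obtain ⟨y, hy, hy'⟩ := (hpi _ _ _ _).1 (hti i)
      rw [hx] at hy
      have h1 := Sum.inr.inj hy
      rw [Sigma.mk.injEq] at h1
      have h2 : x = y := eq_of_heq h1.2
      have h3 : b (π (u i)) = Sum.inl (y.1 i) := hy'
      rw [hπ (u i)] at h3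
      rw [h2]
      exact Sum.inl.inj h3
    rw [this]
    exact x.2

theorem countable_LA [Countable (Σ n, L.Relations n)] : Countable (Σ n, (LA L).Relations n) := by
  let p : Option ((Σ n, L.Relations n) ⊕ (Σ R : (Σ n, L.Relations n), Fin R.1)) →
      Σ n, (LA L).Relations n := fun o => match o with
    | none => ⟨_, RA.dm⟩
    | some (Sum.inl q) => ⟨_, RA.ur q.2⟩
    | some (Sum.inr q) => ⟨_, RA.pr q.1.2 q.2⟩
  refine Function.Surjective.countable (f := p) ?_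
  rintro ⟨n, Q⟩
  cases Q with
  | dm => exact ⟨none, rfl⟩
  | ur R => exact ⟨some (Sum.inl ⟨_, R⟩), rfl⟩
  | pr R i => exact ⟨some (Sum.inr ⟨⟨_, R⟩, i⟩), rfl⟩

/-- the reduction -/
theorem reduce (L : FirstOrder.Language.{0, 0}) [L.IsRelational] [Countable (Σ n, L.Relations n)]
    (hV : ∀ T' : (LA L).Theory, Vaught (LA L) T') (T : L.Theory) : Vaught L T :=
  (itp L).transfer cntA T (fun M _ => ex M) fun T' _ => hV T'

end StA

end Pool.Agent.W889.FO
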