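import Pool.Agent.W889.FO.StA
import Pool.Agent.W889.FO.Inj

set_option autoImplicit false

/-! From languages with unary and binary relations to a finite language. -/

namespace Pool.Agent.W889.FO

open FirstOrder FirstOrder.Language
open Pool.Agent.W889.VC (BP)

namespace StB

/-- the relation symbols -/
inductive RB : ℕ → Type
  | D : RB 1
  | C : RB 1
  | M : RB 1
  | fs : RB 2
  | sn : RB 2
  | sc : RB 2

/-- the finite language -/
def LB : FirstOrder.Language.{0, 0} := ⟨fun _ => Empty, RB⟩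

instance : LB.IsRelational := fun _ => inferInstanceAs (IsEmpty Empty)

/-- the elements of the source structure -/
def D (S : LB.Structure ℕ) (u : ℕ) : Prop := @Structure.RelMap LB ℕ S _ RB.D (fun _ => u)
/-- the starts of the spines -/
def C (S : LB.Structure ℕ) (u : ℕ) : Prop := @Structure.RelMap LB ℕ S _ RB.C (fun _ => u)
/-- the marks -/
def M (S : LB.Structure ℕ) (u : ℕ) : Prop := @Structure.RelMap LB ℕ S _ RB.M (fun _ => u)
/-- a binary relation -/
def bin (Q : RB 2) (S : LB.Structure ℕ) (a b : ℕ) : Prop :=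
  @Structure.RelMap LB ℕ S _ Q (fun j => if j = 0 then a else b)

/-- chains of successors -/
def ch (S : LB.Structure ℕ) : ℕ → ℕ → ℕ → Prop
  | 0, x, y => x = y
  | n + 1, x, y => ∃ z, ch S n x z ∧ bin RB.sc S z y

section fd

variable {V : LB.Structure ℕ → Prop} {α : Type}

theorem fd_D (i : α) : FD V (fun S v => D S (v i)) :=
  FD.rel (W := V) (L := LB) RB.D (fun _ => i)

theorem fd_C (i : α) : FD V (fun S v => C S (v i)) :=
  FD.rel (W := V) (L := LB) RB.C (fun _ => i)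

theorem fd_M (i : α) : FD V (fun S v => M S (v i)) :=
  FD.rel (W := V) (L := LB) RB.M (fun _ => i)

theorem fd_bin (Q : RB 2) (i j : α) : FD V (fun S v => bin Q S (v i) (v j)) := by
  refine (FD.rel (W := V) (L := LB) Q (fun m => if m = 0 then i else j)).congr
    fun S _ v => ?_
  have e : (fun m : Fin 2 => v (if m = 0 then i else j)) =
      fun m => if m = 0 then v i else v j := by
    funext m
    split <;> rfl
  show @Structure.RelMap LB ℕ S _ Q (fun m => v (if m = 0 then i else j)) ↔ _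
  rw [e]
  exact Iff.rfl

theorem fd_ch (n : ℕ) (i j : α) : FD V (fun S v => ch S n (v i) (v j)) := by
  induction n generalizing α with
  | zero => exact FD.eq i j
  | succ n ih =>
    exact StA.FD.ex1 (P := fun S v z => ch S n (v i) z ∧ bin RB.sc S z (v j)) <|
      (ih _ _).and (fd_bin _ _ _)

end fd

/-- the axioms which do not depend on the source language -/
structure W0 (S : LB.Structure ℕ) : Prop where
  c1 : ∀ u, C S u → ¬ D S u
  f1 : ∀ c a, bin RB.fs S c a → C S c ∧ D S a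
  f2 : ∀ c, C S c → ∃ a, bin RB.fs S c a
  f3 : ∀ c a a', bin RB.fs S c a → bin RB.fs S c a' → a = a'
  s1 : ∀ c a, bin RB.sn S c a → C S c ∧ D S a
  s2 : ∀ c, C S c → ∃ a, bin RB.sn S c a
  s3 : ∀ c a a', bin RB.sn S c a → bin RB.sn S c a' → a = a'
  e1 : ∀ a b, D S a → D S b → ∃ c, bin RB.fs S c a ∧ bin RB.sn S c b
  e2 : ∀ a b c c', bin RB.fs S c a → bin RB.fs S c' a → bin RB.sn S c b → bin RB.sn S c' b →
    c = c'
  n1 : ∀ x y, bin RB.sc S x y → ¬ D S x ∧ ¬ D S y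
  n2 : ∀ x, ¬ D S x → ∃ y, bin RB.sc S x y
  n3 : ∀ x y y', bin RB.sc S x y → bin RB.sc S x y' → y = y'
  n4 : ∀ x x' y, bin RB.sc S x y → bin RB.sc S x' y → x = x'
  n5 : ∀ x y, C S y → ¬ bin RB.sc S x y
  n6 : ∀ y, ¬ D S y → ¬ C S y → ∃ x, bin RB.sc S x y
  m0 : ∀ u, M S u → ¬ D S u
  n7 : ∀ n x, ¬ ch S (n + 1) x x
  m4 : ∀ n x y, ch S (n + 1) x y → M S x → M S y → ∃ c, C S c ∧ ∃ i : Fin (n + 2), ch S i c x
  inf : ∀ m : ℕ, ∃ X : Fin m → ℕ, Function.Injective X ∧ ∀ i, D S (X i)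

open StA (FD.all1 FD.ex1)

theorem ax1 {P : LB.Structure ℕ → ℕ → Prop}
    (h : FD (fun _ => True) (fun S (w : Empty ⊕ Unit → ℕ) => P S (w (Sum.inr ())))) :
    Ax (fun S => ∀ a, P S a) :=
  Ax.of (FD.all1 (P := fun S _ a => P S a) h)

theorem ax2 {P : LB.Structure ℕ → ℕ → ℕ → Prop}
    (h : FD (fun _ => True) (fun S (w : (Empty ⊕ Unit) ⊕ Unit → ℕ) =>
      P S (w (Sum.inl (Sum.inr ()))) (w (Sum.inr ())))) :
    Ax (fun S => ∀ a b, P S a b) :=
  ax1 (P := fun S a => ∀ b, P S a b)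
    (FD.all1 (P := fun S w a => P S (w (Sum.inr ())) a) h)

theorem ax3 {P : LB.Structure ℕ → ℕ → ℕ → ℕ → Prop}
    (h : FD (fun _ => True) (fun S (w : ((Empty ⊕ Unit) ⊕ Unit) ⊕ Unit → ℕ) =>
      P S (w (Sum.inl (Sum.inl (Sum.inr ())))) (w (Sum.inl (Sum.inr ()))) (w (Sum.inr ())))) :
    Ax (fun S => ∀ a b c, P S a b c) :=
  ax2 (P := fun S a b => ∀ c, P S a b c)
    (FD.all1 (P := fun S w a => P S (w (Sum.inl (Sum.inr ()))) (w (Sum.inr ())) a) h)

theorem ax4 {P : LB.Structure ℕ → ℕ → ℕ → ℕ → ℕ → Prop}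
    (h : FD (fun _ => True) (fun S (w : (((Empty ⊕ Unit) ⊕ Unit) ⊕ Unit) ⊕ Unit → ℕ) =>
      P S (w (Sum.inl (Sum.inl (Sum.inl (Sum.inr ()))))) (w (Sum.inl (Sum.inl (Sum.inr ()))))
        (w (Sum.inl (Sum.inr ()))) (w (Sum.inr ())))) :
    Ax (fun S => ∀ a b c d, P S a b c d) :=
  ax3 (P := fun S a b c => ∀ d, P S a b c d)
    (FD.all1 (P := fun S w a => P S (w (Sum.inl (Sum.inl (Sum.inr ()))))
      (w (Sum.inl (Sum.inr ()))) (w (Sum.inr ())) a) h)

theorem ax_W0 : Ax W0 := by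
  have c1 : Ax (fun S => ∀ u, C S u → ¬ D S u) := ax1 ((fd_C _).imp (fd_D _).not)
  have f1 : ∀ Q : RB 2, Ax (fun S => ∀ c a, bin Q S c a → C S c ∧ D S a) := fun Q =>
    ax2 ((fd_bin _ _ _).imp ((fd_C _).and (fd_D _)))
  have f2 : ∀ Q : RB 2, Ax (fun S => ∀ c, C S c → ∃ a, bin Q S c a) := fun Q =>
    ax1 ((fd_C _).imp (FD.ex1 (P := fun S w a => bin Q S (w (Sum.inr ())) a) (fd_bin _ _ _)))
  have f3 : ∀ Q : RB 2, Ax (fun S => ∀ c a a', bin Q S c a → bin Q S c a' → a = a') :=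
    fun Q => ax3 ((fd_bin _ _ _).imp ((fd_bin _ _ _).imp (FD.eq _ _)))
  have e1 : Ax (fun S => ∀ a b, D S a → D S b → ∃ c, bin RB.fs S c a ∧ bin RB.sn S c b) :=
    ax2 ((fd_D _).imp ((fd_D _).imp (FD.ex1 (P := fun S w c =>
      bin RB.fs S c (w (Sum.inl (Sum.inr ()))) ∧ bin RB.sn S c (w (Sum.inr ())))
      ((fd_bin _ _ _).and (fd_bin _ _ _)))))
  have e2 : Ax (fun S => ∀ a b c c', bin RB.fs S c a → bin RB.fs S c' a → bin RB.sn S c b →
      bin RB.sn S c' b → c = c') :=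
    ax4 ((fd_bin _ _ _).imp ((fd_bin _ _ _).imp ((fd_bin _ _ _).imp ((fd_bin _ _ _).imp
      (FD.eq _ _)))))
  have n1 : Ax (fun S => ∀ x y, bin RB.sc S x y → ¬ D S x ∧ ¬ D S y) :=
    ax2 ((fd_bin _ _ _).imp ((fd_D _).not.and (fd_D _).not))
  have n2 : Ax (fun S => ∀ x, ¬ D S x → ∃ y, bin RB.sc S x y) :=
    ax1 ((fd_D _).not.imp (FD.ex1 (P := fun S w a => bin RB.sc S (w (Sum.inr ())) a)
      (fd_bin _ _ _)))
  have n4 : Ax (fun S => ∀ x x' y, bin RB.sc S x y → bin RB.sc S x' y → x = x') :=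
    ax3 ((fd_bin _ _ _).imp ((fd_bin _ _ _).imp (FD.eq _ _)))
  have n5 : Ax (fun S => ∀ x y, C S y → ¬ bin RB.sc S x y) :=
    ax2 ((fd_C _).imp (fd_bin _ _ _).not)
  have n6 : Ax (fun S => ∀ y, ¬ D S y → ¬ C S y → ∃ x, bin RB.sc S x y) :=
    ax1 ((fd_D _).not.imp ((fd_C _).not.imp (FD.ex1 (P := fun S w a =>
      bin RB.sc S a (w (Sum.inr ()))) (fd_bin _ _ _))))
  have m0 : Ax (fun S => ∀ u, M S u → ¬ D S u) := ax1 ((fd_M _).imp (fd_D _).not)
  have n7 : Ax (fun S => ∀ n x, ¬ ch S (n + 1) x x) := Ax.all fun n =>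
    ax1 (P := fun S x => ¬ ch S (n + 1) x x) (fd_ch _ _ _).not
  have m4 : Ax (fun S => ∀ n x y, ch S (n + 1) x y → M S x → M S y →
      ∃ c, C S c ∧ ∃ i : Fin (n + 2), ch S i c x) := Ax.all fun n =>
    ax2 (P := fun S x y => ch S (n + 1) x y → M S x → M S y →
      ∃ c, C S c ∧ ∃ i : Fin (n + 2), ch S i c x) ((fd_ch _ _ _).imp ((fd_M _).imp
        ((fd_M _).imp (FD.ex1 (P := fun S w c => C S c ∧ ∃ i : Fin (n + 2),
          ch S i c (w (Sum.inl (Sum.inr ())))) ((fd_C _).and (by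
            refine ((FD.fin fun i : Fin (n + 2) =>
              (fd_ch (V := fun _ => True) (i : ℕ)
                (Sum.inr () : ((Empty ⊕ Unit) ⊕ Unit) ⊕ Unit)
                (Sum.inl (Sum.inl (Sum.inr ())))).not).not).congr fun S _ v => ?_
            push Not
            rfl))))))
  have inf : Ax (fun S => ∀ m : ℕ, ∃ X : Fin m → ℕ, Function.Injective X ∧
      ∀ i, D S (X i)) := Ax.all fun m => Ax.of <|
    FD.ex (P := fun S _ X => Function.Injective X ∧ ∀ i, D S (X i)) <|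
    (FD.inj _).and (FD.fin fun _ => fd_D _)
  refine (c1.and ((f1 RB.fs).and ((f2 RB.fs).and ((f3 RB.fs).and ((f1 RB.sn).and
    ((f2 RB.sn).and ((f3 RB.sn).and (e1.and (e2.and (n1.and (n2.and ((f3 RB.sc).and (n4.and
    (n5.and (n6.and (m0.and (n7.and (m4.and inf)))))))))))))))))).congr fun S => ?_
  constructor
  · rintro ⟨k1, k2, k3, k4, k5, k6, k7, k8, k9, k10, k11, k12, k13, k14, k15, k16, k17, k18,
      k19⟩
    exact ⟨k1, k2, k3, k4, k5, k6, k7, k8, k9, k10, k11, k12, k13, k14, k15, k16, k17, k18, k19⟩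
  · rintro ⟨k1, k2, k3, k4, k5, k6, k7, k8, k9, k10, k11, k12, k13, k14, k15, k16, k17, k18,
      k19⟩
    exact ⟨k1, k2, k3, k4, k5, k6, k7, k8, k9, k10, k11, k12, k13, k14, k15, k16, k17, k18, k19⟩

/-! ### The spines -/

section spine

variable {S : LB.Structure ℕ}

/-- the elements of the spines -/
abbrev X (S : LB.Structure ℕ) : Type := {u : ℕ // ¬ D S u}

/-- the successor -/
noncomputable def nx (h : W0 S) (x : X S) : X S :=
  ⟨(h.n2 x.1 x.2).choose, (h.n1 _ _ (h.n2 x.1 x.2).choose_spec).2⟩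

theorem sc_iff (h : W0 S) (x : X S) (y : ℕ) : bin RB.sc S x y ↔ (nx h x : ℕ) = y := by
  have h1 : bin RB.sc S x (nx h x) := (h.n2 x.1 x.2).choose_spec
  constructor
  · exact fun h2 => h.n3 _ _ _ h1 h2
  · rintro rfl
    exact h1

theorem ch_iff (h : W0 S) (n : ℕ) (x : X S) (y : ℕ) :
    ch S n x y ↔ ((nx h)^[n] x : ℕ) = y := by
  induction n generalizing y with
  | zero => exact Iff.rfl
  | succ n ih =>
    rw [Function.iterate_succ_apply']
    constructor
    · rintro ⟨z, h1, h2⟩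
      rw [ih] at h1
      subst h1
      exact (sc_iff h _ _).1 h2
    · intro h1
      exact ⟨_, (ih _).2 rfl, (sc_iff h _ _).2 h1⟩

theorem injMap (h : W0 S) : InjMap (nx h) where
  inj := fun x y hxy => Subtype.ext (h.n4 _ _ _ ((sc_iff h x _).2 rfl)
    ((sc_iff h y _).2 (congrArg Subtype.val hxy.symm)))
  ap := fun n x hx => h.n7 n x ((ch_iff h (n + 1) x x).2 (congrArg Subtype.val hx))

theorem ch_nD (h : W0 S) {n : ℕ} {x y : ℕ} (hc : ch S n x y) (hy : ¬ D S y) : ¬ D S x := by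
  induction n generalizing y with
  | zero =>
    have : x = y := hc
    rw [this]
    exact hy
  | succ n ih =>
    obtain ⟨z, h1, h2⟩ := hc
    exact ih h1 (h.n1 _ _ h2).1

/-- the marks on the components without start -/
def JM (S : LB.Structure ℕ) (u : ℕ) : Prop := M S u ∧ ∀ n c, C S c → ¬ ch S n c u

/-- elements of the same component -/
def sm (S : LB.Structure ℕ) (x y : ℕ) : Prop := ∃ m n z, ch S m x z ∧ ch S n y z

/-- the least elements of the components without start and marks -/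
def R0 (S : LB.Structure ℕ) (u : ℕ) : Prop :=
  ¬ D S u ∧ ∀ y, sm S u y → ¬ M S y ∧ ¬ C S y ∧ u ≤ y

theorem sm_of_off (h : W0 S) {z : ℤ} {x y : X S} (hxy : Off (nx h) z x y) : sm S x y := by
  obtain ⟨m, n, h1, -⟩ := hxy
  exact ⟨n, m, _, (ch_iff h n x _).2 rfl, (ch_iff h m y _).2 (congrArg Subtype.val h1)⟩

theorem off_of_sm (h : W0 S) {x : X S} {y : ℕ} (hxy : sm S x y) :
    ∃ hy : ¬ D S y, ∃ z, Off (nx h) z x ⟨y, hy⟩ := by
  obtain ⟨m, n, z, h1, h2⟩ := hxy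
  rw [ch_iff h] at h1
  have hy : ¬ D S y := by
    refine ch_nD h h2 ?_
    rw [← h1]
    exact ((nx h)^[m] x).2
  refine ⟨hy, (m : ℤ) - n, n, m, ?_, rfl⟩
  have h3 : ((nx h)^[n] ⟨y, hy⟩ : ℕ) = z := (ch_iff h n ⟨y, hy⟩ z).1 h2
  exact Subtype.ext (h3.trans h1.symm)

theorem nC_start (h : W0 S) {b : X S} (hb : C S b) (y : X S) : nx h y ≠ b := by
  intro hy
  exact h.n5 y b hb ((sc_iff h y b).2 (congrArg Subtype.val hy))

theorem start (h : W0 S) {b x : X S} (hb : C S b) {z : ℤ} (hx : Off (nx h) z b x) :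
    ∃ n : ℕ, z = n ∧ (nx h)^[n] b = x := (injMap h).start (nC_start h hb) hx

/-- the bases of the components -/
def Bs (S : LB.Structure ℕ) (u : ℕ) : Prop := C S u ∨ JM S u ∨ R0 S u

theorem sm_self (x : ℕ) : sm S x x := ⟨0, 0, x, rfl, rfl⟩

theorem C_nJM {u : ℕ} (h1 : C S u) (h2 : JM S u) : False := h2.2 0 u h1 rfl

theorem C_nR0 {u : ℕ} (h1 : C S u) (h2 : R0 S u) : False := (h2.2 u (sm_self u)).2.1 h1

theorem JM_nR0 {u : ℕ} (h1 : JM S u) (h2 : R0 S u) : False := (h2.2 u (sm_self u)).1 h1.1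

theorem nC_comp (h : W0 S) {b x : X S} (hb : JM S b ∨ R0 S b) {z : ℤ}
    (hx : Off (nx h) z b x) : ¬ C S x := by
  intro hC
  rcases hb with hb | hb
  · obtain ⟨n, -, hn⟩ := start h hC hx.symm
    exact hb.2 n x hC ((ch_iff h n x b).2 (congrArg Subtype.val hn))
  · exact (hb.2 x (sm_of_off h hx)).2.1 hC

theorem cover (h : W0 S) (x : X S) : ∃ (b : X S) (z : ℤ), Bs S b ∧ Off (nx h) z b x := by
  classical
  by_cases hC : ∃ (c : X S) (z : ℤ), C S c ∧ Off (nx h) z c x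
  · obtain ⟨c, z, h1, h2⟩ := hC
    exact ⟨c, z, Or.inl h1, h2⟩
  by_cases hM : ∃ (y : X S) (z : ℤ), M S y ∧ Off (nx h) z y x
  · obtain ⟨y, z, h1, h2⟩ := hM
    refine ⟨y, z, Or.inr (Or.inl ⟨h1, fun n c hc hch => hC ?_⟩), h2⟩
    have h3 : (nx h)^[n] ⟨c, h.c1 c hc⟩ = y := Subtype.ext ((ch_iff h n ⟨c, h.c1 c hc⟩ y).1 hch)
    refine ⟨⟨c, h.c1 c hc⟩, (n : ℤ) + z, hc, Off.trans ?_ h2⟩
    rw [← h3]
    exact off_iter _ _ _
  · have hex : ∃ y, sm S x y := ⟨x, sm_self _⟩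
    obtain ⟨hy, z, hz⟩ := off_of_sm h (Nat.find_spec hex)
    refine ⟨⟨_, hy⟩, _, Or.inr (Or.inr ⟨hy, fun y hyy => ?_⟩), hz.symm⟩
    obtain ⟨hy', w, hw⟩ := off_of_sm h (x := ⟨_, hy⟩) hyy
    have h2 := hz.trans hw
    refine ⟨fun hm => hM ⟨_, _, hm, h2.symm⟩, fun hc => hC ⟨_, _, hc, h2.symm⟩, ?_⟩
    exact Nat.find_min' hex (sm_of_off h h2)

theorem bs_uniq (h : W0 S) {b c : X S} {z : ℤ} (hb : Bs S b) (hc : Bs S c)
    (ho : Off (nx h) z b c) : b = c := by
  rcases hb with hb | hb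
  · obtain ⟨n, -, hn⟩ := start h hb ho
    rcases hc with hc | hc
    · cases n with
      | zero => exact hn
      | succ n =>
        rw [Function.iterate_succ_apply'] at hn
        exact absurd hn (nC_start h hc _)
    · exact absurd hb (nC_comp h hc ho.symm)
  · rcases hc with hc | hc
    · exact absurd hc (nC_comp h hb ho)
    · rcases hb with hb | hb
      · rcases hc with hc | hc
        · have key : ∀ {x y : X S} (n : ℕ), JM S x → M S y → (nx h)^[n] x = y → x = y := by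
            intro x y n hx hy hn
            cases n with
            | zero => exact hn
            | succ n =>
              obtain ⟨e, he, i, hi⟩ := h.m4 n x y ((ch_iff h _ x y).2
                (congrArg Subtype.val hn)) hx.1 hy
              exact absurd hi (hx.2 _ e he)
          rcases (injMap h).off_cases ho with ⟨n, -, hn⟩ | ⟨n, -, hn⟩
          · exact key n hb hc.1 hn
          · exact (key n hc hb.1 hn).symm
        · exact absurd hb.1 (hc.2 b (sm_of_off h ho.symm)).1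
      · rcases hc with hc | hc
        · exact absurd hc.1 (hb.2 c (sm_of_off h ho)).1
        · exact Subtype.ext (le_antisymm (hb.2 c (sm_of_off h ho)).2.2
            (hc.2 b (sm_of_off h ho.symm)).2.2)

theorem ex_C (h : W0 S) {b : X S} (hb : C S b) (z : ℤ) :
    (∃ x, Off (nx h) z b x) ↔ 0 ≤ z := by
  constructor
  · rintro ⟨x, hx⟩
    obtain ⟨n, rfl, -⟩ := start h hb hx
    exact Int.natCast_nonneg n
  · intro hz
    obtain ⟨n, rfl⟩ := Int.eq_ofNat_of_zero_le hz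
    exact ⟨_, off_iter _ n b⟩

theorem ex_J (h : W0 S) {b : X S} (hb : JM S b ∨ R0 S b) (z : ℤ) :
    ∃ x, Off (nx h) z b x := by
  refine off_exists (fun z x hx => ?_) z
  obtain ⟨y, hy⟩ := h.n6 x x.2 (nC_comp h hb hx)
  refine ⟨⟨y, (h.n1 _ _ hy).1⟩, ?_⟩
  exact Subtype.ext ((sc_iff h ⟨y, (h.n1 _ _ hy).1⟩ x).1 hy)

end spine

end StB

end Pool.Agent.W889.FO
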