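import Pool.Agent.W889.FO.StB

set_option autoImplicit false

/-! From languages with unary and binary relations to a finite language: the interpretation. -/

namespace Pool.Agent.W889.FO

open FirstOrder FirstOrder.Language
open Pool.Agent.W889.VC (BP)
open StA (FD.all1 FD.ex1)

namespace StB

variable {L : FirstOrder.Language.{0, 0}}

/-- a language with unary and binary relations only, and an enumeration of the relations -/
structure Bin (L : FirstOrder.Language.{0, 0}) where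
  ar : ∀ n, L.Relations n → n = 1 ∨ n = 2
  p : (Σ n, L.Relations n) → ℕ
  inj : Function.Injective p

/-- the first coordinate -/
def fi {n : ℕ} (hn : n = 1 ∨ n = 2) : Fin n := ⟨0, by omega⟩
/-- the last coordinate -/
def la {n : ℕ} (hn : n = 1 ∨ n = 2) : Fin n := ⟨n - 1, by omega⟩

theorem exists_v {A : Type} {n : ℕ} (hn : n = 1 ∨ n = 2) (a b : A) (hab : n = 1 → a = b) :
    ∃ v : Fin n → A, v (fi hn) = a ∧ v (la hn) = b := by
  refine ⟨fun i => if i = fi hn then a else b, if_pos rfl, ?_⟩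
  rcases hn with rfl | rfl
  · have := hab rfl
    subst this
    simp
  · have : (la (Or.inr rfl) : Fin 2) ≠ fi (Or.inr rfl) := by decide
    exact if_neg this

theorem ext_v {A : Type} {n : ℕ} (hn : n = 1 ∨ n = 2) (v w : Fin n → A)
    (h1 : v (fi hn) = w (fi hn)) (h2 : v (la hn) = w (la hn)) : v = w := by
  funext i
  rcases hn with rfl | rfl
  · have : i = fi (Or.inl rfl) := Subsingleton.elim _ _
    rw [this]
    exact h1
  · have : i = fi (Or.inr rfl) ∨ i = la (Or.inr rfl) := by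
      revert i
      decide
    rcases this with rfl | rfl
    · exact h1
    · exact h2

variable (B : Bin L)

/-- the axioms -/
structure W (S : LB.Structure ℕ) : Prop where
  w0 : W0 S
  m1 : ∀ n : ℕ, (∀ R, 2 ^ B.p R ≠ n) → ∀ c x, C S c → ch S n c x → ¬ M S x
  m2 : ∀ R : (Σ n, L.Relations n), R.1 = 1 → ∀ c x a b, bin RB.fs S c a → bin RB.sn S c b →
    ch S (2 ^ B.p R) c x → M S x → a = b

theorem ax_W : Ax (W B) := by
  have h1 : Ax (fun S => ∀ n : ℕ, (∀ R, 2 ^ B.p R ≠ n) → ∀ c x, C S c → ch S n c x →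
      ¬ M S x) := by
    refine Ax.all fun n => ?_
    by_cases hn : ∀ R, 2 ^ B.p R ≠ n
    · refine (ax2 (P := fun S c x => C S c → ch S n c x → ¬ M S x)
        ((fd_C _).imp ((fd_ch _ _ _).imp (fd_M _).not))).congr fun S => ?_
      exact ⟨fun h _ => h, fun h => h hn⟩
    · exact (Ax.of (P := fun _ => True) (FD.const True)).congr fun S =>
        ⟨fun _ h => absurd h hn, fun _ => trivial⟩
  have h2 : Ax (fun S => ∀ R : (Σ n, L.Relations n), R.1 = 1 → ∀ c x a b,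
      bin RB.fs S c a → bin RB.sn S c b → ch S (2 ^ B.p R) c x → M S x → a = b) := by
    refine Ax.all fun R => ?_
    by_cases hn : R.1 = 1
    · refine (ax4 (P := fun S c x a b => bin RB.fs S c a → bin RB.sn S c b →
        ch S (2 ^ B.p R) c x → M S x → a = b)
        ((fd_bin _ _ _).imp ((fd_bin _ _ _).imp ((fd_ch _ _ _).imp ((fd_M _).imp
          (FD.eq _ _)))))).congr fun S => ?_
      exact ⟨fun h _ => h, fun h => h hn⟩
    · exact (Ax.of (P := fun _ => True) (FD.const True)).congr fun S =>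
        ⟨fun _ h => absurd h hn, fun _ => trivial⟩
  refine (ax_W0.and (h1.and h2)).congr fun S => ?_
  exact ⟨fun ⟨a, b, c⟩ => ⟨a, b, c⟩, fun ⟨a, b, c⟩ => ⟨a, b, c⟩⟩

/-- the interpreted relations -/
def rl {n : ℕ} (R : L.Relations n) (S : LB.Structure ℕ) (v : Fin n → ℕ) : Prop :=
  ∃ c x, bin RB.fs S c (v (fi (B.ar n R))) ∧ bin RB.sn S c (v (la (B.ar n R))) ∧
    ch S (2 ^ B.p ⟨n, R⟩) c x ∧ M S x

/-- the interpretation -/
def itp : Itp L LB where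
  W := W B
  axW := ax_W B
  dom := D
  rel := fun R S v => rl B R S v
  fdom := fd_D _
  frel := fun {n} R => FD.ex1 (P := fun S v c => ∃ x, bin RB.fs S c (v (fi (B.ar n R))) ∧
      bin RB.sn S c (v (la (B.ar n R))) ∧ ch S (2 ^ B.p ⟨n, R⟩) c x ∧ M S x) <|
    FD.ex1 (P := fun S w x => bin RB.fs S (w (Sum.inr ())) (w (Sum.inl (fi (B.ar n R)))) ∧
      bin RB.sn S (w (Sum.inr ())) (w (Sum.inl (la (B.ar n R)))) ∧
      ch S (2 ^ B.p ⟨n, R⟩) (w (Sum.inr ())) x ∧ M S x) <|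
    (fd_bin _ _ _).and ((fd_bin _ _ _).and ((fd_ch _ _ _).and (fd_M _)))
  inf := fun _ h => inf_of_card h.w0.inf

variable {B} {S S' : LB.Structure ℕ}

/-- marks are preserved -/
theorem mark (h : W B S) (h' : W B S') (π : {u // D S u} → {u // D S' u})
    (hπ : ∀ {n : ℕ} (R : L.Relations n) (u : Fin n → {u // D S u}),
      rl B R S (fun i => u i) → rl B R S' (fun i => π (u i)))
    {c c' n x x' : ℕ} {a b : {u // D S u}} (h1 : bin RB.fs S c a) (h2 : bin RB.sn S c b)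
    (h1' : bin RB.fs S' c' (π a)) (h2' : bin RB.sn S' c' (π b)) (hx : ch S n c x)
    (hx' : ch S' n c' x') (hM : M S x) : M S' x' := by
  by_cases hn : ∃ R, 2 ^ B.p R = n
  · obtain ⟨⟨m, R⟩, rfl⟩ := hn
    obtain ⟨v, rfl, rfl⟩ := exists_v (B.ar m R) a b (fun hm => Subtype.ext
      (h.m2 ⟨m, R⟩ hm c x a b h1 h2 hx hM))
    obtain ⟨c1, x1, k1, k2, k3, k4⟩ := hπ R v ⟨c, x, h1, h2, hx, hM⟩
    have e1 : c1 = c' := h'.w0.e2 _ _ _ _ k1 h1' k2 h2'
    subst e1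
    have hc : ¬ D S' c1 := h'.w0.c1 _ (h'.w0.f1 _ _ k1).1
    rw [ch_iff h'.w0 _ ⟨c1, hc⟩] at hx' k3
    have e2 : x1 = x' := k3.symm.trans hx'
    subst e2
    exact k4
  · push Not at hn
    exact absurd hM (h.m1 n hn c x (h.w0.f1 _ _ h1).1 hx)

theorem up (h : W B S) (h' : W B S') [L.IsRelational]
    (hi : SIso ((itp B).D S) ((itp B).D S')) (hc1 : cnt (JM S) = cnt (JM S'))
    (hc2 : cnt (R0 S) = cnt (R0 S')) : SIso S S' := by
  classical
  obtain ⟨π, hπ⟩ : ∃ π : {u // D S u} ≃ {u // D S' u},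
      ∀ {n : ℕ} (R : L.Relations n) (u : Fin n → {u // D S u}),
        rl B R S (fun i => u i) ↔ rl B R S' (fun i => π (u i)) :=
    ((itp B).D_iso_iff h h').1 hi
  obtain ⟨ρ⟩ := cnt_equiv hc1
  obtain ⟨τ⟩ := cnt_equiv hc2
  have hπ1 : ∀ {n : ℕ} (R : L.Relations n) (u : Fin n → {u // D S u}),
      rl B R S (fun i => u i) → rl B R S' (fun i => π (u i)) := fun R u => (hπ R u).1
  have hπ2 : ∀ {n : ℕ} (R : L.Relations n) (u : Fin n → {u // D S' u}),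
      rl B R S' (fun i => u i) → rl B R S (fun i => π.symm (u i)) := fun R u hu => by
    refine (hπ R fun i => π.symm (u i)).2 ?_
    have e : (fun i => (π (π.symm (u i)) : ℕ)) = fun i => (u i : ℕ) :=
      funext fun i => by rw [Equiv.apply_symm_apply]
    show rl B R S' (fun i => (π (π.symm (u i)) : ℕ))
    rw [e]
    exact hu
  -- the matching of the components
  let Mt : X S → X S' → Prop := fun b b' =>
    (∃ a1 a2, bin RB.fs S b a1 ∧ bin RB.sn S b a2 ∧ ∃ (h1 : D S a1) (h2 : D S a2),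
      bin RB.fs S' b' (π ⟨a1, h1⟩) ∧ bin RB.sn S' b' (π ⟨a2, h2⟩)) ∨
    (∃ hb : JM S b, (ρ ⟨b, hb⟩ : ℕ) = b') ∨ (∃ hb : R0 S b, (τ ⟨b, hb⟩ : ℕ) = b')
  have hB1 : ∀ b b', Mt b b' → Bs S b := by
    rintro b b' (⟨a1, a2, h1, _⟩ | ⟨hb, -⟩ | ⟨hb, -⟩)
    · exact Or.inl (h.w0.f1 _ _ h1).1
    · exact Or.inr (Or.inl hb)
    · exact Or.inr (Or.inr hb)
  have hB2 : ∀ b b', Mt b b' → Bs S' b' := by
    rintro b b' (⟨a1, a2, h1, h2, h3, h4, h5, h6⟩ | ⟨hb, h1⟩ | ⟨hb, h1⟩)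
    · exact Or.inl (h'.w0.f1 _ _ h5).1
    · refine Or.inr (Or.inl ?_)
      rw [← h1]
      exact (ρ ⟨b, hb⟩).2
    · refine Or.inr (Or.inr ?_)
      rw [← h1]
      exact (τ ⟨b, hb⟩).2
  have hE1 : ∀ b, Bs S b → ∃ hb : ¬ D S b, ∃ b', Mt ⟨b, hb⟩ b' := by
    rintro b (hb | hb | hb)
    · obtain ⟨a1, h1⟩ := h.w0.f2 b hb
      obtain ⟨a2, h2⟩ := h.w0.s2 b hb
      have d1 := (h.w0.f1 _ _ h1).2
      have d2 := (h.w0.s1 _ _ h2).2
      obtain ⟨c, h3, h4⟩ := h'.w0.e1 _ _ (π ⟨a1, d1⟩).2 (π ⟨a2, d2⟩).2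
      exact ⟨h.w0.c1 b hb, ⟨c, h'.w0.c1 c (h'.w0.f1 _ _ h3).1⟩,
        Or.inl ⟨a1, a2, h1, h2, d1, d2, h3, h4⟩⟩
    · exact ⟨h.w0.m0 b hb.1, ⟨_, h'.w0.m0 _ (ρ ⟨b, hb⟩).2.1⟩, Or.inr (Or.inl ⟨hb, rfl⟩)⟩
    · exact ⟨hb.1, ⟨_, (τ ⟨b, hb⟩).2.1⟩, Or.inr (Or.inr ⟨hb, rfl⟩)⟩
  have hE2 : ∀ b', Bs S' b' → ∃ hb : ¬ D S' b', ∃ b, Mt b ⟨b', hb⟩ := by
    rintro b (hb | hb | hb)
    · obtain ⟨a1, h1⟩ := h'.w0.f2 b hb
      obtain ⟨a2, h2⟩ := h'.w0.s2 b hb
      have d1 := (h'.w0.f1 _ _ h1).2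
      have d2 := (h'.w0.s1 _ _ h2).2
      obtain ⟨c, h3, h4⟩ := h.w0.e1 _ _ (π.symm ⟨a1, d1⟩).2 (π.symm ⟨a2, d2⟩).2
      refine ⟨h'.w0.c1 b hb, ⟨c, h.w0.c1 c (h.w0.f1 _ _ h3).1⟩,
        Or.inl ⟨_, _, h3, h4, (π.symm ⟨a1, d1⟩).2, (π.symm ⟨a2, d2⟩).2, ?_, ?_⟩⟩
      · rw [Subtype.coe_eta, Equiv.apply_symm_apply]
        exact h1
      · rw [Subtype.coe_eta, Equiv.apply_symm_apply]
        exact h2
    · refine ⟨h'.w0.m0 b hb.1, ⟨_, h.w0.m0 _ (ρ.symm ⟨b, hb⟩).2.1⟩,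
        Or.inr (Or.inl ⟨(ρ.symm ⟨b, hb⟩).2, ?_⟩)⟩
      rw [Subtype.coe_eta, Equiv.apply_symm_apply]
    · refine ⟨hb.1, ⟨_, (τ.symm ⟨b, hb⟩).2.1⟩, Or.inr (Or.inr ⟨(τ.symm ⟨b, hb⟩).2, ?_⟩)⟩
      rw [Subtype.coe_eta, Equiv.apply_symm_apply]
  have hU1 : ∀ b b' c', Mt b b' → Mt b c' → b' = c' := by
    rintro b b' c' (⟨a1, a2, h1, h2, d1, d2, h3, h4⟩ | ⟨hb, hb'⟩ | ⟨hb, hb'⟩)
      (⟨a3, a4, k1, k2, d3, d4, k3, k4⟩ | ⟨hc, hc'⟩ | ⟨hc, hc'⟩)
    · have e1 := h.w0.f3 _ _ _ h1 k1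
      have e2 := h.w0.s3 _ _ _ h2 k2
      subst e1
      subst e2
      exact Subtype.ext (h'.w0.e2 _ _ _ _ h3 k3 h4 k4)
    · exact (C_nJM (h.w0.f1 _ _ h1).1 hc).elim
    · exact (C_nR0 (h.w0.f1 _ _ h1).1 hc).elim
    · exact (C_nJM (h.w0.f1 _ _ k1).1 hb).elim
    · exact Subtype.ext (hb'.symm.trans hc')
    · exact (JM_nR0 hb hc).elim
    · exact (C_nR0 (h.w0.f1 _ _ k1).1 hb).elim
    · exact (JM_nR0 hc hb).elim
    · exact Subtype.ext (hb'.symm.trans hc')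
  have hρ : ∀ b (hb : JM S b), JM S' (ρ ⟨b, hb⟩ : ℕ) := fun b hb => (ρ ⟨b, hb⟩).2
  have hτ : ∀ b (hb : R0 S b), R0 S' (τ ⟨b, hb⟩ : ℕ) := fun b hb => (τ ⟨b, hb⟩).2
  have hU2 : ∀ b c b', Mt b b' → Mt c b' → b = c := by
    rintro b c b' (⟨a1, a2, h1, h2, d1, d2, h3, h4⟩ | ⟨hb, hb'⟩ | ⟨hb, hb'⟩)
      (⟨a3, a4, k1, k2, d3, d4, k3, k4⟩ | ⟨hc, hc'⟩ | ⟨hc, hc'⟩)
    · have e1 := congrArg Subtype.val (π.injective (Subtype.ext (h'.w0.f3 _ _ _ h3 k3)))
      have e2 := congrArg Subtype.val (π.injective (Subtype.ext (h'.w0.s3 _ _ _ h4 k4)))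
      simp only at e1 e2
      subst e1
      subst e2
      exact Subtype.ext (h.w0.e2 _ _ _ _ h1 k1 h2 k2)
    · exact (C_nJM (h'.w0.f1 _ _ h3).1 (hc' ▸ hρ _ hc)).elim
    · exact (C_nR0 (h'.w0.f1 _ _ h3).1 (hc' ▸ hτ _ hc)).elim
    · exact (C_nJM (h'.w0.f1 _ _ k3).1 (hb' ▸ hρ _ hb)).elim
    · have e := congrArg Subtype.val (ρ.injective (Subtype.ext (hb'.trans hc'.symm)))
      exact Subtype.ext e
    · exact (JM_nR0 (hb' ▸ hρ _ hb) (hc' ▸ hτ _ hc)).elim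
    · exact (C_nR0 (h'.w0.f1 _ _ k3).1 (hb' ▸ hτ _ hb)).elim
    · exact (JM_nR0 (hc' ▸ hρ _ hc) (hb' ▸ hτ _ hb)).elim
    · have e := congrArg Subtype.val (τ.injective (Subtype.ext (hb'.trans hc'.symm)))
      exact Subtype.ext e
  obtain ⟨σ, hσ1, hσ2⟩ := match_exists (injMap h.w0) (injMap h'.w0) Mt
    (fun x => by
      obtain ⟨b, z, hb, hz⟩ := cover h.w0 x
      obtain ⟨_, b', hb'⟩ := hE1 b hb
      exact ⟨b, b', z, hb', hz⟩)
    (fun x' => by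
      obtain ⟨b', z, hb', hz⟩ := cover h'.w0 x'
      obtain ⟨_, b, hb⟩ := hE2 b' hb'
      exact ⟨b, b', z, hb, hz⟩)
    (fun b b' c c' z hm hm' ho => by
      have e := bs_uniq h.w0 (hB1 _ _ hm) (hB1 _ _ hm') ho
      subst e
      exact ⟨rfl, hU1 _ _ _ hm hm'⟩)
    (fun b b' c c' z hm hm' ho => by
      have e := bs_uniq h'.w0 (hB2 _ _ hm) (hB2 _ _ hm') ho
      subst e
      exact ⟨hU2 _ _ _ hm hm', rfl⟩)
    (fun b b' z hm => by
      rcases hm with ⟨a1, a2, h1, h2, h3, h4, h5, h6⟩ | ⟨hb, h1⟩ | ⟨hb, h1⟩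
      · rw [ex_C h.w0 (h.w0.f1 _ _ h1).1, ex_C h'.w0 (h'.w0.f1 _ _ h5).1]
      · have hb2 : JM S' b' := h1 ▸ hρ _ hb
        exact ⟨fun _ => ex_J h'.w0 (Or.inl hb2) z, fun _ => ex_J h.w0 (Or.inl hb) z⟩
      · have hb2 : R0 S' b' := h1 ▸ hτ _ hb
        exact ⟨fun _ => ex_J h'.w0 (Or.inr hb2) z, fun _ => ex_J h.w0 (Or.inr hb) z⟩)
  have hMt : ∀ b b', Mt b b' → σ b = b' := fun b b' hm =>
    ((injMap h'.w0).uniq_x (hσ1 b b' 0 b hm (off_zero _ b)) (off_zero _ b'))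
  -- the bijection
  let F : Equiv.Perm ℕ := Equiv.subtypeCongr π σ
  have hF1 : ∀ u (hu : D S u), F u = π ⟨u, hu⟩ := by
    intro u hu
    simp [F, Equiv.subtypeCongr, hu]
  have hF2 : ∀ u (hu : ¬ D S u), F u = σ ⟨u, hu⟩ := by
    intro u hu
    simp [F, Equiv.subtypeCongr, hu]
  have hD : ∀ u, D S' (F u) ↔ D S u := by
    intro u
    by_cases hu : D S u
    · rw [hF1 u hu]
      exact ⟨fun _ => hu, fun _ => (π ⟨u, hu⟩).2⟩
    · rw [hF2 u hu]
      exact ⟨fun h => absurd h (σ ⟨u, hu⟩).2, fun h => absurd h hu⟩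
  have hfs : ∀ c a, bin RB.fs S c a → bin RB.fs S' (F c) (F a) := by
    intro c a hca
    have hc := (h.w0.f1 _ _ hca).1
    obtain ⟨hb, b', hm⟩ := hE1 c (Or.inl hc)
    have hm2 := hm
    rcases hm with ⟨a1, a2, h1, h2, h3, h4, h5, h6⟩ | ⟨hb, h1⟩ | ⟨hb, h1⟩
    · have e := h.w0.f3 _ _ _ h1 hca
      subst e
      rw [hF2 c hb, hMt _ _ hm2, hF1 a1 h3]
      exact h5
    · exact (C_nJM hc hb).elim
    · exact (C_nR0 hc hb).elim
  have hsn : ∀ c a, bin RB.sn S c a → bin RB.sn S' (F c) (F a) := by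
    intro c a hca
    have hc := (h.w0.s1 _ _ hca).1
    obtain ⟨hb, b', hm⟩ := hE1 c (Or.inl hc)
    have hm2 := hm
    rcases hm with ⟨a1, a2, h1, h2, h3, h4, h5, h6⟩ | ⟨hb, h1⟩ | ⟨hb, h1⟩
    · have e := h.w0.s3 _ _ _ h2 hca
      subst e
      rw [hF2 c hb, hMt _ _ hm2, hF1 a2 h4]
      exact h6
    · exact (C_nJM hc hb).elim
    · exact (C_nR0 hc hb).elim
  have hC : ∀ c, C S' (F c) ↔ C S c := by
    intro c
    constructor
    · intro hc
      have hnd : ¬ D S' (F c) := h'.w0.c1 _ hc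
      have hnd' : ¬ D S c := fun hd => hnd ((hD c).2 hd)
      obtain ⟨hb, b, hm⟩ := hE2 (F c) (Or.inl hc)
      have e := hMt _ _ hm
      have e2 : σ ⟨c, hnd'⟩ = ⟨F c, hb⟩ := Subtype.ext (hF2 c hnd').symm
      have e3 : b = ⟨c, hnd'⟩ := σ.injective (e.trans e2.symm)
      subst e3
      rcases hB1 _ _ hm with k | k | k
      · exact k
      · rcases hm with ⟨a1, a2, h1, _⟩ | ⟨hb, h1⟩ | ⟨hb, h1⟩
        · exact (h.w0.f1 _ _ h1).1
        · exact (C_nJM hc ((show (ρ ⟨c, hb⟩ : ℕ) = F c from h1) ▸ hρ _ hb)).elim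
        · exact (C_nR0 hc ((show (τ ⟨c, hb⟩ : ℕ) = F c from h1) ▸ hτ _ hb)).elim
      · rcases hm with ⟨a1, a2, h1, _⟩ | ⟨hb, h1⟩ | ⟨hb, h1⟩
        · exact (h.w0.f1 _ _ h1).1
        · exact (C_nJM hc ((show (ρ ⟨c, hb⟩ : ℕ) = F c from h1) ▸ hρ _ hb)).elim
        · exact (C_nR0 hc ((show (τ ⟨c, hb⟩ : ℕ) = F c from h1) ▸ hτ _ hb)).elim
    · intro hc
      obtain ⟨a, ha⟩ := h.w0.f2 c hc
      exact (h'.w0.f1 _ _ (hfs _ _ ha)).1
  have hfs' : ∀ c a, bin RB.fs S' (F c) (F a) ↔ bin RB.fs S c a := by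
    refine fun c a => ⟨fun hca => ?_, hfs c a⟩
    have hc := (hC c).1 (h'.w0.f1 _ _ hca).1
    obtain ⟨b, hb⟩ := h.w0.f2 c hc
    have := F.injective (h'.w0.f3 _ _ _ (hfs _ _ hb) hca)
    rw [← this]
    exact hb
  have hsn' : ∀ c a, bin RB.sn S' (F c) (F a) ↔ bin RB.sn S c a := by
    refine fun c a => ⟨fun hca => ?_, hsn c a⟩
    have hc := (hC c).1 (h'.w0.s1 _ _ hca).1
    obtain ⟨b, hb⟩ := h.w0.s2 c hc
    have := F.injective (h'.w0.s3 _ _ _ (hsn _ _ hb) hca)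
    rw [← this]
    exact hb
  have hsc : ∀ x y, bin RB.sc S' (F x) (F y) ↔ bin RB.sc S x y := by
    intro x y
    by_cases hx : D S x
    · exact ⟨fun k => absurd ((hD x).2 hx) (h'.w0.n1 _ _ k).1,
        fun k => absurd hx (h.w0.n1 _ _ k).1⟩
    · have k1 := sc_iff h.w0 ⟨x, hx⟩ y
      have k2 := sc_iff h'.w0 (σ ⟨x, hx⟩) (F y)
      rw [← hF2 x hx] at k2
      rw [k2, k1, ← hσ2]
      rw [← hF2 _ (nx h.w0 ⟨x, hx⟩).2]
      exact F.apply_eq_iff_eq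
  have hMk : ∀ x, M S' (F x) ↔ M S x := by
    intro x
    by_cases hx : D S x
    · exact ⟨fun k => absurd ((hD x).2 hx) (h'.w0.m0 _ k),
        fun k => absurd hx (h.w0.m0 _ k)⟩
    · rw [hF2 x hx]
      obtain ⟨b, z, hb, hz⟩ := cover h.w0 ⟨x, hx⟩
      obtain ⟨_, b', hm⟩ := hE1 b hb
      have hz' : Off (nx h'.w0) z b' (σ ⟨x, hx⟩) := hσ1 b b' z _ hm hz
      have hb' := hB2 _ _ hm
      rcases hm with ⟨a1, a2, h1, h2, h3, h4, h5, h6⟩ | ⟨hb1, h1⟩ | ⟨hb1, h1⟩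
      · obtain ⟨n, rfl, hn⟩ := start h.w0 (h.w0.f1 _ _ h1).1 hz
        obtain ⟨n', hn1, hn'⟩ := start h'.w0 (h'.w0.f1 _ _ h5).1 hz'
        have e : n = n' := by exact_mod_cast hn1
        subst e
        have c1 := (ch_iff h.w0 n b x).2 (congrArg Subtype.val hn)
        have c2 := (ch_iff h'.w0 n b' (σ ⟨x, hx⟩)).2 (congrArg Subtype.val hn')
        constructor
        · refine mark h' h π.symm hπ2 (a := π ⟨a1, h3⟩) (b := π ⟨a2, h4⟩) h5 h6 ?_ ?_ c2 c1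
          · rw [Equiv.symm_apply_apply]
            exact h1
          · rw [Equiv.symm_apply_apply]
            exact h2
        · exact mark h h' π hπ1 (a := ⟨a1, h3⟩) (b := ⟨a2, h4⟩) h1 h2 h5 h6 c1 c2
      · have hj' : JM S' b' := h1 ▸ hρ _ hb1
        -- a mark in the component is the base
        have key : ∀ {T : LB.Structure ℕ} (hT : W0 T) {b x : X T} {z : ℤ} (hb : JM T b)
            (ho : Off (nx hT) z b x), M T x → b = x := by
          intro T hT b x z hb ho hmx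
          refine bs_uniq hT (Or.inr (Or.inl hb)) (Or.inr (Or.inl ⟨hmx, fun n c hc hch => ?_⟩)) ho
          have h3 : (nx hT)^[n] ⟨c, hT.c1 c hc⟩ = x :=
            Subtype.ext ((ch_iff hT n ⟨c, hT.c1 c hc⟩ x).1 hch)
          have h4 : Off (nx hT) n ⟨c, hT.c1 c hc⟩ x := by
            rw [← h3]
            exact off_iter _ _ _
          exact nC_comp hT (Or.inl hb) (ho.trans h4.symm) hc
        constructor
        · intro k
          have e1 := key h'.w0 hj' hz' k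
          rw [← e1] at hz'
          have e2 := (injMap h'.w0).uniq_z hz' (off_zero _ _)
          subst e2
          have e3 := (injMap h.w0).uniq_x hz (off_zero _ _)
          have e4 : x = b := congrArg Subtype.val e3
          rw [e4]
          exact hb1.1
        · intro k
          have e1 := key h.w0 hb1 hz k
          rw [← e1] at hz
          have e2 := (injMap h.w0).uniq_z hz (off_zero _ _)
          subst e2
          have e3 := (injMap h'.w0).uniq_x hz' (off_zero _ _)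
          rw [e3]
          exact hj'.1
      · have hj' : R0 S' b' := h1 ▸ hτ _ hb1
        exact ⟨fun k => absurd k (hj'.2 _ (sm_of_off h'.w0 hz')).1,
          fun k => absurd k (hb1.2 _ (sm_of_off h.w0 hz)).1⟩
  have un : ∀ (Q : RB 1), (∀ u, @Structure.RelMap LB ℕ S' _ Q (fun _ => F u) ↔
      @Structure.RelMap LB ℕ S _ Q (fun _ => u)) → ∀ v : Fin 1 → ℕ,
      @Structure.RelMap LB ℕ S' _ Q (fun i => F (v i)) ↔ @Structure.RelMap LB ℕ S _ Q v := by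
    intro Q k v
    have := k (v 0)
    have e1 : (fun _ : Fin 1 => v 0) = v := funext fun i => by rw [Subsingleton.elim i 0]
    have e2 : (fun _ : Fin 1 => F (v 0)) = fun i => F (v i) :=
      funext fun i => by rw [Subsingleton.elim i 0]
    rw [e1, e2] at this
    exact this
  have bi : ∀ (Q : RB 2), (∀ a b, bin Q S' (F a) (F b) ↔ bin Q S a b) → ∀ v : Fin 2 → ℕ,
      @Structure.RelMap LB ℕ S' _ Q (fun i => F (v i)) ↔ @Structure.RelMap LB ℕ S _ Q v := by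
    intro Q k v
    have := k (v 0) (v 1)
    unfold bin at this
    have e1 : (fun m : Fin 2 => if m = 0 then v 0 else v 1) = v := by
      funext m
      fin_cases m <;> rfl
    have e2 : (fun m : Fin 2 => if m = 0 then F (v 0) else F (v 1)) = fun i => F (v i) := by
      funext m
      fin_cases m <;> rfl
    rw [e1, e2] at this
    exact this
  obtain ⟨f, -⟩ := siso_of (S := S) (S' := S') F (fun n Q v => by
    cases Q with
    | D => exact un RB.D hD v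
    | C => exact un RB.C hC v
    | M => exact un RB.M hMk v
    | fs => exact bi RB.fs hfs' v
    | sn => exact bi RB.sn hsn' v
    | sc => exact bi RB.sc hsc v)
  exact ⟨f⟩

end StB

end Pool.Agent.W889.FO
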