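import Pool.Agent.W889.FO.StB2

set_option autoImplicit false

/-! From languages with unary and binary relations to a finite language: conclusion. -/

namespace Pool.Agent.W889.FO

open FirstOrder FirstOrder.Language
open Pool.Agent.W889.VC (BP)

namespace StB

variable {L : FirstOrder.Language.{0, 0}} (B : Bin L)

section bp

variable {Y : Type} [MeasurableSpace Y] {f : Y → LB.Structure ℕ}

theorem bp_ch (hf : ∀ (n : ℕ) (R : LB.Relations n) (a : Fin n → ℕ),
    BP (fun y => @Structure.RelMap LB ℕ (f y) n R a)) (n x y : ℕ) :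
    BP (fun u => ch (f u) n x y) := by
  induction n generalizing y with
  | zero => exact BP.const (x = y)
  | succ n ih => exact BP.ex fun z => (ih z).and (hf 2 RB.sc _)

theorem bp_JM (hf : ∀ (n : ℕ) (R : LB.Relations n) (a : Fin n → ℕ),
    BP (fun y => @Structure.RelMap LB ℕ (f y) n R a)) (x : ℕ) :
    BP (fun u => JM (f u) x) :=
  (hf 1 RB.M _).and (BP.all fun n => BP.all fun c => (hf 1 RB.C _).imp (bp_ch hf n c x).not)

theorem bp_R0 (hf : ∀ (n : ℕ) (R : LB.Relations n) (a : Fin n → ℕ),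
    BP (fun y => @Structure.RelMap LB ℕ (f y) n R a)) (x : ℕ) :
    BP (fun u => R0 (f u) x) :=
  (BP.not (hf 1 RB.D _)).and (BP.all fun y => BP.imp
    (BP.ex fun m => BP.ex fun n => BP.ex fun z => (bp_ch hf m x z).and (bp_ch hf n y z))
    ((BP.not (hf 1 RB.M _)).and ((BP.not (hf 1 RB.C _)).and (BP.const _))))

end bp

theorem cntB [L.IsRelational] :
    Itp.Cnt (itp B) (Option ℕ × Option ℕ) (fun S => (cnt (JM S), cnt (R0 S))) where
  up := fun _ _ h h' hi hc => up h h' hi (congrArg Prod.fst hc) (congrArg Prod.snd hc)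
  bp := fun f hf _ c => by
    refine ((bp_cnt (P := fun y => JM (f y)) (bp_JM hf) c.1).and
      (bp_cnt (P := fun y => R0 (f y)) (bp_R0 hf) c.2)).congr fun y => ?_
    exact (Prod.ext_iff (x := (cnt (JM (f y)), cnt (R0 (f y)))) (y := c)).symm

/-- existence -/
theorem ex [L.IsRelational] (N : L.Structure ℕ) :
    ∃ S : LB.Structure ℕ, W B S ∧ SIso ((itp B).D S) N := by
  classical
  have : Infinite (ℕ ⊕ (ℕ × ℕ × ℕ)) := Sum.infinite_of_left
  obtain ⟨e⟩ : Nonempty (ℕ ≃ (ℕ ⊕ (ℕ × ℕ × ℕ))) := nonempty_equiv_of_countable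
  let mk : ℕ → ℕ → ℕ → Prop := fun a b n => ∃ (R : Σ n, L.Relations n) (v : Fin R.1 → ℕ),
    2 ^ B.p R = n ∧ @Structure.RelMap L ℕ N R.1 R.2 v ∧ v (fi (B.ar _ R.2)) = a ∧
      v (la (B.ar _ R.2)) = b
  let S : LB.Structure ℕ :=
    { funMap := fun {_} f => isEmptyElim f
      RelMap := fun {n} Q => match n, Q with
        | _, RB.D => fun v => ∃ x, e (v 0) = Sum.inl x
        | _, RB.C => fun v => ∃ a b, e (v 0) = Sum.inr (a, b, 0)
        | _, RB.M => fun v => ∃ a b n, e (v 0) = Sum.inr (a, b, n) ∧ mk a b n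
        | _, RB.fs => fun v => ∃ a b, e (v 0) = Sum.inr (a, b, 0) ∧ e (v 1) = Sum.inl a
        | _, RB.sn => fun v => ∃ a b, e (v 0) = Sum.inr (a, b, 0) ∧ e (v 1) = Sum.inl b
        | _, RB.sc => fun v => ∃ a b n, e (v 0) = Sum.inr (a, b, n) ∧
            e (v 1) = Sum.inr (a, b, n + 1) }
  have hD : ∀ u, D S u ↔ ∃ x, e u = Sum.inl x := fun u => Iff.rfl
  have hC : ∀ u, C S u ↔ ∃ a b, e u = Sum.inr (a, b, 0) := fun u => Iff.rfl
  have hM : ∀ u, M S u ↔ ∃ a b n, e u = Sum.inr (a, b, n) ∧ mk a b n := fun u => Iff.rfl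
  have hfs : ∀ c x, bin RB.fs S c x ↔ ∃ a b, e c = Sum.inr (a, b, 0) ∧ e x = Sum.inl a :=
    fun c x => Iff.rfl
  have hsn : ∀ c x, bin RB.sn S c x ↔ ∃ a b, e c = Sum.inr (a, b, 0) ∧ e x = Sum.inl b :=
    fun c x => Iff.rfl
  have hsc : ∀ x y, bin RB.sc S x y ↔ ∃ a b n, e x = Sum.inr (a, b, n) ∧
    e y = Sum.inr (a, b, n + 1) := fun x y => Iff.rfl
  have hch : ∀ n x y a b m, e x = Sum.inr (a, b, m) → (ch S n x y ↔
      e y = Sum.inr (a, b, m + n)) := by
    intro n x y a b m hx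
    induction n generalizing y with
    | zero =>
      show x = y ↔ _
      rw [← e.apply_eq_iff_eq, hx]
      exact eq_comm
    | succ n ih =>
      constructor
      · rintro ⟨z, h1, h2⟩
        rw [ih] at h1
        obtain ⟨a', b', n', h3, h4⟩ := (hsc z y).1 h2
        rw [h1] at h3
        simp only [Sum.inr.injEq, Prod.mk.injEq] at h3
        obtain ⟨rfl, rfl, rfl⟩ := h3
        rw [h4, Nat.add_assoc]
      · intro h1
        refine ⟨e.symm (Sum.inr (a, b, m + n)), (ih _).2 (by rw [Equiv.apply_symm_apply]),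
          (hsc _ _).2 ⟨a, b, m + n, by rw [Equiv.apply_symm_apply], ?_⟩⟩
        rw [h1, Nat.add_assoc]
  -- existence of elements
  have hin : ∀ a b n, ∃ u, e u = Sum.inr (a, b, n) := fun a b n =>
    ⟨e.symm (Sum.inr (a, b, n)), by rw [Equiv.apply_symm_apply]⟩
  have hil : ∀ a, ∃ u, e u = Sum.inl a := fun a =>
    ⟨e.symm (Sum.inl a), by rw [Equiv.apply_symm_apply]⟩
  have hcase : ∀ u, ¬ D S u → ∃ a b n, e u = Sum.inr (a, b, n) := by
    intro u hu
    rcases hx : e u with x | ⟨a, b, n⟩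
    · exact absurd ((hD u).2 ⟨x, hx⟩) hu
    · exact ⟨a, b, n, rfl⟩
  have hnD : ∀ u a b n, e u = Sum.inr (a, b, n) → ¬ D S u := by
    rintro u a b n h ⟨x, hx⟩
    have h1 : e u = Sum.inl x := hx
    rw [h] at h1
    exact absurd h1 (by simp)
  have hW0 : W0 S := by
    constructor
    · intro u hu hd
      obtain ⟨a, b, h⟩ := (hC u).1 hu
      exact hnD _ _ _ _ h hd
    · intro c x h
      obtain ⟨a, b, h1, h2⟩ := (hfs c x).1 h
      exact ⟨(hC c).2 ⟨a, b, h1⟩, (hD x).2 ⟨a, h2⟩⟩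
    · intro c h
      obtain ⟨a, b, h1⟩ := (hC c).1 h
      obtain ⟨u, hu⟩ := hil a
      exact ⟨u, (hfs _ _).2 ⟨a, b, h1, hu⟩⟩
    · intro c x x' h h'
      obtain ⟨a, b, h1, h2⟩ := (hfs c x).1 h
      obtain ⟨a', b', h3, h4⟩ := (hfs c x').1 h'
      rw [h1] at h3
      simp only [Sum.inr.injEq, Prod.mk.injEq] at h3
      obtain ⟨rfl, rfl, -⟩ := h3
      exact e.injective (h2.trans h4.symm)
    · intro c x h
      obtain ⟨a, b, h1, h2⟩ := (hsn c x).1 h
      exact ⟨(hC c).2 ⟨a, b, h1⟩, (hD x).2 ⟨b, h2⟩⟩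
    · intro c h
      obtain ⟨a, b, h1⟩ := (hC c).1 h
      obtain ⟨u, hu⟩ := hil b
      exact ⟨u, (hsn _ _).2 ⟨a, b, h1, hu⟩⟩
    · intro c x x' h h'
      obtain ⟨a, b, h1, h2⟩ := (hsn c x).1 h
      obtain ⟨a', b', h3, h4⟩ := (hsn c x').1 h'
      rw [h1] at h3
      simp only [Sum.inr.injEq, Prod.mk.injEq] at h3
      obtain ⟨rfl, rfl, -⟩ := h3
      exact e.injective (h2.trans h4.symm)
    · intro a b ha hb
      obtain ⟨x, hx⟩ := (hD a).1 ha
      obtain ⟨y, hy⟩ := (hD b).1 hb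
      obtain ⟨c, hc⟩ := hin x y 0
      exact ⟨c, (hfs _ _).2 ⟨x, y, hc, hx⟩, (hsn _ _).2 ⟨x, y, hc, hy⟩⟩
    · intro a b c c' h1 h2 h3 h4
      obtain ⟨x1, y1, k1, k2⟩ := (hfs _ _).1 h1
      obtain ⟨x2, y2, k3, k4⟩ := (hfs _ _).1 h2
      obtain ⟨x3, y3, k5, k6⟩ := (hsn _ _).1 h3
      obtain ⟨x4, y4, k7, k8⟩ := (hsn _ _).1 h4
      rw [k1] at k5
      rw [k3] at k7
      rw [k2] at k4
      rw [k6] at k8
      simp only [Sum.inr.injEq, Prod.mk.injEq] at k5 k7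
      simp only [Sum.inl.injEq] at k4 k8
      obtain ⟨rfl, rfl, -⟩ := k5
      obtain ⟨rfl, rfl, -⟩ := k7
      subst k4
      subst k8
      exact e.injective (k1.trans k3.symm)
    · intro x y h
      obtain ⟨a, b, n, h1, h2⟩ := (hsc _ _).1 h
      exact ⟨hnD _ _ _ _ h1, hnD _ _ _ _ h2⟩
    · intro x hx
      obtain ⟨a, b, n, h1⟩ := hcase x hx
      obtain ⟨y, hy⟩ := hin a b (n + 1)
      exact ⟨y, (hsc _ _).2 ⟨a, b, n, h1, hy⟩⟩
    · intro x y y' h h'
      obtain ⟨a, b, n, h1, h2⟩ := (hsc _ _).1 h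
      obtain ⟨a', b', n', h3, h4⟩ := (hsc _ _).1 h'
      rw [h1] at h3
      simp only [Sum.inr.injEq, Prod.mk.injEq] at h3
      obtain ⟨rfl, rfl, rfl⟩ := h3
      exact e.injective (h2.trans h4.symm)
    · intro x x' y h h'
      obtain ⟨a, b, n, h1, h2⟩ := (hsc _ _).1 h
      obtain ⟨a', b', n', h3, h4⟩ := (hsc _ _).1 h'
      rw [h2] at h4
      simp only [Sum.inr.injEq, Prod.mk.injEq, Nat.add_right_cancel_iff] at h4
      obtain ⟨rfl, rfl, rfl⟩ := h4
      exact e.injective (h1.trans h3.symm)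
    · intro x y hy h
      obtain ⟨a, b, h1⟩ := (hC y).1 hy
      obtain ⟨a', b', n', h3, h4⟩ := (hsc _ _).1 h
      rw [h1] at h4
      simp at h4
    · intro y hy hc
      obtain ⟨a, b, n, h1⟩ := hcase y hy
      cases n with
      | zero => exact absurd ((hC y).2 ⟨a, b, h1⟩) hc
      | succ n =>
        obtain ⟨x, hx⟩ := hin a b n
        exact ⟨x, (hsc _ _).2 ⟨a, b, n, hx, h1⟩⟩
    · intro u hu
      obtain ⟨a, b, n, h1, -⟩ := (hM u).1 hu
      exact hnD _ _ _ _ h1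
    · intro n x h
      have hx : ¬ D S x := by
        obtain ⟨z, -, h2⟩ := h
        obtain ⟨a, b, n, h3, h4⟩ := (hsc _ _).1 h2
        exact hnD _ _ _ _ h4
      obtain ⟨a, b, m, h1⟩ := hcase x hx
      rw [hch _ _ _ _ _ _ h1, h1] at h
      simp only [Sum.inr.injEq, Prod.mk.injEq] at h
      omega
    · intro n x y h hx hy
      obtain ⟨a, b, m, h1, R, v, hR, -, -, -⟩ := (hM x).1 hx
      obtain ⟨a', b', m', h2, R', v', hR', -, -, -⟩ := (hM y).1 hy
      rw [hch _ _ _ _ _ _ h1, h2] at h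
      simp only [Sum.inr.injEq, Prod.mk.injEq] at h
      obtain ⟨rfl, rfl, h3⟩ := h
      obtain ⟨c, hc⟩ := hin a' b' 0
      have hlt : B.p R < B.p R' := by
        rw [← Nat.pow_lt_pow_iff_right (a := 2) (by norm_num)]
        omega
      have hle : 2 ^ (B.p R + 1) ≤ 2 ^ B.p R' := Nat.pow_le_pow_right (by norm_num) hlt
      have hm : m < n + 2 := by
        rw [Nat.pow_succ] at hle
        omega
      refine ⟨c, (hC c).2 ⟨_, _, hc⟩, ⟨m, hm⟩, ?_⟩
      rw [hch _ _ _ _ _ _ hc, h1, Nat.zero_add]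
    · intro m
      refine ⟨fun i => e.symm (Sum.inl i), fun i j hij => ?_, fun i => ?_⟩
      · have := Sum.inl.inj (e.symm.injective hij)
        exact Fin.ext this
      · exact (hD _).2 ⟨i, by rw [Equiv.apply_symm_apply]⟩
  have hW : W B S := by
    refine ⟨hW0, ?_, ?_⟩
    · intro n hn c x hc hcx hx
      obtain ⟨a, b, h1⟩ := (hC c).1 hc
      rw [hch _ _ _ _ _ _ h1, Nat.zero_add] at hcx
      obtain ⟨a', b', m', h2, R', v', hR', -, -, -⟩ := (hM x).1 hx
      rw [hcx] at h2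
      simp only [Sum.inr.injEq, Prod.mk.injEq] at h2
      obtain ⟨rfl, rfl, rfl⟩ := h2
      exact hn R' hR'
    · intro R hR c x y z h1 h2 h3 h4
      obtain ⟨a, b, k1, k2⟩ := (hfs _ _).1 h1
      obtain ⟨a', b', k3, k4⟩ := (hsn _ _).1 h2
      rw [hch _ _ _ _ _ _ k1, Nat.zero_add] at h3
      obtain ⟨a'', b'', m', k5, R', v', hR', -, k6, k7⟩ := (hM x).1 h4
      rw [k1] at k3
      rw [h3] at k5
      simp only [Sum.inr.injEq, Prod.mk.injEq] at k3 k5
      obtain ⟨rfl, rfl, -⟩ := k3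
      obtain ⟨rfl, rfl, k8⟩ := k5
      have hRR : R = R' := B.inj (Nat.pow_right_injective le_rfl (k8.trans hR'.symm))
      subst hRR
      have e1 : fi (B.ar _ R.2) = la (B.ar _ R.2) := by
        apply Fin.ext
        show 0 = R.1 - 1
        omega
      rw [← e1, k6] at k7
      apply e.injective
      rw [k2, k4, k7]
  refine ⟨S, hW, ?_⟩
  obtain ⟨π, hπ⟩ := Pool.Agent.W889.SD.equiv_of_rel
    (fun (x : ℕ) (u : {u // D S u}) => e u = Sum.inl x)
    (fun x => ⟨⟨e.symm (Sum.inl x), (hD _).2 ⟨x, by rw [Equiv.apply_symm_apply]⟩⟩, by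
      simp⟩)
    (fun u => (hD _).1 u.2)
    (fun x u u' h h' => Subtype.ext (e.injective (h.trans h'.symm)))
    (fun x x' u h h' => Sum.inl.inj (h.symm.trans h'))
  refine (itp B).D_iso hW π fun {n} R u => ?_
  constructor
  · intro hR
    obtain ⟨c, hc⟩ := hin (u (fi (B.ar n R))) (u (la (B.ar n R))) 0
    obtain ⟨x, hx⟩ := hin (u (fi (B.ar n R))) (u (la (B.ar n R))) (2 ^ B.p ⟨n, R⟩)
    refine ⟨c, x, (hfs _ _).2 ⟨_, _, hc, hπ _⟩, (hsn _ _).2 ⟨_, _, hc, hπ _⟩, ?_,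
      (hM x).2 ⟨_, _, _, hx, ⟨n, R⟩, u, rfl, hR, rfl, rfl⟩⟩
    rw [hch _ _ _ _ _ _ hc, Nat.zero_add]
    exact hx
  · rintro ⟨c, x, h1, h2, h3, h4⟩
    obtain ⟨a, b, k1, k2⟩ := (hfs _ _).1 h1
    obtain ⟨a', b', k3, k4⟩ := (hsn _ _).1 h2
    rw [hch _ _ _ _ _ _ k1, Nat.zero_add] at h3
    obtain ⟨a'', b'', m', k5, R', v', hR', kR, k6, k7⟩ := (hM x).1 h4
    rw [k1] at k3
    rw [h3] at k5
    simp only [Sum.inr.injEq, Prod.mk.injEq] at k3 k5
    obtain ⟨rfl, rfl, -⟩ := k3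
    obtain ⟨rfl, rfl, k8⟩ := k5
    have hRR : (⟨n, R⟩ : Σ n, L.Relations n) = R' :=
      B.inj (Nat.pow_right_injective le_rfl (k8.trans hR'.symm))
    subst hRR
    have hu : u = v' := by
      refine ext_v (B.ar n R) u v' ?_ ?_
      · refine Eq.trans ?_ k6.symm
        exact Sum.inl.inj ((hπ _).symm.trans k2)
      · refine Eq.trans ?_ k7.symm
        exact Sum.inl.inj ((hπ _).symm.trans k4)
    rw [hu]
    exact kR

theorem countable_LB : Countable (Σ n, LB.Relations n) := by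
  refine Function.Surjective.countable (α := Fin 6) (f := fun i => match i with
    | 0 => ⟨_, RB.D⟩
    | 1 => ⟨_, RB.C⟩
    | 2 => ⟨_, RB.M⟩
    | 3 => ⟨_, RB.fs⟩
    | 4 => ⟨_, RB.sn⟩
    | 5 => ⟨_, RB.sc⟩) ?_
  rintro ⟨n, Q⟩
  cases Q with
  | D => exact ⟨0, rfl⟩
  | C => exact ⟨1, rfl⟩
  | M => exact ⟨2, rfl⟩
  | fs => exact ⟨3, rfl⟩
  | sn => exact ⟨4, rfl⟩
  | sc => exact ⟨5, rfl⟩

/-- the reduction -/
theorem reduce (B : Bin L) [L.IsRelational]
    (hV : ∀ T' : LB.Theory, Vaught LB T') (T : L.Theory) : Vaught L T := by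
  have : Countable (Σ n, L.Relations n) := B.inj.countable
  exact (itp B).transfer (cntB B) T (fun M _ => ex B M) fun T' _ => hV T'

end StB

/-- The reduction to the finite language. -/
theorem reduceAB (hV : ∀ T' : StB.LB.Theory, Vaught StB.LB T') (L : FirstOrder.Language.{0, 0})
    [L.IsRelational] [Countable (Σ n, L.Relations n)] (T : L.Theory) : Vaught L T := by
  refine StA.reduce L (fun T' => ?_) T
  have := StA.countable_LA (L := L)
  obtain ⟨p, hp⟩ := Countable.exists_injective_nat (Σ n, (StA.LA L).Relations n)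
  refine StB.reduce (L := StA.LA L) ⟨fun n Q => ?_, p, hp⟩ hV T'
  cases Q with
  | dm => exact Or.inl rfl
  | ur R => exact Or.inl rfl
  | pr R i => exact Or.inr rfl

end Pool.Agent.W889.FO
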