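import Pool.Agent.W889.FO.StB3

set_option autoImplicit false

/-! From finite languages with unary and binary relations to coloured graphs. -/

namespace Pool.Agent.W889.FO

open FirstOrder FirstOrder.Language
open Pool.Agent.W889.VC (BP)
open StA (FD.all1 FD.ex1)
open StB (Bin fi la exists_v ext_v)

/-- finite disjunctions -/
theorem FD.fin' {L : FirstOrder.Language.{0, 0}} {W : L.Structure ℕ → Prop} {α : Type}
    {ι : Type} [Finite ι] {P : ι → L.Structure ℕ → (α → ℕ) → Prop}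
    (h : ∀ i, FD W (P i)) : FD W (fun S v => ∃ i, P i S v) := by
  refine ((FD.fin fun i => (h i).not).not).congr fun S _ v => ?_
  push Not
  rfl

/-- universal closures -/
theorem Ax.ofn {L : FirstOrder.Language.{0, 0}} (n : ℕ) {P : L.Structure ℕ → (Fin n → ℕ) → Prop}
    (h : FD (fun _ => True) P) : Ax (fun S => ∀ v, P S v) :=
  Ax.of (FD.all (P := fun S _ v => P S v) (h.sub fun i => Sum.inr i))

namespace StC

/-- the relation symbols: colours and adjacency -/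
inductive RK (κ : Type) : ℕ → Type
  | col (c : κ) : RK κ 1
  | adj : RK κ 2

/-- the language of coloured graphs -/
def LK (κ : Type) : FirstOrder.Language.{0, 0} := ⟨fun _ => Empty, RK κ⟩

instance (κ : Type) : (LK κ).IsRelational := fun _ => inferInstanceAs (IsEmpty Empty)

variable {κ : Type}

/-- colours -/
def cl (S : (LK κ).Structure ℕ) (c : κ) (u : ℕ) : Prop :=
  @Structure.RelMap (LK κ) ℕ S _ (RK.col c) (fun _ => u)

/-- adjacency -/
def ad (S : (LK κ).Structure ℕ) (u v : ℕ) : Prop :=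
  @Structure.RelMap (LK κ) ℕ S _ RK.adj (fun j => if j = 0 then u else v)

/-- coloured graphs -/
structure Cg (S : (LK κ).Structure ℕ) : Prop where
  c1 : ∀ u, ∃ c, cl S c u
  c2 : ∀ c c' u, cl S c u → cl S c' u → c = c'
  sy : ∀ u v, ad S u v → ad S v u
  ir : ∀ u, ¬ ad S u u

section fd

variable {V : (LK κ).Structure ℕ → Prop} {α : Type}

theorem fd_cl (c : κ) (i : α) : FD V (fun S v => cl S c (v i)) :=
  FD.rel (W := V) (L := LK κ) (RK.col c) (fun _ => i)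

theorem fd_ad (i j : α) : FD V (fun S v => ad S (v i) (v j)) := by
  refine (FD.rel (W := V) (L := LK κ) RK.adj (fun m => if m = 0 then i else j)).congr
    fun S _ v => ?_
  have e : (fun m : Fin 2 => v (if m = 0 then i else j)) =
      fun m => if m = 0 then v i else v j := by
    funext m
    split <;> rfl
  show @Structure.RelMap (LK κ) ℕ S _ RK.adj (fun m => v (if m = 0 then i else j)) ↔ _
  rw [e]
  exact Iff.rfl

end fd

theorem ax_Cg [Finite κ] : Ax (Cg (κ := κ)) := by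
  have h1 : Ax (fun S : (LK κ).Structure ℕ => ∀ v : Fin 1 → ℕ, ∃ c, cl S c (v 0)) :=
    Ax.ofn 1 (FD.fin' fun c => fd_cl c _)
  have h2 : Ax (fun S : (LK κ).Structure ℕ => ∀ c c', ∀ v : Fin 1 → ℕ, cl S c (v 0) →
      cl S c' (v 0) → c = c') := Ax.all fun c => Ax.all fun c' =>
    Ax.ofn 1 ((fd_cl _ _).imp ((fd_cl _ _).imp (FD.const _)))
  have h3 : Ax (fun S : (LK κ).Structure ℕ => ∀ v : Fin 2 → ℕ, ad S (v 0) (v 1) →
      ad S (v 1) (v 0)) := Ax.ofn 2 ((fd_ad _ _).imp (fd_ad _ _))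
  have h4 : Ax (fun S : (LK κ).Structure ℕ => ∀ v : Fin 1 → ℕ, ¬ ad S (v 0) (v 0)) :=
    Ax.ofn 1 (fd_ad _ _).not
  refine (h1.and (h2.and (h3.and h4))).congr fun S => ?_
  constructor
  · rintro ⟨k1, k2, k3, k4⟩
    exact ⟨fun u => k1 fun _ => u, fun c c' u => k2 c c' fun _ => u, fun u v => k3 ![u, v],
      fun u => k4 fun _ => u⟩
  · rintro ⟨k1, k2, k3, k4⟩
    exact ⟨fun v => k1 _, fun c c' v => k2 c c' _, fun v => k3 _ _, fun v => k4 _⟩

variable {L : FirstOrder.Language.{0, 0}}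

/-- the colours -/
abbrev KC (L : FirstOrder.Language.{0, 0}) : Type := Option ((Σ n, L.Relations n) × Bool)

/-- adjacent colours -/
def Ok (c c' : KC L) : Prop :=
  (c = none ∧ c' ≠ none) ∨ (c ≠ none ∧ c' = none) ∨
    ∃ R s, c = some (R, s) ∧ c' = some (R, !s)

/-- the path of length three from `a` to `b` -/
structure Ed (S : (LK (KC L)).Structure ℕ) (R : Σ n, L.Relations n) (t t' a b : ℕ) : Prop where
  x1 : cl S (some (R, false)) t
  x2 : cl S (some (R, true)) t'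
  x3 : ad S t t'
  x4 : cl S none a
  x5 : cl S none b
  x6 : ad S t a
  x7 : ad S t' b

theorem fd_Ed {V : (LK (KC L)).Structure ℕ → Prop} {α : Type} (R : Σ n, L.Relations n)
    (i j k l : α) : FD V (fun S v => Ed S R (v i) (v j) (v k) (v l)) := by
  refine ((fd_cl (some (R, false)) i).and ((fd_cl (some (R, true)) j).and ((fd_ad i j).and
    ((fd_cl none k).and ((fd_cl none l).and ((fd_ad i k).and (fd_ad j l))))))).congr
    fun S _ v => ?_
  · exact ⟨fun ⟨a, b, c, d, e, f, g⟩ => ⟨a, b, c, d, e, f, g⟩,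
      fun ⟨a, b, c, d, e, f, g⟩ => ⟨a, b, c, d, e, f, g⟩⟩

/-- the axioms -/
structure W (S : (LK (KC L)).Structure ℕ) : Prop where
  g : Cg S
  ty : ∀ c c' u v, cl S c u → cl S c' v → ad S u v → Ok c c'
  n1 : ∀ R s t, cl S (some (R, s)) t → ∃ a, cl S none a ∧ ad S t a
  n2 : ∀ R s t a a', cl S (some (R, s)) t → cl S none a → cl S none a' → ad S t a → ad S t a' →
    a = a'
  n3 : ∀ R s t, cl S (some (R, s)) t → ∃ t', cl S (some (R, !s)) t' ∧ ad S t t'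
  n4 : ∀ R s t t' t'', cl S (some (R, s)) t → cl S (some (R, !s)) t' →
    cl S (some (R, !s)) t'' → ad S t t' → ad S t t'' → t' = t''
  n5 : ∀ R a b t t' u u', Ed S R t t' a b → Ed S R u u' a b → t = u
  n6 : ∀ R : (Σ n, L.Relations n), R.1 = 1 → ∀ t t' a b, Ed S R t t' a b → a = b
  inf : ∀ m : ℕ, ∃ X : Fin m → ℕ, Function.Injective X ∧ ∀ i, cl S none (X i)

theorem ax_W [Finite (Σ n, L.Relations n)] : Ax (W (L := L)) := by
  have ty : Ax (fun S : (LK (KC L)).Structure ℕ => ∀ c c', ∀ v : Fin 2 → ℕ, cl S c (v 0) →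
      cl S c' (v 1) → ad S (v 0) (v 1) → Ok c c') := Ax.all fun c => Ax.all fun c' =>
    Ax.ofn 2 ((fd_cl _ _).imp ((fd_cl _ _).imp ((fd_ad _ _).imp (FD.const _))))
  have n1 : Ax (fun S : (LK (KC L)).Structure ℕ => ∀ R s, ∀ v : Fin 1 → ℕ,
      cl S (some (R, s)) (v 0) → ∃ a, cl S none a ∧ ad S (v 0) a) :=
    Ax.all fun R => Ax.all fun s => Ax.ofn 1 ((fd_cl _ _).imp
      (FD.ex1 (P := fun S v a => cl S none a ∧ ad S (v 0) a) ((fd_cl _ _).and (fd_ad _ _))))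
  have n2 : Ax (fun S : (LK (KC L)).Structure ℕ => ∀ R s, ∀ v : Fin 3 → ℕ,
      cl S (some (R, s)) (v 0) → cl S none (v 1) → cl S none (v 2) → ad S (v 0) (v 1) →
      ad S (v 0) (v 2) → v 1 = v 2) :=
    Ax.all fun R => Ax.all fun s => Ax.ofn 3 ((fd_cl _ _).imp ((fd_cl _ _).imp ((fd_cl _ _).imp
      ((fd_ad _ _).imp ((fd_ad _ _).imp (FD.eq _ _))))))
  have n3 : Ax (fun S : (LK (KC L)).Structure ℕ => ∀ R s, ∀ v : Fin 1 → ℕ,
      cl S (some (R, s)) (v 0) → ∃ a, cl S (some (R, !s)) a ∧ ad S (v 0) a) :=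
    Ax.all fun R => Ax.all fun s => Ax.ofn 1 ((fd_cl _ _).imp
      (FD.ex1 (P := fun S v a => cl S (some (R, !s)) a ∧ ad S (v 0) a)
        ((fd_cl _ _).and (fd_ad _ _))))
  have n4 : Ax (fun S : (LK (KC L)).Structure ℕ => ∀ R s, ∀ v : Fin 3 → ℕ,
      cl S (some (R, s)) (v 0) → cl S (some (R, !s)) (v 1) → cl S (some (R, !s)) (v 2) →
      ad S (v 0) (v 1) → ad S (v 0) (v 2) → v 1 = v 2) :=
    Ax.all fun R => Ax.all fun s => Ax.ofn 3 ((fd_cl _ _).imp ((fd_cl _ _).imp ((fd_cl _ _).imp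
      ((fd_ad _ _).imp ((fd_ad _ _).imp (FD.eq _ _))))))
  have n5 : Ax (fun S : (LK (KC L)).Structure ℕ => ∀ R, ∀ v : Fin 6 → ℕ,
      Ed S R (v 2) (v 3) (v 0) (v 1) → Ed S R (v 4) (v 5) (v 0) (v 1) → v 2 = v 4) :=
    Ax.all fun R => Ax.ofn 6 ((fd_Ed _ _ _ _ _).imp ((fd_Ed _ _ _ _ _).imp (FD.eq _ _)))
  have n6 : Ax (fun S : (LK (KC L)).Structure ℕ => ∀ R : (Σ n, L.Relations n), R.1 = 1 →
      ∀ v : Fin 4 → ℕ, Ed S R (v 0) (v 1) (v 2) (v 3) → v 2 = v 3) := by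
    refine Ax.all fun R => ?_
    by_cases hn : R.1 = 1
    · refine (Ax.ofn 4 (P := fun S v => Ed S R (v 0) (v 1) (v 2) (v 3) → v 2 = v 3)
        ((fd_Ed _ _ _ _ _).imp (FD.eq _ _))).congr fun S => ?_
      exact ⟨fun h _ => h, fun h => h hn⟩
    · exact (Ax.of (P := fun _ => True) (FD.const True)).congr fun S =>
        ⟨fun _ h => absurd h hn, fun _ => trivial⟩
  have inf : Ax (fun S : (LK (KC L)).Structure ℕ => ∀ m : ℕ, ∃ X : Fin m → ℕ,
      Function.Injective X ∧ ∀ i, cl S none (X i)) := Ax.all fun m => Ax.of <|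
    FD.ex (P := fun S _ X => Function.Injective X ∧ ∀ i, cl S none (X i)) <|
    (FD.inj _).and (FD.fin fun _ => fd_cl _ _)
  refine (ax_Cg.and (ty.and (n1.and (n2.and (n3.and (n4.and (n5.and (n6.and inf)))))))).congr
    fun S => ?_
  constructor
  · rintro ⟨k1, k2, k3, k4, k5, k6, k7, k8, k9⟩
    exact ⟨k1, fun c c' u v => k2 c c' ![u, v], fun R s t => k3 R s fun _ => t,
      fun R s t a a' => k4 R s ![t, a, a'], fun R s t => k5 R s fun _ => t,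
      fun R s t a a' => k6 R s ![t, a, a'], fun R a b t t' u u' => k7 R ![a, b, t, t', u, u'],
      fun R hR t t' a b => k8 R hR ![t, t', a, b], k9⟩
  · rintro ⟨k1, k2, k3, k4, k5, k6, k7, k8, k9⟩
    exact ⟨k1, fun c c' v => k2 c c' _ _, fun R s v => k3 R s _, fun R s v => k4 R s _ _ _,
      fun R s v => k5 R s _, fun R s v => k6 R s _ _ _, fun R v => k7 R _ _ _ _ _ _,
      fun R hR v => k8 R hR _ _ _ _, k9⟩

variable (B : Bin L)

/-- the interpreted relations -/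
def rl {n : ℕ} (R : L.Relations n) (S : (LK (KC L)).Structure ℕ) (v : Fin n → ℕ) : Prop :=
  ∃ t t', Ed S ⟨n, R⟩ t t' (v (fi (B.ar n R))) (v (la (B.ar n R)))

/-- the interpretation -/
def itp [Finite (Σ n, L.Relations n)] : Itp L (LK (KC L)) where
  W := W
  axW := ax_W
  dom := fun S u => cl S none u
  rel := fun R S v => rl B R S v
  fdom := fd_cl _ _
  frel := fun {n} R => FD.ex1 (P := fun S v t => ∃ t',
      Ed S ⟨n, R⟩ t t' (v (fi (B.ar n R))) (v (la (B.ar n R)))) <|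
    FD.ex1 (P := fun S w t' => Ed S ⟨n, R⟩ (w (Sum.inr ())) t' (w (Sum.inl (fi (B.ar n R))))
      (w (Sum.inl (la (B.ar n R))))) <| fd_Ed _ _ _ _ _
  inf := fun _ h => inf_of_card h.inf

variable {S S' : (LK (KC L)).Structure ℕ}

/-- a bijection of the elements, as a relation -/
structure Pr (S S' : (LK (KC L)).Structure ℕ) (P : ℕ → ℕ → Prop) : Prop where
  tot : ∀ a, cl S none a → ∃ a', P a a'
  sub : ∀ a a', P a a' → cl S none a ∧ cl S' none a'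
  fn : ∀ a a' a'', P a a' → P a a'' → a' = a''
  rl : ∀ R : (Σ n, L.Relations n), ∀ a b a' b', P a a' → P b b' → (R.1 = 1 → a = b) →
    (∃ t t', Ed S R t t' a b) → ∃ t t', Ed S' R t t' a' b'

/-- the matching of the vertices -/
def Mt (S S' : (LK (KC L)).Structure ℕ) (P : ℕ → ℕ → Prop) (u u' : ℕ) : Prop :=
  P u u' ∨ (∃ R t2 t2' a b a' b', Ed S R u t2 a b ∧ Ed S' R u' t2' a' b' ∧ P a a' ∧ P b b') ∨
    (∃ R t1 t1' a b a' b', Ed S R t1 u a b ∧ Ed S' R t1' u' a' b' ∧ P a a' ∧ P b b')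

theorem Mt.swap {P : ℕ → ℕ → Prop} {u u' : ℕ} (h : Mt S S' P u u') :
    Mt S' S (fun x y => P y x) u' u := by
  rcases h with h | ⟨R, t2, t2', a, b, a', b', h1, h2, h3, h4⟩ |
    ⟨R, t2, t2', a, b, a', b', h1, h2, h3, h4⟩
  · exact Or.inl h
  · exact Or.inr (Or.inl ⟨R, t2', t2, a', b', a, b, h2, h1, h3, h4⟩)
  · exact Or.inr (Or.inr ⟨R, t2', t2, a', b', a, b, h2, h1, h3, h4⟩)

theorem W.cc (h : W S) {c c' : KC L} {u : ℕ} (h1 : cl S c u) (h2 : cl S c' u) (hne : c ≠ c') :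
    False := hne (h.g.c2 _ _ _ h1 h2)

theorem mt1 (h : W S) {P : ℕ → ℕ → Prop} (hP : Pr S S' P) (u : ℕ) : ∃ u', Mt S S' P u u' := by
  obtain ⟨c, hc⟩ := h.g.c1 u
  rcases c with _ | ⟨R, s⟩
  · obtain ⟨u', hu'⟩ := hP.tot u hc
    exact ⟨u', Or.inl hu'⟩
  · obtain ⟨t, ht, hut⟩ := h.n3 R s u hc
    obtain ⟨a, ha, hua⟩ := h.n1 R s u hc
    obtain ⟨b, hb, htb⟩ := h.n1 R (!s) t ht
    obtain ⟨a', ha'⟩ := hP.tot a ha
    obtain ⟨b', hb'⟩ := hP.tot b hb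
    cases s with
    | false =>
      have he : Ed S R u t a b := ⟨hc, ht, hut, ha, hb, hua, htb⟩
      obtain ⟨t1, t2, he'⟩ := hP.rl R a b a' b' ha' hb' (fun hR => h.n6 R hR _ _ _ _ he)
        ⟨u, t, he⟩
      exact ⟨t1, Or.inr (Or.inl ⟨R, t, t2, a, b, a', b', he, he', ha', hb'⟩)⟩
    | true =>
      have he : Ed S R t u b a := ⟨ht, hc, h.g.sy _ _ hut, hb, ha, htb, hua⟩
      obtain ⟨t1, t2, he'⟩ := hP.rl R b a b' a' hb' ha' (fun hR => h.n6 R hR _ _ _ _ he)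
        ⟨t, u, he⟩
      exact ⟨t2, Or.inr (Or.inr ⟨R, t, t1, b, a, b', a', he, he', hb', ha'⟩)⟩

theorem ed_fn (h : W S) {R : Σ n, L.Relations n} {t t1 t2 a a1 b b1 : ℕ}
    (h1 : Ed S R t t1 a b) (h2 : Ed S R t t2 a1 b1) : t1 = t2 ∧ a = a1 ∧ b = b1 := by
  have e1 : t1 = t2 := h.n4 R false t t1 t2 h1.x1 h1.x2 h2.x2 h1.x3 h2.x3
  subst e1
  exact ⟨rfl, h.n2 _ _ _ _ _ h1.x1 h1.x4 h2.x4 h1.x6 h2.x6,
    h.n2 _ _ _ _ _ h1.x2 h1.x5 h2.x5 h1.x7 h2.x7⟩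

theorem ed_fn' (h : W S) {R : Σ n, L.Relations n} {t t1 t2 a a1 b b1 : ℕ}
    (h1 : Ed S R t1 t a b) (h2 : Ed S R t2 t a1 b1) : t1 = t2 ∧ a = a1 ∧ b = b1 := by
  have e1 : t1 = t2 := h.n4 R true t t1 t2 h1.x2 h1.x1 h2.x1 (h.g.sy _ _ h1.x3)
    (h.g.sy _ _ h2.x3)
  subst e1
  exact ⟨rfl, h.n2 _ _ _ _ _ h1.x1 h1.x4 h2.x4 h1.x6 h2.x6,
    h.n2 _ _ _ _ _ h1.x2 h1.x5 h2.x5 h1.x7 h2.x7⟩

theorem ed_un (h : W S) {R : Σ n, L.Relations n} {t t1 u u1 a b : ℕ}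
    (h1 : Ed S R t t1 a b) (h2 : Ed S R u u1 a b) : t = u ∧ t1 = u1 := by
  have e1 : t = u := h.n5 _ _ _ _ _ _ _ h1 h2
  subst e1
  exact ⟨rfl, (ed_fn h h1 h2).1⟩

theorem mt3 (h : W S) (h' : W S') {P : ℕ → ℕ → Prop} (hP : Pr S S' P) {u u1 u2 : ℕ}
    (k1 : Mt S S' P u u1) (k2 : Mt S S' P u u2) : u1 = u2 := by
  rcases k1 with k1 | ⟨R, t2, t2', a, b, a', b', k1, k3, k5, k6⟩ |
    ⟨R, t2, t2', a, b, a', b', k1, k3, k5, k6⟩ <;>
  rcases k2 with k2 | ⟨R1, s2, s2', a1, b1, a1', b1', k2, k4, k7, k8⟩ |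
    ⟨R1, s2, s2', a1, b1, a1', b1', k2, k4, k7, k8⟩
  · exact hP.fn _ _ _ k1 k2
  · exact (h.cc (hP.sub _ _ k1).1 k2.x1 (by simp)).elim
  · exact (h.cc (hP.sub _ _ k1).1 k2.x2 (by simp)).elim
  · exact (h.cc (hP.sub _ _ k2).1 k1.x1 (by simp)).elim
  · have e : R = R1 := by
      have := h.g.c2 _ _ _ k1.x1 k2.x1
      simp only [Option.some.injEq, Prod.mk.injEq] at this
      exact this.1
    subst e
    obtain ⟨-, rfl, rfl⟩ := ed_fn h k1 k2
    have e1 := hP.fn _ _ _ k5 k7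
    have e2 := hP.fn _ _ _ k6 k8
    subst e1
    subst e2
    exact (ed_un h' k3 k4).1
  · exact (h.cc k1.x1 k2.x2 (by simp)).elim
  · exact (h.cc (hP.sub _ _ k2).1 k1.x2 (by simp)).elim
  · exact (h.cc k2.x1 k1.x2 (by simp)).elim
  · have e : R = R1 := by
      have := h.g.c2 _ _ _ k1.x2 k2.x2
      simp only [Option.some.injEq, Prod.mk.injEq] at this
      exact this.1
    subst e
    obtain ⟨-, rfl, rfl⟩ := ed_fn' h k1 k2
    have e1 := hP.fn _ _ _ k5 k7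
    have e2 := hP.fn _ _ _ k6 k8
    subst e1
    subst e2
    exact (ed_un h' k3 k4).2

theorem mt_col (h : W S) {P : ℕ → ℕ → Prop} (hP : Pr S S' P) {u u' : ℕ}
    (k : Mt S S' P u u') {c : KC L} (hc : cl S c u) : cl S' c u' := by
  rcases k with k | ⟨R, t2, t2', a, b, a', b', k1, k3, k5, k6⟩ |
    ⟨R, t2, t2', a, b, a', b', k1, k3, k5, k6⟩
  · rw [h.g.c2 _ _ _ hc (hP.sub _ _ k).1]
    exact (hP.sub _ _ k).2
  · rw [h.g.c2 _ _ _ hc k1.x1]
    exact k3.x1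
  · rw [h.g.c2 _ _ _ hc k1.x2]
    exact k3.x2

theorem mt_ad (h : W S) (h' : W S') {P : ℕ → ℕ → Prop} (hP : Pr S S' P) {u u' v v' : ℕ}
    (k1 : Mt S S' P u u') (k2 : Mt S S' P v v') (hu : ad S u v) : ad S' u' v' := by
  have key : ∀ {u u' v v' : ℕ}, P u u' → Mt S S' P v v' → ad S u v → ad S' u' v' := by
    intro u u' v v' k1 k2 hu
    have hcu := (hP.sub _ _ k1).1
    rcases k2 with k2 | ⟨R1, s2, s2', a1, b1, a1', b1', k2, k4, k7, k8⟩ |
      ⟨R1, s2, s2', a1, b1, a1', b1', k2, k4, k7, k8⟩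
    · have := h.ty _ _ _ _ hcu (hP.sub _ _ k2).1 hu
      unfold Ok at this
      simp at this
    · have e := h.n2 _ _ _ _ _ k2.x1 hcu k2.x4 (h.g.sy _ _ hu) k2.x6
      subst e
      have e2 := hP.fn _ _ _ k1 k7
      subst e2
      exact h'.g.sy _ _ k4.x6
    · have e := h.n2 _ _ _ _ _ k2.x2 hcu k2.x5 (h.g.sy _ _ hu) k2.x7
      subst e
      have e2 := hP.fn _ _ _ k1 k8
      subst e2
      exact h'.g.sy _ _ k4.x7
  by_cases hv : P v v'
  · exact h'.g.sy _ _ (key hv k1 (h.g.sy _ _ hu))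
  by_cases hu' : P u u'
  · exact key hu' k2 hu
  have hok : ∀ {c c' : KC L}, cl S c u → cl S c' v → c ≠ none → c' ≠ none →
      ∃ R s, c = some (R, s) ∧ c' = some (R, !s) := by
    intro c c' h1 h2 h3 h4
    rcases h.ty _ _ _ _ h1 h2 hu with ⟨h5, -⟩ | ⟨-, h5⟩ | h5
    · exact absurd h5 h3
    · exact absurd h5 h4
    · exact h5
  rcases k1 with k1 | ⟨R, t2, t2', a, b, a', b', k1, k3, k5, k6⟩ |
    ⟨R, t2, t2', a, b, a', b', k1, k3, k5, k6⟩
  · exact absurd k1 hu'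
  · rcases k2 with k2 | ⟨R1, s2, s2', a1, b1, a1', b1', k2, k4, k7, k8⟩ |
      ⟨R1, s2, s2', a1, b1, a1', b1', k2, k4, k7, k8⟩
    · exact absurd k2 hv
    · obtain ⟨R0, s0, e1, e2⟩ := hok k1.x1 k2.x1 (by simp) (by simp)
      simp only [Option.some.injEq, Prod.mk.injEq] at e1 e2
      obtain ⟨-, rfl⟩ := e1
      exact absurd e2.2 (by decide)
    · obtain ⟨R0, s0, e1, e2⟩ := hok k1.x1 k2.x2 (by simp) (by simp)
      simp only [Option.some.injEq, Prod.mk.injEq] at e1 e2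
      obtain ⟨rfl, rfl⟩ := e1
      obtain ⟨rfl, -⟩ := e2
      have e3 : t2 = v := h.n4 _ false _ _ _ k1.x1 k1.x2 k2.x2 k1.x3 hu
      subst e3
      obtain ⟨-, rfl, rfl⟩ := ed_fn' h k1 k2
      have e1 := hP.fn _ _ _ k5 k7
      have e2 := hP.fn _ _ _ k6 k8
      subst e1
      subst e2
      obtain ⟨rfl, rfl⟩ := ed_un h' k3 k4
      exact k3.x3
  · rcases k2 with k2 | ⟨R1, s2, s2', a1, b1, a1', b1', k2, k4, k7, k8⟩ |
      ⟨R1, s2, s2', a1, b1, a1', b1', k2, k4, k7, k8⟩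
    · exact absurd k2 hv
    · obtain ⟨R0, s0, e1, e2⟩ := hok k1.x2 k2.x1 (by simp) (by simp)
      simp only [Option.some.injEq, Prod.mk.injEq] at e1 e2
      obtain ⟨rfl, rfl⟩ := e1
      obtain ⟨rfl, -⟩ := e2
      have e3 : t2 = v := h.n4 _ true _ _ _ k1.x2 k1.x1 k2.x1 (h.g.sy _ _ k1.x3) hu
      subst e3
      obtain ⟨-, rfl, rfl⟩ := ed_fn h k1 k2
      have e1 := hP.fn _ _ _ k5 k7
      have e2 := hP.fn _ _ _ k6 k8
      subst e1
      subst e2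
      obtain ⟨rfl, rfl⟩ := ed_un h' k3 k4
      exact h'.g.sy _ _ k3.x3
    · obtain ⟨R0, s0, e1, e2⟩ := hok k1.x2 k2.x2 (by simp) (by simp)
      simp only [Option.some.injEq, Prod.mk.injEq] at e1 e2
      obtain ⟨-, rfl⟩ := e1
      exact absurd e2.2 (by decide)

end StC

end Pool.Agent.W889.FO
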