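import Pool.Agent.W889.FO.StC

set_option autoImplicit false

/-! From finite languages with unary and binary relations to coloured graphs: conclusion. -/

namespace Pool.Agent.W889.FO

open FirstOrder FirstOrder.Language
open Pool.Agent.W889.VC (BP)
open StA (FD.all1 FD.ex1)
open StB (Bin fi la exists_v ext_v)

namespace StC

/-- isomorphisms of coloured graphs -/
theorem siso_col {κ : Type} {S S' : (LK κ).Structure ℕ} (σ : Equiv.Perm ℕ)
    (h1 : ∀ c u, cl S' c (σ u) ↔ cl S c u) (h2 : ∀ u v, ad S' (σ u) (σ v) ↔ ad S u v) :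
    SIso S S' := by
  obtain ⟨f, -⟩ := siso_of (S := S) (S' := S') σ (fun n Q v => by
    cases Q with
    | col c =>
      have := h1 c (v 0)
      unfold cl at this
      have e1 : (fun _ : Fin 1 => v 0) = v := funext fun i => by rw [Subsingleton.elim i 0]
      have e2 : (fun _ : Fin 1 => σ (v 0)) = fun i => σ (v i) :=
        funext fun i => by rw [Subsingleton.elim i 0]
      rw [e1, e2] at this
      exact this
    | adj =>
      have := h2 (v 0) (v 1)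
      unfold ad at this
      have e1 : (fun m : Fin 2 => if m = 0 then v 0 else v 1) = v := by
        funext m
        fin_cases m <;> rfl
      have e2 : (fun m : Fin 2 => if m = 0 then σ (v 0) else σ (v 1)) = fun i => σ (v i) := by
        funext m
        fin_cases m <;> rfl
      rw [e1, e2] at this
      exact this)
  exact ⟨f⟩

variable {L : FirstOrder.Language.{0, 0}} (B : Bin L) {S S' : (LK (KC L)).Structure ℕ}

theorem up [Finite (Σ n, L.Relations n)] (h : W S) (h' : W S') [L.IsRelational]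
    (hi : SIso ((itp B).D S) ((itp B).D S')) : SIso S S' := by
  obtain ⟨π, hπ⟩ : ∃ π : {u // cl S none u} ≃ {u // cl S' none u},
      ∀ {n : ℕ} (R : L.Relations n) (u : Fin n → {u // cl S none u}),
        rl B R S (fun i => u i) ↔ rl B R S' (fun i => π (u i)) :=
    ((itp B).D_iso_iff h h').1 hi
  let P : ℕ → ℕ → Prop := fun a a' => ∃ ha : cl S none a, (π ⟨a, ha⟩ : ℕ) = a'
  have hP : Pr S S' P := by
    refine ⟨fun a ha => ⟨_, ha, rfl⟩, ?_, ?_, ?_⟩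
    · rintro a a' ⟨ha, rfl⟩
      exact ⟨ha, (π ⟨a, ha⟩).2⟩
    · rintro a a' a'' ⟨ha, rfl⟩ ⟨_, rfl⟩
      rfl
    · rintro ⟨n, R⟩ a b a' b' ⟨ha, rfl⟩ ⟨hb, rfl⟩ hn ⟨t, t', he⟩
      obtain ⟨v, hv1, hv2⟩ := exists_v (B.ar n R) (⟨a, ha⟩ : {u // cl S none u}) ⟨b, hb⟩
        (fun hm => Subtype.ext (hn hm))
      have h1 : rl B R S (fun i => v i) := by
        refine ⟨t, t', ?_⟩
        show Ed S ⟨n, R⟩ t t' (v (fi (B.ar n R)) : ℕ) (v (la (B.ar n R)) : ℕ)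
        rw [hv1, hv2]
        exact he
      obtain ⟨s, s', hs⟩ := (hπ R v).1 h1
      have hs' : Ed S' ⟨n, R⟩ s s' (π (v (fi (B.ar n R))) : ℕ) (π (v (la (B.ar n R))) : ℕ) := hs
      rw [hv1, hv2] at hs'
      exact ⟨s, s', hs'⟩
  have hP' : Pr S' S (fun x y => P y x) := by
    refine ⟨fun a ha => ⟨(π.symm ⟨a, ha⟩ : ℕ), (π.symm ⟨a, ha⟩).2, ?_⟩, ?_, ?_, ?_⟩
    · rw [Subtype.coe_eta, Equiv.apply_symm_apply]
    · rintro a a' ⟨ha, rfl⟩
      exact ⟨(π ⟨a', ha⟩).2, ha⟩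
    · rintro a a' a'' ⟨ha, h1⟩ ⟨ha', h2⟩
      have e := congrArg Subtype.val (π.injective (Subtype.ext (h1.trans h2.symm)))
      exact e
    · rintro ⟨n, R⟩ a b a' b' ⟨ha, h1⟩ ⟨hb, h2⟩ hn ⟨t, t', he⟩
      obtain ⟨v, hv1, hv2⟩ := exists_v (B.ar n R) (⟨a', ha⟩ : {u // cl S none u}) ⟨b', hb⟩
        (fun hm => by
          have := hn hm
          have e := congrArg Subtype.val (π.injective (Subtype.ext ((h1.trans this).trans
            h2.symm)))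
          exact Subtype.ext e)
      have h3 : rl B R S' (fun i => π (v i)) := by
        refine ⟨t, t', ?_⟩
        show Ed S' ⟨n, R⟩ t t' (π (v (fi (B.ar n R))) : ℕ) (π (v (la (B.ar n R))) : ℕ)
        rw [hv1, hv2, h1, h2]
        exact he
      obtain ⟨s, s', hs⟩ := (hπ R v).2 h3
      have hs' : Ed S ⟨n, R⟩ s s' (v (fi (B.ar n R)) : ℕ) (v (la (B.ar n R)) : ℕ) := hs
      rw [hv1, hv2] at hs'
      exact ⟨s, s', hs'⟩
  obtain ⟨σ, hσ⟩ := Pool.Agent.W889.SD.equiv_of_rel (Mt S S' P)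
    (mt1 h hP)
    (fun u' => by
      obtain ⟨u, hu⟩ := mt1 h' hP' u'
      exact ⟨u, hu.swap⟩)
    (fun u u1 u2 k1 k2 => mt3 h h' hP k1 k2)
    (fun u1 u2 u k1 k2 => mt3 h' h hP' k1.swap k2.swap)
  exact siso_col σ
    (fun c u => ⟨fun k => mt_col h' hP' (hσ u).swap k, fun k => mt_col h hP (hσ u) k⟩)
    (fun u v => ⟨fun k => mt_ad h' h hP' (hσ u).swap (hσ v).swap k,
      fun k => mt_ad h h' hP (hσ u) (hσ v) k⟩)

theorem cntC [Finite (Σ n, L.Relations n)] [L.IsRelational] :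
    Itp.Cnt (itp B) Unit (fun _ => ()) where
  up := fun _ _ h h' hi _ => up B h h' hi
  bp := fun _ _ _ _ => BP.const _

/-- existence -/
theorem ex [Finite (Σ n, L.Relations n)] [L.IsRelational] (N : L.Structure ℕ) :
    ∃ S : (LK (KC L)).Structure ℕ, W S ∧ SIso ((itp B).D S) N := by
  classical
  have : Infinite (ℕ ⊕ (Bool × (Σ R : (Σ n, L.Relations n),
    {v : Fin R.1 → ℕ // @Structure.RelMap L ℕ N R.1 R.2 v}))) := Sum.infinite_of_left
  obtain ⟨e⟩ : Nonempty (ℕ ≃ (ℕ ⊕ (Bool × (Σ R : (Σ n, L.Relations n),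
    {v : Fin R.1 → ℕ // @Structure.RelMap L ℕ N R.1 R.2 v})))) :=
    nonempty_equiv_of_countable
  let A : (ℕ ⊕ (Bool × (Σ R : (Σ n, L.Relations n),
    {v : Fin R.1 → ℕ // @Structure.RelMap L ℕ N R.1 R.2 v}))) →
    (ℕ ⊕ (Bool × (Σ R : (Σ n, L.Relations n),
    {v : Fin R.1 → ℕ // @Structure.RelMap L ℕ N R.1 R.2 v}))) → Prop := fun k k' =>
    (∃ x, k = Sum.inr (false, x) ∧ k' = Sum.inl (x.2.1 (fi (B.ar _ x.1.2)))) ∨
    (∃ x, k = Sum.inr (true, x) ∧ k' = Sum.inl (x.2.1 (la (B.ar _ x.1.2)))) ∨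
    (∃ x, k = Sum.inr (false, x) ∧ k' = Sum.inr (true, x))
  let S : (LK (KC L)).Structure ℕ :=
    { funMap := fun {_} f => isEmptyElim f
      RelMap := fun {n} Q => match n, Q with
        | _, RK.col none => fun v => ∃ x, e (v 0) = Sum.inl x
        | _, RK.col (some (R, s)) => fun v => ∃ w, e (v 0) = Sum.inr (s, ⟨R, w⟩)
        | _, RK.adj => fun v => A (e (v 0)) (e (v 1)) ∨ A (e (v 1)) (e (v 0)) }
  have hD : ∀ u, cl S none u ↔ ∃ x, e u = Sum.inl x := fun u => Iff.rfl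
  have hN : ∀ R s u, cl S (some (R, s)) u ↔ ∃ w, e u = Sum.inr (s, ⟨R, w⟩) :=
    fun R s u => Iff.rfl
  have hA : ∀ u v, ad S u v ↔ A (e u) (e v) ∨ A (e v) (e u) := fun u v => Iff.rfl
  -- adjacency of nodes
  have hA1 : ∀ u v s x y, e u = Sum.inr (s, x) → e v = Sum.inl y → (ad S u v ↔
      y = x.2.1 (if s then la (B.ar _ x.1.2) else fi (B.ar _ x.1.2))) := by
    intro u v s x y hu hv
    rw [hA, hu, hv]
    constructor
    · rintro ((⟨z, h1, h2⟩ | ⟨z, h1, h2⟩ | ⟨z, h1, h2⟩) | (⟨z, h1, h2⟩ | ⟨z, h1, h2⟩ | ⟨z, h1, h2⟩))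
      · simp only [Sum.inr.injEq, Prod.mk.injEq, Sum.inl.injEq] at h1 h2
        obtain ⟨rfl, rfl⟩ := h1
        simpa using h2
      · simp only [Sum.inr.injEq, Prod.mk.injEq, Sum.inl.injEq] at h1 h2
        obtain ⟨rfl, rfl⟩ := h1
        simpa using h2
      · exact absurd h2 (by simp)
      · exact absurd h1 (by simp)
      · exact absurd h1 (by simp)
      · exact absurd h1 (by simp)
    · intro h
      cases s with
      | false => exact Or.inl (Or.inl ⟨x, rfl, by rw [h]; simp⟩)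
      | true => exact Or.inl (Or.inr (Or.inl ⟨x, rfl, by rw [h]; simp⟩))
  have hA2 : ∀ u v s x t y, e u = Sum.inr (s, x) → e v = Sum.inr (t, y) → (ad S u v ↔
      x = y ∧ t = !s) := by
    intro u v s x t y hu hv
    rw [hA, hu, hv]
    constructor
    · rintro ((⟨z, h1, h2⟩ | ⟨z, h1, h2⟩ | ⟨z, h1, h2⟩) | (⟨z, h1, h2⟩ | ⟨z, h1, h2⟩ | ⟨z, h1, h2⟩))
      · exact absurd h2 (by simp)
      · exact absurd h2 (by simp)
      · simp only [Sum.inr.injEq, Prod.mk.injEq] at h1 h2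
        obtain ⟨rfl, rfl⟩ := h1
        obtain ⟨rfl, rfl⟩ := h2
        exact ⟨rfl, rfl⟩
      · exact absurd h2 (by simp)
      · exact absurd h2 (by simp)
      · simp only [Sum.inr.injEq, Prod.mk.injEq] at h1 h2
        obtain ⟨rfl, rfl⟩ := h1
        obtain ⟨rfl, rfl⟩ := h2
        exact ⟨rfl, rfl⟩
    · rintro ⟨rfl, rfl⟩
      cases s with
      | false => exact Or.inl (Or.inr (Or.inr ⟨x, rfl, rfl⟩))
      | true => exact Or.inr (Or.inr (Or.inr ⟨x, rfl, rfl⟩))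
  have hA3 : ∀ u v x y, e u = Sum.inl x → e v = Sum.inl y → ¬ ad S u v := by
    intro u v x y hu hv
    rw [hA, hu, hv]
    rintro ((⟨z, h1, h2⟩ | ⟨z, h1, h2⟩ | ⟨z, h1, h2⟩) | (⟨z, h1, h2⟩ | ⟨z, h1, h2⟩ | ⟨z, h1, h2⟩)) <;>
      simp at h1
  have hsy : ∀ u v, ad S u v → ad S v u := by
    intro u v h
    rw [hA] at h ⊢
    exact h.symm
  have hex : ∀ k, ∃ u, e u = k := fun k => ⟨e.symm k, by rw [Equiv.apply_symm_apply]⟩
  have hc2 : ∀ c c' u, cl S c u → cl S c' u → c = c' := by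
    rintro (_ | ⟨R, s⟩) (_ | ⟨R', s'⟩) u h1 h2
    · rfl
    · obtain ⟨x, hx⟩ := (hD u).1 h1
      obtain ⟨y, hy⟩ := (hN _ _ u).1 h2
      rw [hx] at hy
      exact absurd hy (by simp)
    · obtain ⟨x, hx⟩ := (hD u).1 h2
      obtain ⟨y, hy⟩ := (hN _ _ u).1 h1
      rw [hx] at hy
      exact absurd hy (by simp)
    · obtain ⟨x, hx⟩ := (hN _ _ u).1 h1
      obtain ⟨y, hy⟩ := (hN _ _ u).1 h2
      rw [hx] at hy
      simp only [Sum.inr.injEq, Prod.mk.injEq, Sigma.mk.injEq] at hy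
      rw [hy.1, hy.2.1]
  have hEd : ∀ R t t' a b, Ed S R t t' a b ↔ ∃ w, e t = Sum.inr (false, ⟨R, w⟩) ∧
      e t' = Sum.inr (true, ⟨R, w⟩) ∧ e a = Sum.inl (w.1 (fi (B.ar _ R.2))) ∧
      e b = Sum.inl (w.1 (la (B.ar _ R.2))) := by
    intro R t t' a b
    constructor
    · rintro ⟨h1, h2, h3, h4, h5, h6, h7⟩
      obtain ⟨w, hw⟩ := (hN _ _ _).1 h1
      obtain ⟨w', hw'⟩ := (hN _ _ _).1 h2
      obtain ⟨x, hx⟩ := (hD _).1 h4
      obtain ⟨y, hy⟩ := (hD _).1 h5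
      have e1 := ((hA2 _ _ _ _ _ _ hw hw').1 h3).1
      have e2 := (hA1 _ _ _ _ _ hw hx).1 h6
      have e3 := (hA1 _ _ _ _ _ hw' hy).1 h7
      rw [← e1] at hw' e3
      simp only [Bool.false_eq_true, if_false, if_true] at e2 e3
      exact ⟨w, hw, hw', by rw [hx, e2], by rw [hy, e3]⟩
    · rintro ⟨w, h1, h2, h3, h4⟩
      exact ⟨(hN _ _ _).2 ⟨w, h1⟩, (hN _ _ _).2 ⟨w, h2⟩, (hA2 _ _ _ _ _ _ h1 h2).2 ⟨rfl, rfl⟩,
        (hD _).2 ⟨_, h3⟩, (hD _).2 ⟨_, h4⟩, (hA1 _ _ _ _ _ h1 h3).2 (by simp),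
        (hA1 _ _ _ _ _ h2 h4).2 (by simp)⟩
  have hW : W S := by
    refine ⟨⟨?_, hc2, hsy, ?_⟩, ?_, ?_, ?_, ?_, ?_, ?_, ?_, ?_⟩
    · intro u
      rcases hu : e u with x | ⟨s, ⟨R, w⟩⟩
      · exact ⟨none, (hD u).2 ⟨x, hu⟩⟩
      · exact ⟨some (R, s), (hN _ _ u).2 ⟨w, hu⟩⟩
    · intro u
      rcases hu : e u with x | ⟨s, w⟩
      · exact hA3 _ _ _ _ hu hu
      · rw [hA2 _ _ _ _ _ _ hu hu]
        rintro ⟨-, h⟩
        cases s <;> exact absurd h (by decide)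
    · rintro (_ | ⟨R, s⟩) (_ | ⟨R', s'⟩) u v h1 h2 h3
      · obtain ⟨x, hx⟩ := (hD u).1 h1
        obtain ⟨y, hy⟩ := (hD v).1 h2
        exact absurd h3 (hA3 _ _ _ _ hx hy)
      · exact Or.inl ⟨rfl, by simp⟩
      · exact Or.inr (Or.inl ⟨by simp, rfl⟩)
      · obtain ⟨x, hx⟩ := (hN _ _ u).1 h1
        obtain ⟨y, hy⟩ := (hN _ _ v).1 h2
        obtain ⟨e1, rfl⟩ := (hA2 _ _ _ _ _ _ hx hy).1 h3
        rw [Sigma.mk.injEq] at e1
        obtain ⟨rfl, -⟩ := e1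
        exact Or.inr (Or.inr ⟨R, s, rfl, rfl⟩)
    · intro R s t h1
      obtain ⟨x, hx⟩ := (hN _ _ t).1 h1
      obtain ⟨a, ha⟩ := hex (Sum.inl (x.1 (if s then la (B.ar _ R.2) else fi (B.ar _ R.2))))
      exact ⟨a, (hD _).2 ⟨_, ha⟩, (hA1 _ _ _ _ _ hx ha).2 rfl⟩
    · intro R s t a a' h1 h2 h3 h4 h5
      obtain ⟨x, hx⟩ := (hN _ _ t).1 h1
      obtain ⟨y, hy⟩ := (hD _).1 h2
      obtain ⟨z, hz⟩ := (hD _).1 h3
      apply e.injective
      rw [hy, hz, (hA1 _ _ _ _ _ hx hy).1 h4, (hA1 _ _ _ _ _ hx hz).1 h5]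
    · intro R s t h1
      obtain ⟨x, hx⟩ := (hN _ _ t).1 h1
      obtain ⟨a, ha⟩ := hex (Sum.inr (!s, ⟨R, x⟩))
      exact ⟨a, (hN _ _ _).2 ⟨_, ha⟩, (hA2 _ _ _ _ _ _ hx ha).2 ⟨rfl, rfl⟩⟩
    · intro R s t t' t'' h1 h2 h3 h4 h5
      obtain ⟨x, hx⟩ := (hN _ _ t).1 h1
      obtain ⟨y, hy⟩ := (hN _ _ _).1 h2
      obtain ⟨z, hz⟩ := (hN _ _ _).1 h3
      apply e.injective
      rw [hy, hz, ← ((hA2 _ _ _ _ _ _ hx hy).1 h4).1, ← ((hA2 _ _ _ _ _ _ hx hz).1 h5).1]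
    · intro R a b t t' u u' h1 h2
      obtain ⟨w, k1, k2, k3, k4⟩ := (hEd _ _ _ _ _).1 h1
      obtain ⟨w', k5, k6, k7, k8⟩ := (hEd _ _ _ _ _).1 h2
      have hww : w = w' := by
        apply Subtype.ext
        refine ext_v (B.ar _ R.2) _ _ ?_ ?_
        · rw [k3] at k7
          exact Sum.inl.inj k7
        · rw [k4] at k8
          exact Sum.inl.inj k8
      subst hww
      exact e.injective (k1.trans k5.symm)
    · intro R hR t t' a b h1
      obtain ⟨w, k1, k2, k3, k4⟩ := (hEd _ _ _ _ _).1 h1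
      have e1 : fi (B.ar _ R.2) = la (B.ar _ R.2) := by
        apply Fin.ext
        show 0 = R.1 - 1
        omega
      rw [← e1] at k4
      exact e.injective (k3.trans k4.symm)
    · intro m
      refine ⟨fun i => e.symm (Sum.inl i), fun i j hij => ?_, fun i => ?_⟩
      · have := Sum.inl.inj (e.symm.injective hij)
        exact Fin.ext this
      · exact (hD _).2 ⟨i, by rw [Equiv.apply_symm_apply]⟩
  refine ⟨S, hW, ?_⟩
  obtain ⟨π, hπ⟩ := Pool.Agent.W889.SD.equiv_of_rel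
    (fun (x : ℕ) (u : {u // cl S none u}) => e u = Sum.inl x)
    (fun x => ⟨⟨e.symm (Sum.inl x), (hD _).2 ⟨x, by rw [Equiv.apply_symm_apply]⟩⟩, by
      simp⟩)
    (fun u => (hD _).1 u.2)
    (fun x u u' h h' => Subtype.ext (e.injective (h.trans h'.symm)))
    (fun x x' u h h' => Sum.inl.inj (h.symm.trans h'))
  refine (itp B).D_iso hW π fun {n} R u => ?_
  constructor
  · intro hR
    obtain ⟨t, ht⟩ := hex (Sum.inr (false, ⟨⟨n, R⟩, ⟨u, hR⟩⟩))
    obtain ⟨t', ht'⟩ := hex (Sum.inr (true, ⟨⟨n, R⟩, ⟨u, hR⟩⟩))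
    exact ⟨t, t', (hEd _ _ _ _ _).2 ⟨⟨u, hR⟩, ht, ht', hπ _, hπ _⟩⟩
  · rintro ⟨t, t', h1⟩
    obtain ⟨w, k1, k2, k3, k4⟩ := (hEd _ _ _ _ _).1 h1
    have hu : u = w.1 := by
      refine ext_v (B.ar n R) u w.1 ?_ ?_
      · exact Sum.inl.inj ((hπ _).symm.trans k3)
      · exact Sum.inl.inj ((hπ _).symm.trans k4)
    rw [hu]
    exact w.2

include B in
/-- the reduction -/
theorem reduce [Finite (Σ n, L.Relations n)] [L.IsRelational]
    (hV : ∀ T' : (LK (KC L)).Theory, (∀ S : (LK (KC L)).Structure ℕ,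
      @Theory.Model (LK (KC L)) ℕ S T' → Cg S) → Vaught (LK (KC L)) T') (T : L.Theory) :
    Vaught L T := by
  have : Countable (Σ n, L.Relations n) := Finite.to_countable
  exact (itp B).transfer (cntC B) T (fun M _ => ex B M) fun T' hT' =>
    hV T' fun S hS => (hT' S hS).1.g

end StC

end Pool.Agent.W889.FO
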