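import Pool.Agent.W889.FO.StE

set_option autoImplicit false

/-! From graphs to subdivided graphs. -/

namespace Pool.Agent.W889.FO

open FirstOrder FirstOrder.Language
open Pool.Agent.W889.VC (BP)
open Pool.Agent.W889.SD (Big Pth Subd Adj')
open StA (FD.all1 FD.ex1)
open StE (LG gd fd_gd fd_big siso_gd)

/-- universal closures -/
theorem Ax.off {L : FirstOrder.Language.{0, 0}} {β : Type} [Finite β]
    {P : L.Structure ℕ → (β → ℕ) → Prop}
    (h : FD (fun _ => True) P) : Ax (fun S => ∀ v, P S v) :=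
  Ax.of (FD.all (P := fun S _ v => P S v) (h.sub fun i => Sum.inr i))

namespace StD

variable {k : ℕ}

theorem fd_pth {V : LG.Structure ℕ → Prop} {α : Type} (i : α) (p : Fin (k + 1) → α) (j : α) :
    FD V (fun S v => Pth k (gd S) (v i) (fun m => v (p m)) (v j)) := by
  have h : FD V (fun S v => Big (gd S) (v i) ∧ Big (gd S) (v j) ∧ v i ≠ v j ∧
      Function.Injective (fun m => v (p m)) ∧ (∀ m, ¬ Big (gd S) (v (p m))) ∧
      (∀ m : Fin (k + 1), (m : ℕ) = 0 → gd S (v i) (v (p m))) ∧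
      (∀ m n : Fin (k + 1), (n : ℕ) = m + 1 → gd S (v (p m)) (v (p n))) ∧
      ∀ m : Fin (k + 1), (m : ℕ) = k → gd S (v (p m)) (v j)) :=
    (fd_big _).and <| (fd_big _).and <| (FD.eq _ _).not.and <| (FD.inj _).and <|
    (FD.fin fun m => (fd_big _).not).and <|
    (FD.fin fun m => (FD.const _).imp (fd_gd _ _)).and <|
    (FD.fin fun m => FD.fin fun n => (FD.const _).imp (fd_gd _ _)).and <|
    FD.fin fun m => (FD.const _).imp (fd_gd _ _)
  refine h.congr fun S _ v => ?_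
  exact ⟨fun ⟨h1, h2, h3, h4, h5, h6, h7, h8⟩ => ⟨h1, h2, h3, h4, h5, h6, h7, h8⟩,
    fun ⟨h1, h2, h3, h4, h5, h6, h7, h8⟩ => ⟨h1, h2, h3, h4, h5, h6, h7, h8⟩⟩

/-- the axioms -/
structure W (k : ℕ) (S : LG.Structure ℕ) : Prop where
  sd : Subd k (gd S)
  inf : ∀ m : ℕ, ∃ X : Fin m → ℕ, Function.Injective X ∧ ∀ i, Big (gd S) (X i)

/-- variables for a path and its ends -/
abbrev Vr (k : ℕ) : Type := Fin (k + 1) ⊕ Fin 2

theorem ax_W (k : ℕ) : Ax (W k) := by
  have h1 : Ax (fun S : LG.Structure ℕ => ∀ v : Fin 1 → ℕ, ¬ gd S (v 0) (v 0)) :=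
    Ax.ofn 1 (fd_gd _ _).not
  have h2 : Ax (fun S : LG.Structure ℕ => ∀ v : Fin 2 → ℕ, gd S (v 0) (v 1) →
      gd S (v 1) (v 0)) := Ax.ofn 2 ((fd_gd _ _).imp (fd_gd _ _))
  have h3 : Ax (fun S : LG.Structure ℕ => ∀ v : Fin 2 → ℕ, Big (gd S) (v 0) →
      Big (gd S) (v 1) → ¬ gd S (v 0) (v 1)) :=
    Ax.ofn 2 ((fd_big _).imp ((fd_big _).imp (fd_gd _ _).not))
  have h4 : Ax (fun S : LG.Structure ℕ => ∀ v : Fin 1 → ℕ, ¬ Big (gd S) (v 0) →
      (∀ x, ¬ gd S (v 0) x) ∨ ∃ b : Vr k → ℕ, ∃ i,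
        Pth k (gd S) (b (Sum.inr 0)) (fun m => b (Sum.inl m)) (b (Sum.inr 1)) ∧
          b (Sum.inl i) = v 0) := Ax.ofn 1 <|
    (fd_big _).not.imp <| (FD.all1 (P := fun S v x => ¬ gd S (v 0) x) (fd_gd _ _).not).or <|
    FD.ex (P := fun S v (b : Vr k → ℕ) => ∃ i,
        Pth k (gd S) (b (Sum.inr 0)) (fun m => b (Sum.inl m)) (b (Sum.inr 1)) ∧
          b (Sum.inl i) = v 0) <| FD.fin' fun i => (fd_pth _ _ _).and (FD.eq _ _)
  have h5 : Ax (fun S : LG.Structure ℕ => ∀ v : Fin (k + 1) ⊕ Vr k → ℕ,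
      Pth k (gd S) (v (Sum.inr (Sum.inr 0))) (fun m => v (Sum.inl m))
        (v (Sum.inr (Sum.inr 1))) →
      Pth k (gd S) (v (Sum.inr (Sum.inr 0))) (fun m => v (Sum.inr (Sum.inl m)))
        (v (Sum.inr (Sum.inr 1))) → ∀ m, v (Sum.inl m) = v (Sum.inr (Sum.inl m))) :=
    Ax.off ((fd_pth _ _ _).imp ((fd_pth _ _ _).imp (FD.fin fun m => FD.eq _ _)))
  have h6 : Ax (fun S : LG.Structure ℕ => ∀ i j : Fin (k + 1), ∀ v : Vr k ⊕ Vr k → ℕ,
      Pth k (gd S) (v (Sum.inl (Sum.inr 0))) (fun m => v (Sum.inl (Sum.inl m)))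
        (v (Sum.inl (Sum.inr 1))) →
      Pth k (gd S) (v (Sum.inr (Sum.inr 0))) (fun m => v (Sum.inr (Sum.inl m)))
        (v (Sum.inr (Sum.inr 1))) →
      v (Sum.inl (Sum.inl i)) = v (Sum.inr (Sum.inl j)) →
      (v (Sum.inr (Sum.inr 0)) = v (Sum.inl (Sum.inr 0)) ∧
        v (Sum.inr (Sum.inr 1)) = v (Sum.inl (Sum.inr 1)) ∧ j = i) ∨
      (v (Sum.inr (Sum.inr 0)) = v (Sum.inl (Sum.inr 1)) ∧
        v (Sum.inr (Sum.inr 1)) = v (Sum.inl (Sum.inr 0)) ∧ (i : ℕ) + j = k)) :=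
    Ax.all fun i => Ax.all fun j => Ax.off <| (fd_pth _ _ _).imp <| (fd_pth _ _ _).imp <|
      (FD.eq _ _).imp <| ((FD.eq _ _).and ((FD.eq _ _).and (FD.const _))).or
        ((FD.eq _ _).and ((FD.eq _ _).and (FD.const _)))
  have h7 : Ax (fun S : LG.Structure ℕ => ∀ i : Fin (k + 1), ∀ v : Vr k ⊕ Unit → ℕ,
      Pth k (gd S) (v (Sum.inl (Sum.inr 0))) (fun m => v (Sum.inl (Sum.inl m)))
        (v (Sum.inl (Sum.inr 1))) → gd S (v (Sum.inl (Sum.inl i))) (v (Sum.inr ())) →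
      (v (Sum.inr ()) = v (Sum.inl (Sum.inr 0)) ∧ (i : ℕ) = 0) ∨
      (v (Sum.inr ()) = v (Sum.inl (Sum.inr 1)) ∧ (i : ℕ) = k) ∨
      ∃ j : Fin (k + 1), v (Sum.inr ()) = v (Sum.inl (Sum.inl j)) ∧
        ((j : ℕ) = i + 1 ∨ (i : ℕ) = j + 1)) :=
    Ax.all fun i => Ax.off <| (fd_pth _ _ _).imp <| (fd_gd _ _).imp <|
      ((FD.eq _ _).and (FD.const _)).or <| ((FD.eq _ _).and (FD.const _)).or <|
      FD.fin' fun j => (FD.eq _ _).and (FD.const _)
  have inf : Ax (fun S : LG.Structure ℕ => ∀ m : ℕ, ∃ X : Fin m → ℕ,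
      Function.Injective X ∧ ∀ i, Big (gd S) (X i)) := Ax.all fun m => Ax.of <|
    FD.ex (P := fun S _ X => Function.Injective X ∧ ∀ i, Big (gd S) (X i)) <|
    (FD.inj _).and (FD.fin fun _ => fd_big _)
  refine (h1.and (h2.and (h3.and (h4.and (h5.and (h6.and (h7.and inf))))))).congr fun S => ?_
  constructor
  · rintro ⟨k1, k2, k3, k4, k5, k6, k7, k8⟩
    refine ⟨⟨fun u => k1 fun _ => u, fun u v => k2 ![u, v], fun u v => k3 ![u, v], ?_, ?_, ?_,
      ?_⟩, k8⟩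
    · intro u hu
      rcases k4 (fun _ => u) hu with h | ⟨b, i, h, h'⟩
      · exact Or.inl h
      · exact Or.inr ⟨_, _, _, i, h, h'⟩
    · intro w p w' q h h'
      exact funext (k5 (Sum.elim p (Sum.elim q ![w, w'])) h h')
    · intro w p w' v q v' i j h h' hij
      exact k6 i j (Sum.elim (Sum.elim p ![w, w']) (Sum.elim q ![v, v'])) h h' hij
    · intro w p w' i u h h'
      exact k7 i (Sum.elim (Sum.elim p ![w, w']) fun _ => u) h h'
  · rintro ⟨⟨k1, k2, k3, k4, k5, k6, k7⟩, k8⟩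
    refine ⟨fun v => k1 _, fun v => k2 _ _, fun v => k3 _ _, ?_, ?_, ?_, ?_, k8⟩
    · intro v hv
      rcases k4 _ hv with h | ⟨w, p, w', i, h, h'⟩
      · exact Or.inl h
      · exact Or.inr ⟨Sum.elim p ![w, w'], i, h, h'⟩
    · intro v h h' m
      exact congrFun (k5 _ _ _ _ h h') m
    · intro i j v h h' hij
      exact k6 _ _ _ _ _ _ i j h h' hij
    · intro i v h h'
      exact k7 _ _ _ i _ h h'

/-- the interpretation -/
def itp (k : ℕ) : Itp LG LG where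
  W := W k
  axW := ax_W k
  dom := fun S u => Big (gd S) u
  rel := fun {n} Q => match n, Q with
    | _, FirstOrder.Language.graphRel.adj => fun S v => Adj' k (gd S) (v 0) (v 1)
  fdom := fd_big _
  frel := fun {n} Q => match n, Q with
    | _, FirstOrder.Language.graphRel.adj =>
      FD.ex (P := fun S v (p : Fin (k + 1) → ℕ) => Pth k (gd S) (v 0) p (v 1)) <|
        fd_pth (Sum.inl 0) (fun m => Sum.inr m) (Sum.inl 1)
  inf := fun _ h => inf_of_card h.inf

variable {S S' : LG.Structure ℕ}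

theorem up (h : W k S) (h' : W k S') (hi : SIso ((itp k).D S) ((itp k).D S'))
    (hc : cnt (fun u => ∀ v, ¬ gd S u v) = cnt (fun u => ∀ v, ¬ gd S' u v)) : SIso S S' := by
  obtain ⟨π, hπ⟩ : ∃ π : {u // Big (gd S) u} ≃ {u // Big (gd S') u},
      ∀ {n : ℕ} (R : LG.Relations n) (u : Fin n → {u // Big (gd S) u}),
        (itp k).rel R S (fun i => u i) ↔ (itp k).rel R S' (fun i => π (u i)) :=
    ((itp k).D_iso_iff h h').1 hi
  obtain ⟨ι⟩ := cnt_equiv hc
  obtain ⟨e, he⟩ := Subd.ext h.sd h'.sd π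
    (fun u v => hπ FirstOrder.Language.graphRel.adj (fun m => if m = 0 then u else v)) ι
  exact siso_gd e fun u v => (he u v).symm

theorem cntD (k : ℕ) : Itp.Cnt (itp k) (Option ℕ) (fun S => cnt (fun u => ∀ v, ¬ gd S u v)) where
  up := fun _ _ h h' hi hc => up h h' hi hc
  bp := fun f hf _ c => bp_cnt (P := fun y u => ∀ v, ¬ gd (f y) u v)
    (fun u => BP.all fun v => BP.not (hf 2 FirstOrder.Language.adj ![u, v])) c

/-- existence -/
theorem ex (k : ℕ) (N : LG.Structure ℕ) (hs : ∀ u v, gd N u v → gd N v u)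
    (hi : ∀ u, ¬ gd N u u) (hb : ∀ u, Big (gd N) u) :
    ∃ S : LG.Structure ℕ, W k S ∧ SIso ((itp k).D S) N := by
  classical
  obtain ⟨e⟩ : Nonempty (Pool.Agent.W889.SD.Tk k ≃ ℕ) := nonempty_equiv_of_countable
  let S : LG.Structure ℕ :=
    { funMap := fun {_} f => isEmptyElim f
      RelMap := fun {n} Q => match n, Q with
        | _, FirstOrder.Language.graphRel.adj => fun v =>
          Pool.Agent.W889.SD.sub k (gd N) (e.symm (v 0)) (e.symm (v 1)) }
  have hy : ∀ u v, Pool.Agent.W889.SD.sub k (gd N) u v ↔ gd S (e u) (e v) := by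
    intro u v
    show _ ↔ Pool.Agent.W889.SD.sub k (gd N) (e.symm (e u)) (e.symm (e v))
    rw [Equiv.symm_apply_apply, Equiv.symm_apply_apply]
  have hsub : Subd k (gd S) := (Pool.Agent.W889.SD.sub_subd hs hi hb).map e hy
  have hB : ∀ u : ℕ, Big (gd S) (e (Sum.inl u)) := fun u =>
    (Pool.Agent.W889.SD.big_map e hy _).1 (Pool.Agent.W889.SD.big_inl hs hi hb u)
  have hW : W k S := by
    refine ⟨hsub, fun m => ⟨fun i => e (Sum.inl i), fun i j hij => ?_, fun i => hB _⟩⟩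
    exact Fin.ext (Sum.inl.inj (e.injective hij))
  refine ⟨S, hW, ?_⟩
  have hbij : Function.Bijective (fun u : ℕ => (⟨e (Sum.inl u), hB u⟩ :
      {u // Big (gd S) u})) := by
    constructor
    · intro u v huv
      exact Sum.inl.inj (e.injective (congrArg Subtype.val huv))
    · rintro ⟨u, hu⟩
      obtain ⟨t, rfl⟩ := e.surjective u
      have := (Pool.Agent.W889.SD.big_map e hy t).2 hu
      rcases t with t | t
      · exact ⟨t, rfl⟩
      · exact absurd this (Pool.Agent.W889.SD.not_big_inr t)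
  refine (itp k).D_iso hW (Equiv.ofBijective _ hbij) fun {n} Q u => ?_
  cases Q with
  | adj =>
    have e1 : ![u 0, u 1] = u := by
      funext m
      fin_cases m <;> rfl
    have h1 : @Structure.RelMap LG ℕ N 2 FirstOrder.Language.graphRel.adj u ↔
        gd N (u 0) (u 1) := by
      unfold gd
      rw [e1]
    refine h1.trans ?_
    show gd N (u 0) (u 1) ↔ Adj' k (gd S) (e (Sum.inl (u 0))) (e (Sum.inl (u 1)))
    rw [← Pool.Agent.W889.SD.adj_inl hs hi hb (k := k)]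
    constructor
    · rintro ⟨p, hp⟩
      exact ⟨_, (Pool.Agent.W889.SD.pth_map e hy _ _ _).1 hp⟩
    · rintro ⟨p, hp⟩
      refine ⟨fun i => e.symm (p i), (Pool.Agent.W889.SD.pth_map e hy _ _ _).2 ?_⟩
      have : (fun i => e (e.symm (p i))) = p := by
        funext i
        simp
      rw [this]
      exact hp

theorem countable_LG : Countable (Σ n, LG.Relations n) := by
  refine Function.Surjective.countable (α := Unit)
    (f := fun _ => ⟨_, FirstOrder.Language.graphRel.adj⟩) ?_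
  rintro ⟨n, Q⟩
  cases Q with
  | adj => exact ⟨(), rfl⟩

/-- the reduction -/
theorem reduce (k : ℕ) (hV : ∀ T' : LG.Theory, (∀ S : LG.Structure ℕ,
      @Theory.Model LG ℕ S T' → Subd k (gd S)) → Vaught LG T') (T : LG.Theory)
    (hT : ∀ S : LG.Structure ℕ, @Theory.Model LG ℕ S T → (∀ u v, gd S u v → gd S v u) ∧
      (∀ u, ¬ gd S u u) ∧ ∀ u, Big (gd S) u) :
    Vaught LG T := by
  have := countable_LG
  refine (itp k).transfer (cntD k) T (fun M hM => ?_) fun T' hT' =>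
    hV T' fun S hS => (hT' S hS).1.sd
  obtain ⟨h1, h2, h3⟩ := hT M hM
  exact ex k M h1 h2 h3

end StD

/-- Vaught's conjecture reduces to theories of subdivided graphs. -/
theorem to_subd (k : ℕ) (hV : ∀ T' : LG.Theory, (∀ S : LG.Structure ℕ,
      @Theory.Model LG ℕ S T' → Subd k (gd S)) → Vaught LG T')
    (L : FirstOrder.Language.{0, 0}) [L.IsRelational] [Countable (Σ n, L.Relations n)]
    (T : L.Theory) : Vaught L T := by
  refine reduceAB (fun T1 => ?_) L T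
  have hfin : Finite (Σ n, StB.LB.Relations n) := by
    refine Finite.of_surjective (α := Fin 6) (fun i => match i with
      | 0 => ⟨_, StB.RB.D⟩
      | 1 => ⟨_, StB.RB.C⟩
      | 2 => ⟨_, StB.RB.M⟩
      | 3 => ⟨_, StB.RB.fs⟩
      | 4 => ⟨_, StB.RB.sn⟩
      | 5 => ⟨_, StB.RB.sc⟩) ?_
    rintro ⟨n, Q⟩
    cases Q with
    | D => exact ⟨0, rfl⟩
    | C => exact ⟨1, rfl⟩
    | M => exact ⟨2, rfl⟩
    | fs => exact ⟨3, rfl⟩
    | sn => exact ⟨4, rfl⟩
    | sc => exact ⟨5, rfl⟩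
  have : Countable (Σ n, StB.LB.Relations n) := Finite.to_countable
  obtain ⟨p, hp⟩ := Countable.exists_injective_nat (Σ n, StB.LB.Relations n)
  refine StC.reduce (L := StB.LB) ⟨fun n Q => ?_, p, hp⟩ (fun T2 hT2 => ?_) T1
  · cases Q with
    | D => exact Or.inl rfl
    | C => exact Or.inl rfl
    | M => exact Or.inl rfl
    | fs => exact Or.inr rfl
    | sn => exact Or.inr rfl
    | sc => exact Or.inr rfl
  have : Countable (StC.KC StB.LB) := Finite.to_countable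
  obtain ⟨w, hw⟩ := Countable.exists_injective_nat (StC.KC StB.LB)
  exact StE.reduce w hw (fun T3 hT3 => StD.reduce k hV T3 hT3) T2 hT2

end Pool.Agent.W889.FO
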