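import Pool.Agent.W889.FO.StC2
import Pool.Agent.W889.SD.Deg

set_option autoImplicit false

/-! From coloured graphs to graphs all of whose vertices have at least three neighbours. -/

namespace Pool.Agent.W889.FO

open FirstOrder FirstOrder.Language
open Pool.Agent.W889.VC (BP)
open Pool.Agent.W889.SD (Big)
open StA (FD.all1 FD.ex1)

namespace StE

/-- the language of graphs -/
abbrev LG : FirstOrder.Language.{0, 0} := FirstOrder.Language.graph

/-- adjacency -/
def gd (S : LG.Structure ℕ) (u v : ℕ) : Prop :=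
  @Structure.RelMap LG ℕ S 2 FirstOrder.Language.adj ![u, v]

/-- isomorphisms of graphs -/
theorem siso_gd {S S' : LG.Structure ℕ} (σ : Equiv.Perm ℕ)
    (h : ∀ u v, gd S' (σ u) (σ v) ↔ gd S u v) : SIso S S' := by
  obtain ⟨f, -⟩ := siso_of (S := S) (S' := S') σ (fun n Q v => by
    cases Q with
    | adj =>
      have := h (v 0) (v 1)
      unfold gd at this
      have e1 : ![v 0, v 1] = v := by
        funext m
        fin_cases m <;> rfl
      have e2 : ![σ (v 0), σ (v 1)] = fun i => σ (v i) := by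
        funext m
        fin_cases m <;> rfl
      rw [e1, e2] at this
      exact this)
  exact ⟨f⟩

section fd

variable {V : LG.Structure ℕ → Prop} {α : Type}

theorem fd_gd (i j : α) : FD V (fun S v => gd S (v i) (v j)) := by
  refine (FD.rel (W := V) (L := LG) FirstOrder.Language.adj ![i, j]).congr fun S _ v => ?_
  have e : (fun m : Fin 2 => v (![i, j] m)) = ![v i, v j] := by
    funext m
    fin_cases m <;> rfl
  show @Structure.RelMap LG ℕ S 2 FirstOrder.Language.adj (fun m => v (![i, j] m)) ↔ _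
  rw [e]
  exact Iff.rfl

theorem fd_big (i : α) : FD V (fun S v => Big (gd S) (v i)) := by
  refine (FD.ex (β := Fin 3) (P := fun S v (p : Fin 3 → ℕ) => Function.Injective p ∧
    ∀ j, gd S (v i) (p j)) ((FD.inj _).and (FD.fin fun j => fd_gd _ _))).congr fun S _ v => ?_
  constructor
  · rintro ⟨p, h1, h2⟩
    exact ⟨p 0, p 1, p 2, fun h => absurd (h1 h) (by decide), fun h => absurd (h1 h) (by decide),
      fun h => absurd (h1 h) (by decide), h2 0, h2 1, h2 2⟩
  · rintro ⟨a, b, c, h1, h2, h3, h4, h5, h6⟩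
    refine ⟨![a, b, c], ?_, ?_⟩
    · intro m n hmn
      fin_cases m <;> fin_cases n <;> simp_all
    · intro j
      fin_cases j
      · exact h4
      · exact h5
      · exact h6

end fd

variable {κ : Type} (w : κ → ℕ)

/-- adjacency in the complement -/
def co (S : LG.Structure ℕ) (u v : ℕ) : Prop := u ≠ v ∧ ¬ gd S u v

/-- leaves of the complement -/
def Lf (S : LG.Structure ℕ) (u : ℕ) : Prop := ∃ v, co S u v ∧ ∀ x, co S u x → x = v

/-- nodes of colour `c` -/
def Nd (c : κ) (S : LG.Structure ℕ) (u : ℕ) : Prop :=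
  ∃ p : Fin (w c + 2) → ℕ, Function.Injective p ∧ (∀ i, co S u (p i) ∧ Lf S (p i)) ∧
    ∀ x, co S u x → Lf S x → ∃ i, x = p i

section fd

variable {V : LG.Structure ℕ → Prop} {α : Type}

theorem fd_co (i j : α) : FD V (fun S v => co S (v i) (v j)) :=
  (FD.eq i j).not.and (fd_gd i j).not

theorem fd_Lf (i : α) : FD V (fun S v => Lf S (v i)) :=
  FD.ex1 (P := fun S v a => co S (v i) a ∧ ∀ x, co S (v i) x → x = a) <|
  (fd_co _ _).and <|
  FD.all1 (P := fun S (v : α ⊕ Unit → ℕ) x => co S (v (Sum.inl i)) x → x = v (Sum.inr ())) <|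
  (fd_co _ _).imp (FD.eq _ _)

theorem fd_Nd (c : κ) (i : α) : FD V (fun S v => Nd w c S (v i)) :=
  FD.ex (P := fun S v (p : Fin (w c + 2) → ℕ) => Function.Injective p ∧
    (∀ j, co S (v i) (p j) ∧ Lf S (p j)) ∧ ∀ x, co S (v i) x → Lf S x → ∃ j, x = p j) <|
  (FD.inj _).and <| (FD.fin fun _ => (fd_co _ _).and (fd_Lf _)).and <|
  FD.all1 (P := fun S (v : α ⊕ Fin (w c + 2) → ℕ) x => co S (v (Sum.inl i)) x → Lf S x →
    ∃ j, x = v (Sum.inr j)) <|
  (fd_co _ _).imp ((fd_Lf _).imp (FD.fin' fun _ => FD.eq _ _))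

end fd

/-- the axioms -/
structure W (S : LG.Structure ℕ) : Prop where
  sy : ∀ u v, gd S u v → gd S v u
  ir : ∀ u, ¬ gd S u u
  big : ∀ u, Big (gd S) u
  l1 : ∀ u v, Lf S u → co S u v → ¬ Lf S v
  l2 : ∀ u, ¬ Lf S u → ∃ c, Nd w c S u
  inf : ∀ m : ℕ, ∃ X : Fin m → ℕ, Function.Injective X ∧ ∀ i, ¬ Lf S (X i)

theorem ax_W [Finite κ] : Ax (W w) := by
  have h1 : Ax (fun S : LG.Structure ℕ => ∀ v : Fin 2 → ℕ, gd S (v 0) (v 1) →
      gd S (v 1) (v 0)) := Ax.ofn 2 ((fd_gd _ _).imp (fd_gd _ _))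
  have h2 : Ax (fun S : LG.Structure ℕ => ∀ v : Fin 1 → ℕ, ¬ gd S (v 0) (v 0)) :=
    Ax.ofn 1 (fd_gd _ _).not
  have h3 : Ax (fun S : LG.Structure ℕ => ∀ v : Fin 1 → ℕ, Big (gd S) (v 0)) :=
    Ax.ofn 1 (fd_big _)
  have h4 : Ax (fun S : LG.Structure ℕ => ∀ v : Fin 2 → ℕ, Lf S (v 0) → co S (v 0) (v 1) →
      ¬ Lf S (v 1)) := Ax.ofn 2 ((fd_Lf _).imp ((fd_co _ _).imp (fd_Lf _).not))
  have h5 : Ax (fun S : LG.Structure ℕ => ∀ v : Fin 1 → ℕ, ¬ Lf S (v 0) →
      ∃ c, Nd w c S (v 0)) := Ax.ofn 1 ((fd_Lf _).not.imp (FD.fin' fun c => fd_Nd w c _))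
  have inf : Ax (fun S : LG.Structure ℕ => ∀ m : ℕ, ∃ X : Fin m → ℕ,
      Function.Injective X ∧ ∀ i, ¬ Lf S (X i)) := Ax.all fun m => Ax.of <|
    FD.ex (P := fun S _ X => Function.Injective X ∧ ∀ i, ¬ Lf S (X i)) <|
    (FD.inj _).and (FD.fin fun _ => (fd_Lf _).not)
  refine (h1.and (h2.and (h3.and (h4.and (h5.and inf))))).congr fun S => ?_
  constructor
  · rintro ⟨k1, k2, k3, k4, k5, k6⟩
    exact ⟨fun u v => k1 ![u, v], fun u => k2 fun _ => u, fun u => k3 fun _ => u,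
      fun u v => k4 ![u, v], fun u => k5 fun _ => u, k6⟩
  · rintro ⟨k1, k2, k3, k4, k5, k6⟩
    exact ⟨fun v => k1 _ _, fun v => k2 _, fun v => k3 _, fun v => k4 _ _, fun v => k5 _, k6⟩

open StC (LK RK cl ad Cg)

/-- the interpretation -/
def itp [Finite κ] : Itp (LK κ) LG where
  W := W w
  axW := ax_W w
  dom := fun S u => ¬ Lf S u
  rel := fun {n} Q => match n, Q with
    | _, RK.col c => fun S v => Nd w c S (v 0)
    | _, RK.adj => fun S v => co S (v 0) (v 1)
  fdom := (fd_Lf _).not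
  frel := fun {n} Q => match n, Q with
    | _, RK.col c => fd_Nd w c 0
    | _, RK.adj => fd_co 0 1
  inf := fun _ h => inf_of_card h.inf

variable {w} {S S' : LG.Structure ℕ}

theorem W.csy (h : W w S) {u v : ℕ} (huv : co S u v) : co S v u :=
  ⟨huv.1.symm, fun h' => huv.2 (h.sy _ _ h')⟩

theorem W.leaf (h : W w S) {u y : ℕ} (hy : Lf S y) (hu : co S u y) (x : ℕ) :
    co S x y ↔ x = u := by
  obtain ⟨v, hv, hv'⟩ := hy
  constructor
  · intro hx
    rw [hv' x (h.csy hx), hv' u (h.csy hu)]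
  · rintro rfl
    exact hu

/-- the leaves at a vertex -/
abbrev Lv (S : LG.Structure ℕ) (u : ℕ) : Type := {x : ℕ // co S u x ∧ Lf S x}

theorem lv_equiv {c : κ} {u : ℕ} (h : Nd w c S u) : Nonempty (Fin (w c + 2) ≃ Lv S u) := by
  obtain ⟨p, h1, h2, h3⟩ := h
  refine ⟨Equiv.ofBijective (fun i => (⟨p i, h2 i⟩ : Lv S u)) ⟨fun i j hij => ?_, ?_⟩⟩
  · exact h1 (congrArg Subtype.val hij)
  · rintro ⟨x, hx1, hx2⟩
    obtain ⟨i, rfl⟩ := h3 x hx1 hx2
    exact ⟨i, rfl⟩

theorem gd_iff (h : W w S) (u v : ℕ) : gd S u v ↔ u ≠ v ∧ ¬ co S u v := by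
  constructor
  · intro h1
    exact ⟨fun e => h.ir u (by rw [← e] at h1; exact h1), fun h2 => h2.2 h1⟩
  · rintro ⟨h1, h2⟩
    by_contra h3
    exact h2 ⟨h1, h3⟩

theorem up [Finite κ] (h : W w S) (h' : W w S')
    (hi : SIso ((itp w).D S) ((itp w).D S')) : SIso S S' := by
  classical
  obtain ⟨π, hπ⟩ : ∃ π : {u // ¬ Lf S u} ≃ {u // ¬ Lf S' u},
      ∀ {n : ℕ} (R : (LK κ).Relations n) (u : Fin n → {u // ¬ Lf S u}),
        (itp w).rel R S (fun i => u i) ↔ (itp w).rel R S' (fun i => π (u i)) :=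
    ((itp w).D_iso_iff h h').1 hi
  have hc : ∀ (c : κ) (u : {u // ¬ Lf S u}), Nd w c S u ↔ Nd w c S' (π u) := fun c u =>
    hπ (RK.col c) (fun _ => u)
  have ha : ∀ u v : {u // ¬ Lf S u}, co S u v ↔ co S' (π u) (π v) := fun u v =>
    hπ RK.adj (fun m => if m = 0 then u else v)
  have hτ : ∀ u : {u // ¬ Lf S u}, Nonempty (Lv S u ≃ Lv S' (π u)) := by
    intro u
    obtain ⟨c, hcu⟩ := h.l2 u u.2
    obtain ⟨e1⟩ := lv_equiv hcu
    obtain ⟨e2⟩ := lv_equiv ((hc c u).1 hcu)
    exact ⟨e1.symm.trans e2⟩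
  obtain ⟨τ⟩ : Nonempty (∀ u : {u // ¬ Lf S u}, Lv S u ≃ Lv S' (π u)) :=
    Classical.nonempty_pi.2 hτ
  let Mt : ℕ → ℕ → Prop := fun x x' => (∃ hx : ¬ Lf S x, (π ⟨x, hx⟩ : ℕ) = x') ∨
    ∃ (u : {u // ¬ Lf S u}) (y : Lv S u), y.1 = x ∧ (τ u y).1 = x'
  have nb : ∀ x, Lf S x → ∃ u : {u // ¬ Lf S u}, co S u x := by
    intro x hx
    obtain ⟨v, hv, -⟩ := id hx
    exact ⟨⟨v, h.l1 x v hx hv⟩, h.csy hv⟩
  have nb' : ∀ x, Lf S' x → ∃ u : {u // ¬ Lf S u}, co S' (π u) x := by
    intro x hx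
    obtain ⟨v, hv, -⟩ := id hx
    refine ⟨π.symm ⟨v, h'.l1 x v hx hv⟩, ?_⟩
    rw [Equiv.apply_symm_apply]
    exact h'.csy hv
  obtain ⟨σ, hσ⟩ := Pool.Agent.W889.SD.equiv_of_rel Mt
    (fun x => by
      by_cases hx : Lf S x
      · obtain ⟨u, hu⟩ := nb x hx
        exact ⟨_, Or.inr ⟨u, ⟨x, hu, hx⟩, rfl, rfl⟩⟩
      · exact ⟨_, Or.inl ⟨hx, rfl⟩⟩)
    (fun x => by
      by_cases hx : Lf S' x
      · obtain ⟨u, hu⟩ := nb' x hx
        refine ⟨_, Or.inr ⟨u, (τ u).symm ⟨x, hu, hx⟩, rfl, ?_⟩⟩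
        rw [Equiv.apply_symm_apply]
      · refine ⟨_, Or.inl ⟨(π.symm ⟨x, hx⟩).2, ?_⟩⟩
        rw [Subtype.coe_eta, Equiv.apply_symm_apply])
    (by
      rintro x x1 x2 (⟨k1, k2⟩ | ⟨u, y, k1, k2⟩) (⟨k3, k4⟩ | ⟨u', y', k3, k4⟩)
      · exact k2.symm.trans k4
      · exact absurd (k3 ▸ y'.2.2) k1
      · exact absurd (k1 ▸ y.2.2) k3
      · have e : u = u' := by
          apply Subtype.ext
          have h1 := (h.leaf y'.2.2 y'.2.1 u).1 (by
            rw [k3, ← k1]
            exact y.2.1)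
          exact h1
        subst e
        have e2 : y = y' := Subtype.ext (k1.trans k3.symm)
        rw [← k2, ← k4, e2])
    (by
      rintro x1 x2 x (⟨k1, k2⟩ | ⟨u, y, k1, k2⟩) (⟨k3, k4⟩ | ⟨u', y', k3, k4⟩)
      · have e := congrArg Subtype.val (π.injective (Subtype.ext (k2.trans k4.symm)))
        exact e
      · exact absurd (k4.trans k2.symm ▸ (τ u' y').2.2) (π ⟨x1, k1⟩).2
      · exact absurd (k2.trans k4.symm ▸ (τ u y).2.2) (π ⟨x2, k3⟩).2
      · have e : u = u' := by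
          apply π.injective
          apply Subtype.ext
          have h1 := (h'.leaf (τ u' y').2.2 (τ u' y').2.1 (π u)).1 (by
            rw [k4, ← k2]
            exact (τ u y).2.1)
          exact h1
        subst e
        have e2 : y = y' := (τ u).injective (Subtype.ext (k2.trans k4.symm))
        rw [← k1, ← k3, e2])
  have hσ1 : ∀ u : {u // ¬ Lf S u}, σ u = π u := by
    intro u
    rcases hσ u with ⟨k1, k2⟩ | ⟨v, y, k1, k2⟩
    · exact k2.symm
    · exact absurd (k1 ▸ y.2.2) u.2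
  have hσ2 : ∀ x, Lf S x → ∃ u : {u // ¬ Lf S u}, co S u x ∧ co S' (π u) (σ x) ∧
      Lf S' (σ x) := by
    intro x hx
    rcases hσ x with ⟨k1, k2⟩ | ⟨v, y, k1, k2⟩
    · exact absurd hx k1
    · refine ⟨v, ?_, ?_, ?_⟩
      · rw [← k1]
        exact y.2.1
      · rw [← k2]
        exact (τ v y).2.1
      · rw [← k2]
        exact (τ v y).2.2
  have hco : ∀ x y, co S' (σ x) (σ y) ↔ co S x y := by
    have key : ∀ x y, Lf S y → ¬ Lf S x → (co S' (σ x) (σ y) ↔ co S x y) := by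
      intro x y hy hx
      obtain ⟨u, h1, h2, h3⟩ := hσ2 y hy
      rw [h'.leaf h3 h2, h.leaf hy h1, ← hσ1 u]
      exact σ.apply_eq_iff_eq
    intro x y
    by_cases hx : Lf S x
    · by_cases hy : Lf S y
      · obtain ⟨u, h1, h2, h3⟩ := hσ2 x hx
        obtain ⟨v, h4, h5, h6⟩ := hσ2 y hy
        exact ⟨fun k => absurd h6 (h'.l1 _ _ h3 k), fun k => absurd hy (h.l1 _ _ hx k)⟩
      · have := key y x hx hy
        exact ⟨fun k => h.csy (this.1 (h'.csy k)), fun k => h'.csy (this.2 (h.csy k))⟩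
    · by_cases hy : Lf S y
      · exact key x y hy hx
      · have := ha ⟨x, hx⟩ ⟨y, hy⟩
        rw [← hσ1, ← hσ1] at this
        exact this.symm
  refine siso_gd σ fun u v => ?_
  rw [gd_iff h, gd_iff h', hco, ne_eq, ne_eq, σ.apply_eq_iff_eq]

variable (w)

theorem cntE [Finite κ] : Itp.Cnt (itp w) Unit (fun _ => ()) where
  up := fun _ _ h h' hi _ => up h h' hi
  bp := fun _ _ _ _ => BP.const _

/-- existence -/
theorem ex [Finite κ] (hw : Function.Injective w) (N : (LK κ).Structure ℕ) (hN : Cg N) :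
    ∃ S : LG.Structure ℕ, W w S ∧ SIso ((itp w).D S) N := by
  classical
  choose col hcol using hN.c1
  have hcol' : ∀ c u, cl N c u ↔ col u = c := fun c u =>
    ⟨fun h => hN.c2 _ _ _ (hcol u) h, fun h => h ▸ hcol u⟩
  have : Infinite (ℕ ⊕ (Σ u : ℕ, Fin (w (col u) + 2))) := Sum.infinite_of_left
  obtain ⟨e⟩ : Nonempty (ℕ ≃ (ℕ ⊕ (Σ u : ℕ, Fin (w (col u) + 2)))) :=
    nonempty_equiv_of_countable
  let g : (ℕ ⊕ (Σ u : ℕ, Fin (w (col u) + 2))) → (ℕ ⊕ (Σ u : ℕ, Fin (w (col u) + 2))) → Prop :=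
    fun x y => match x, y with
    | Sum.inl u, Sum.inl v => ad N u v
    | Sum.inl u, Sum.inr y => u = y.1
    | Sum.inr x, Sum.inl v => v = x.1
    | Sum.inr _, Sum.inr _ => False
  have gi : ∀ x, ¬ g x x := by
    rintro (u | x)
    · exact hN.ir u
    · exact fun h => h
  have gs : ∀ x y, g x y → g y x := by
    rintro (u | x) (v | y) h
    · exact hN.sy _ _ h
    · exact h
    · exact h
    · exact h
  let S : LG.Structure ℕ :=
    { funMap := fun {_} f => isEmptyElim f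
      RelMap := fun {n} Q => match n, Q with
        | _, FirstOrder.Language.graphRel.adj => fun v => v 0 ≠ v 1 ∧ ¬ g (e (v 0)) (e (v 1)) }
  have hgd : ∀ u v, gd S u v ↔ u ≠ v ∧ ¬ g (e u) (e v) := fun u v => Iff.rfl
  have hco : ∀ u v, co S u v ↔ g (e u) (e v) := by
    intro u v
    unfold co
    rw [hgd]
    constructor
    · rintro ⟨h1, h2⟩
      by_contra h3
      exact h2 ⟨h1, h3⟩
    · intro h
      exact ⟨fun e' => gi (e u) (by rw [← e'] at h; exact h), fun h' => h'.2 h⟩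
  have hex : ∀ k, ∃ u, e u = k := fun k => ⟨e.symm k, by rw [Equiv.apply_symm_apply]⟩
  have hLf : ∀ u, Lf S u ↔ ∃ x, e u = Sum.inr x := by
    intro u
    constructor
    · rintro ⟨v, -, hv⟩
      rcases hu : e u with a | x
      · exfalso
        obtain ⟨y0, h0⟩ := hex (Sum.inr ⟨a, 0⟩)
        obtain ⟨y1, h1⟩ := hex (Sum.inr ⟨a, 1⟩)
        have e0 := hv y0 ((hco _ _).2 (by rw [hu, h0]))
        have e1 := hv y1 ((hco _ _).2 (by rw [hu, h1]))
        rw [e0, ← e1, h1] at h0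
        have := Sum.inr.inj h0
        simp at this
      · exact ⟨x, rfl⟩
    · rintro ⟨x, hx⟩
      obtain ⟨v, hv⟩ := hex (Sum.inl x.1)
      refine ⟨v, (hco _ _).2 (by rw [hx, hv]), fun y hy => ?_⟩
      rw [hco, hx] at hy
      rcases hyy : e y with b | z
      · rw [hyy] at hy
        have hb : b = x.1 := hy
        apply e.injective
        rw [hyy, hv, hb]
      · rw [hyy] at hy
        exact hy.elim
  have hNd : ∀ c u, Nd w c S u ↔ ∃ a, e u = Sum.inl a ∧ col a = c := by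
    have mk : ∀ u a, e u = Sum.inl a → Nd w (col a) S u := by
      intro u a hu
      refine ⟨fun i => e.symm (Sum.inr ⟨a, i⟩), fun i j hij => ?_, fun i => ⟨?_, ?_⟩,
        fun x h1 h2 => ?_⟩
      · have := Sum.inr.inj (e.symm.injective hij)
        simpa using this
      · rw [hco, hu, Equiv.apply_symm_apply]
      · rw [hLf]
        exact ⟨_, Equiv.apply_symm_apply _ _⟩
      · obtain ⟨y, hy⟩ := (hLf x).1 h2
        rw [hco, hu, hy] at h1
        have h3 : a = y.1 := h1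
        obtain ⟨b, i⟩ := y
        simp only at h3
        subst h3
        refine ⟨i, ?_⟩
        show x = e.symm (Sum.inr ⟨a, i⟩)
        rw [← hy, Equiv.symm_apply_apply]
    intro c u
    constructor
    · intro h
      rcases hu : e u with a | x
      · refine ⟨a, rfl, ?_⟩
        obtain ⟨e1⟩ := lv_equiv h
        obtain ⟨e2⟩ := lv_equiv (mk u a hu)
        have := Fin.equiv_iff_eq.1 ⟨e1.trans e2.symm⟩
        exact (hw (by omega : w c = w (col a))).symm
      · exfalso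
        obtain ⟨v, -, hv⟩ := (hLf u).2 ⟨x, hu⟩
        obtain ⟨p, h1, h2, -⟩ := h
        have e0 := hv _ (h2 0).1
        have e1 := hv _ (h2 1).1
        have := h1 (e0.trans e1.symm)
        simp at this
    · rintro ⟨a, hu, rfl⟩
      exact mk u a hu
  have hW : W w S := by
    refine ⟨?_, ?_, ?_, ?_, ?_, ?_⟩
    · intro u v h
      rw [hgd] at h ⊢
      exact ⟨h.1.symm, fun h' => h.2 (gs _ _ h')⟩
    · intro u h
      rw [hgd] at h
      exact h.1 rfl
    · intro u
      obtain ⟨a, ha⟩ : ∃ a : ℕ, (e u = Sum.inl a ∨ ∃ i, e u = Sum.inr ⟨a, i⟩) := by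
        rcases hu : e u with a | ⟨a, i⟩
        · exact ⟨a, Or.inl rfl⟩
        · exact ⟨a, Or.inr ⟨i, rfl⟩⟩
      choose y hy using fun d : ℕ => hex (Sum.inr ⟨a + 1 + d, 0⟩)
      have h1 : ∀ d, gd S u (y d) := by
        intro d
        rw [hgd]
        constructor
        · rintro rfl
          rcases ha with ha | ⟨i, ha⟩
          · rw [hy] at ha
            exact absurd ha (by simp)
          · rw [hy] at ha
            have := congrArg Sigma.fst (Sum.inr.inj ha)
            simp at this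
            omega
        · rw [hy]
          rcases ha with ha | ⟨i, ha⟩
          · rw [ha]
            intro h
            have h' : a = a + 1 + d := h
            omega
          · rw [ha]
            exact fun h => h
      have h2 : ∀ d d', y d = y d' → d = d' := by
        intro d d' h
        have h3 := hy d
        rw [h, hy d'] at h3
        have := congrArg Sigma.fst (Sum.inr.inj h3)
        simp at this
        omega
      exact ⟨y 0, y 1, y 2, fun h => absurd (h2 _ _ h) (by decide),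
        fun h => absurd (h2 _ _ h) (by decide), fun h => absurd (h2 _ _ h) (by decide),
        h1 0, h1 1, h1 2⟩
    · intro u v hu huv hv
      obtain ⟨x, hx⟩ := (hLf u).1 hu
      obtain ⟨y, hy⟩ := (hLf v).1 hv
      rw [hco, hx, hy] at huv
      exact huv
    · intro u hu
      rcases huu : e u with a | x
      · exact ⟨col a, (hNd _ _).2 ⟨a, huu, rfl⟩⟩
      · exact absurd ((hLf u).2 ⟨x, huu⟩) hu
    · intro m
      refine ⟨fun i => e.symm (Sum.inl i), fun i j hij => ?_, fun i h => ?_⟩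
      · have := Sum.inl.inj (e.symm.injective hij)
        exact Fin.ext this
      · obtain ⟨x, hx⟩ := (hLf _).1 h
        rw [Equiv.apply_symm_apply] at hx
        exact absurd hx (by simp)
  refine ⟨S, hW, ?_⟩
  obtain ⟨π, hπ⟩ := Pool.Agent.W889.SD.equiv_of_rel
    (fun (x : ℕ) (u : {u // ¬ Lf S u}) => e u = Sum.inl x)
    (fun x => by
      obtain ⟨u, hu⟩ := hex (Sum.inl x)
      refine ⟨⟨u, fun h => ?_⟩, hu⟩
      obtain ⟨y, hy⟩ := (hLf _).1 h
      rw [hu] at hy
      exact absurd hy (by simp))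
    (fun u => by
      rcases hu : e u with a | x
      · exact ⟨a, rfl⟩
      · exact absurd ((hLf u).2 ⟨x, hu⟩) u.2)
    (fun x u u' h h' => Subtype.ext (e.injective (h.trans h'.symm)))
    (fun x x' u h h' => Sum.inl.inj (h.symm.trans h'))
  refine (itp w).D_iso hW π fun {n} Q u => ?_
  cases Q with
  | col c =>
    have h1 := hcol' c (u 0)
    unfold cl at h1
    have e1 : (fun _ : Fin 1 => u 0) = u := funext fun i => by rw [Subsingleton.elim i 0]
    rw [e1] at h1
    refine h1.trans (Iff.trans ?_ (hNd c (π (u 0))).symm)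
    constructor
    · exact fun h => ⟨u 0, hπ _, h⟩
    · rintro ⟨a, h2, h3⟩
      rw [hπ (u 0)] at h2
      rw [Sum.inl.inj h2]
      exact h3
  | adj =>
    have e1 : (fun m : Fin 2 => if m = 0 then u 0 else u 1) = u := by
      funext m
      fin_cases m <;> rfl
    have h1 : @Structure.RelMap (LK κ) ℕ N _ RK.adj u ↔ ad N (u 0) (u 1) := by
      unfold ad
      rw [e1]
    have h2 : co S (π (u 0)) (π (u 1)) ↔ ad N (u 0) (u 1) := by
      rw [hco, hπ, hπ]
    exact h1.trans h2.symm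

/-- the reduction -/
theorem reduce [Finite κ] (hw : Function.Injective w)
    (hV : ∀ T' : LG.Theory, (∀ S : LG.Structure ℕ,
      @Theory.Model LG ℕ S T' → (∀ u v, gd S u v → gd S v u) ∧ (∀ u, ¬ gd S u u) ∧
        ∀ u, Big (gd S) u) → Vaught LG T') (T : (LK κ).Theory)
    (hT : ∀ S : (LK κ).Structure ℕ, @Theory.Model (LK κ) ℕ S T → Cg S) :
    Vaught (LK κ) T := by
  have : Countable (Σ n, (LK κ).Relations n) := by
    have : Countable κ := Finite.to_countable
    refine Function.Surjective.countable (α := Option κ) (f := fun o => match o with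
      | none => ⟨_, RK.adj⟩
      | some c => ⟨_, RK.col c⟩) ?_
    rintro ⟨n, Q⟩
    cases Q with
    | col c => exact ⟨some c, rfl⟩
    | adj => exact ⟨none, rfl⟩
  exact (itp w).transfer (cntE w) T (fun M hM => ex w hw M (hT M hM)) fun T' hT' =>
    hV T' fun S hS => ⟨(hT' S hS).1.sy, (hT' S hS).1.ir, (hT' S hS).1.big⟩

end StE

end Pool.Agent.W889.FO
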