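import Pool.Agent.W889.FO.Lang

set_option autoImplicit false

/-! The axioms are first-order, and first-order formulas about the colours can be translated. -/

namespace Pool.Agent.W889.FO

open FirstOrder FirstOrder.Language

variable {k : ℕ} {L : FirstOrder.Language.{0, 0}} {V : (TL k L).Structure ℕ → Prop} {α : Type}

theorem jn_two {A B : Type} (v : A → B) (t u : Fin (k + 1) → A) :
    jn ![fun j => v (t j), fun j => v (u j)] = fun i => v (jn ![t, u] i) := by
  funext i
  unfold jn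
  generalize (finProdFinEquiv.symm i).1 = a
  fin_cases a <;> rfl

theorem FD.cs (t u : Fin (k + 1) → α) :
    FD V (fun S v => Cs S (fun j => v (t j)) (fun j => v (u j))) := by
  refine (FD.rel (W := V) (L := TL k L) TR.eqv (jn ![t, u])).congr fun S _ v => ?_
  unfold Cs
  rw [jn_two]

theorem FD.rs {n : ℕ} (R : L.Relations n) (t : Fin n → Fin (k + 1) → α) :
    FD V (fun S v => Rs S R (fun i j => v (t i j))) :=
  FD.rel (W := V) (L := TL k L) (TR.rel R) (jn t)

theorem ax_W (k : ℕ) (L : FirstOrder.Language.{0, 0}) : Ax (W (k := k) (L := L)) := by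
  have h1 : Ax (fun S : (TL k L).Structure ℕ => ∀ x y : Fin (k + 1) → ℕ, Cs S x y →
      Function.Injective x ∧ Function.Injective y) := Ax.of <|
    FD.all (P := fun S _ x => ∀ y : Fin (k + 1) → ℕ, Cs S x y →
      Function.Injective x ∧ Function.Injective y) <|
    FD.all (P := fun S w y => Cs S (fun i => w (Sum.inr i)) y →
      (Function.Injective fun i => w (Sum.inr i)) ∧ Function.Injective y) <|
    (FD.cs _ _).imp ((FD.inj _).and (FD.inj _))
  have h2 : Ax (fun S : (TL k L).Structure ℕ => ∀ x : Fin (k + 1) → ℕ, Function.Injective x →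
      Cs S x x) := Ax.of <|
    FD.all (P := fun S _ x => Function.Injective x → Cs S x x) <|
    (FD.inj _).imp (FD.cs _ _)
  have h3 : Ax (fun S : (TL k L).Structure ℕ => ∀ x y : Fin (k + 1) → ℕ, Cs S x y →
      Cs S y x) := Ax.of <|
    FD.all (P := fun S _ x => ∀ y : Fin (k + 1) → ℕ, Cs S x y → Cs S y x) <|
    FD.all (P := fun S w y => Cs S (fun i => w (Sum.inr i)) y →
      Cs S y (fun i => w (Sum.inr i))) <|
    (FD.cs _ _).imp (FD.cs _ _)
  have h4 : Ax (fun S : (TL k L).Structure ℕ => ∀ x y z : Fin (k + 1) → ℕ, Cs S x y →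
      Cs S y z → Cs S x z) := Ax.of <|
    FD.all (P := fun S _ x => ∀ y z : Fin (k + 1) → ℕ, Cs S x y → Cs S y z → Cs S x z) <|
    FD.all (P := fun S w y => ∀ z : Fin (k + 1) → ℕ, Cs S (fun i => w (Sum.inr i)) y →
      Cs S y z → Cs S (fun i => w (Sum.inr i)) z) <|
    FD.all (P := fun S w z => Cs S (fun i => w (Sum.inl (Sum.inr i))) (fun i => w (Sum.inr i)) →
      Cs S (fun i => w (Sum.inr i)) z → Cs S (fun i => w (Sum.inl (Sum.inr i))) z) <|
    (FD.cs _ _).imp ((FD.cs _ _).imp (FD.cs _ _))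
  have h5 : Ax (fun S : (TL k L).Structure ℕ => ∀ (π : Equiv.Perm (Fin (k + 1)))
      (x : Fin (k + 1) → ℕ), Function.Injective x → Cs S x (fun i => x (π i))) :=
    Ax.all fun π => Ax.of <|
    FD.all (P := fun S _ x => Function.Injective x → Cs S x (fun i => x (π i))) <|
    (FD.inj _).imp (FD.cs _ _)
  have h6 : Ax (fun S : (TL k L).Structure ℕ => ∀ (R : Σ n, L.Relations n)
      (X : Fin R.1 × Fin (k + 1) → ℕ), Rs S R.2 (fun i j => X (i, j)) →
        ∀ i, Function.Injective fun j => X (i, j)) :=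
    Ax.all fun R => Ax.of <|
    FD.all (P := fun S _ X => Rs S R.2 (fun i j => X (i, j)) →
        ∀ i, Function.Injective fun j => X (i, j)) <|
    (FD.rs R.2 _).imp (FD.fin fun i => FD.inj _)
  have h7 : Ax (fun S : (TL k L).Structure ℕ => ∀ (R : Σ n, L.Relations n)
      (X Y : Fin R.1 × Fin (k + 1) → ℕ),
      (∀ i, Cs S (fun j => X (i, j)) (fun j => Y (i, j))) → Rs S R.2 (fun i j => X (i, j)) →
      Rs S R.2 (fun i j => Y (i, j))) :=
    Ax.all fun R => Ax.of <|
    FD.all (P := fun S _ X => ∀ Y : Fin R.1 × Fin (k + 1) → ℕ,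
      (∀ i, Cs S (fun j => X (i, j)) (fun j => Y (i, j))) → Rs S R.2 (fun i j => X (i, j)) →
      Rs S R.2 (fun i j => Y (i, j))) <|
    FD.all (P := fun S w Y =>
      (∀ i, Cs S (fun j => w (Sum.inr (i, j))) (fun j => Y (i, j))) →
      Rs S R.2 (fun i j => w (Sum.inr (i, j))) → Rs S R.2 (fun i j => Y (i, j))) <|
    (FD.fin fun i => FD.cs _ _).imp ((FD.rs R.2 _).imp (FD.rs R.2 _))
  have h8 : Ax (fun S : (TL k L).Structure ℕ => ∀ m : ℕ, ∃ X : Fin m × Fin (k + 1) → ℕ,
      (∀ i, Function.Injective fun j => X (i, j)) ∧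
      ∀ i i', Cs S (fun j => X (i, j)) (fun j => X (i', j)) → i = i') :=
    Ax.all fun m => Ax.of <|
    FD.ex (P := fun S _ X => (∀ i, Function.Injective fun j => X (i, j)) ∧
      ∀ i i', Cs S (fun j => X (i, j)) (fun j => X (i', j)) → i = i') <|
    (FD.fin fun i => FD.inj _).and (FD.fin fun i => FD.fin fun i' =>
      (FD.cs _ _).imp (FD.const _))
  have h9 : Ax (fun S : (TL k L).Structure ℕ => ∀ (m : ℕ) (f : Fin m → ℕ),
      Function.Injective f → ∀ Q : (Fin k ↪o Fin m) × Fin (k + 1) → ℕ,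
      (∀ K, Function.Injective fun j => Q (K, j)) → ∃ a : Unit → ℕ, (∀ i, f i ≠ a ()) ∧
        ∀ K, Cs S (fun j => Fin.snoc (α := fun _ => ℕ) (fun i => f (K i)) (a ()) j)
          (fun j => Q (K, j))) := by
    refine Ax.all fun m => Ax.of <|
      FD.all (P := fun S _ f => Function.Injective f → ∀ Q : (Fin k ↪o Fin m) × Fin (k + 1) → ℕ,
      (∀ K, Function.Injective fun j => Q (K, j)) → ∃ a : Unit → ℕ, (∀ i, f i ≠ a ()) ∧
        ∀ K, Cs S (fun j => Fin.snoc (α := fun _ => ℕ) (fun i => f (K i)) (a ()) j)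
          (fun j => Q (K, j))) <|
      (FD.inj _).imp <|
      FD.all (P := fun S w Q => (∀ K, Function.Injective fun j => Q (K, j)) →
        ∃ a : Unit → ℕ, (∀ i, w (Sum.inr i) ≠ a ()) ∧
        ∀ K : Fin k ↪o Fin m, Cs S (fun j => Fin.snoc (α := fun _ => ℕ)
          (fun i => w (Sum.inr (K i))) (a ()) j) (fun j => Q (K, j))) <|
      (FD.fin fun K => FD.inj _).imp <|
      FD.ex (P := fun S w a => (∀ i, w (Sum.inl (Sum.inr i)) ≠ a ()) ∧
        ∀ K : Fin k ↪o Fin m, Cs S (fun j => Fin.snoc (α := fun _ => ℕ)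
          (fun i => w (Sum.inl (Sum.inr (K i)))) (a ()) j) (fun j => w (Sum.inr (K, j)))) <|
      (FD.fin fun i => (FD.eq _ _).not).and (FD.fin fun K => ?_)
    refine (FD.cs (fun j => Fin.snoc (α := fun _ => ((Empty ⊕ Fin m) ⊕
      (Fin k ↪o Fin m) × Fin (k + 1)) ⊕ Unit)
      (fun i => Sum.inl (Sum.inl (Sum.inr (K i)))) (Sum.inr ()) j)
      (fun j => Sum.inl (Sum.inr (K, j)))).congr fun S _ w => ?_
    have e : (fun j => w (Fin.snoc (α := fun _ => ((Empty ⊕ Fin m) ⊕
      (Fin k ↪o Fin m) × Fin (k + 1)) ⊕ Unit)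
      (fun i => Sum.inl (Sum.inl (Sum.inr (K i)))) (Sum.inr ()) j)) =
        fun j => Fin.snoc (α := fun _ => ℕ) (fun i => w (Sum.inl (Sum.inl (Sum.inr (K i)))))
          (w (Sum.inr ())) j := by
      funext j
      refine Fin.lastCases ?_ (fun i => ?_) j
      · rw [Fin.snoc_last, Fin.snoc_last]
      · rw [Fin.snoc_castSucc, Fin.snoc_castSucc]
    rw [e]
  refine (h1.and (h2.and (h3.and (h4.and (h5.and (h6.and (h7.and (h8.and h9)))))))).congr
    fun S => ?_
  constructor
  · rintro ⟨k1, k2, k3, k4, k5, k6, k7, k8, k9⟩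
    exact ⟨k1, k2, k3, k4, k5, k6, k7, k8, k9⟩
  · rintro ⟨k1, k2, k3, k4, k5, k6, k7, k8, k9⟩
    exact ⟨k1, k2, k3, k4, k5, k6, k7, k8, k9⟩

/-- Translation of formulas. -/
theorem trans [L.IsRelational] {β : Type} {n : ℕ} (φ : L.BoundedFormula β n) :
    ∃ ψ : (TL k L).Formula ((β ⊕ Fin n) × Fin (k + 1)), ∀ S : (TL k L).Structure ℕ, W S →
      ∀ (w : (β ⊕ Fin n) × Fin (k + 1) → ℕ) (c : β → ℕ) (d : Fin n → ℕ),
        (∀ i, lab S (fun j => w (Sum.inl i, j)) (c i)) →
        (∀ i, lab S (fun j => w (Sum.inr i, j)) (d i)) →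
        (@Formula.Realize (TL k L) ℕ S _ ψ w ↔
          @BoundedFormula.Realize L ℕ (D S) _ _ φ c d) := by
  induction φ with
  | falsum =>
    obtain ⟨ψ, hψ⟩ := FD.const (W := W (k := k) (L := L)) (α := (β ⊕ Fin _) × Fin (k + 1)) False
    exact ⟨ψ, fun S hS w c d _ _ => hψ S hS w⟩
  | @equal n t1 t2 =>
    have hv : ∀ t : L.Term (β ⊕ Fin n), ∃ i, t = Term.var i := by
      intro t
      cases t with
      | var i => exact ⟨i, rfl⟩
      | func f _ => exact isEmptyElim f
    obtain ⟨i1, rfl⟩ := hv t1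
    obtain ⟨i2, rfl⟩ := hv t2
    obtain ⟨ψ, hψ⟩ := FD.cs (V := W (k := k) (L := L)) (fun j => (i1, j)) (fun j => (i2, j))
    refine ⟨ψ, fun S hS w c d hc hd => ?_⟩
    rw [hψ S hS w]
    have hl : ∀ i, lab S (fun j => w (i, j)) (Sum.elim c d i) := by
      rintro (i | i)
      · exact hc i
      · exact hd i
    show Cs S (fun j => w (i1, j)) (fun j => w (i2, j)) ↔ Sum.elim c d i1 = Sum.elim c d i2
    rw [← hS.lab_cs (hl i1)]
    constructor
    · intro h
      exact hS.lab_unique h (hl i2)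
    · intro h
      rw [h]
      exact hl i2
  | @rel n l R ts =>
    have hv : ∀ t : L.Term (β ⊕ Fin n), ∃ i, t = Term.var i := by
      intro t
      cases t with
      | var i => exact ⟨i, rfl⟩
      | func f _ => exact isEmptyElim f
    choose g hg using fun i => hv (ts i)
    obtain ⟨ψ, hψ⟩ := FD.rs (V := W (k := k) (L := L)) R (fun i j => (g i, j))
    refine ⟨ψ, fun S hS w c d hc hd => ?_⟩
    rw [hψ S hS w]
    have hl : ∀ i, lab S (fun j => w (i, j)) (Sum.elim c d i) := by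
      rintro (i | i)
      · exact hc i
      · exact hd i
    show Rs S R (fun i j => w (g i, j)) ↔ @Structure.RelMap L ℕ (D S) l R _
    rw [← hS.rel_iff R (v := fun i => Sum.elim c d (g i)) fun i => hl (g i)]
    have e : (fun i => @Term.realize L ℕ (D S) _ (Sum.elim c d) (ts i)) =
        fun i => Sum.elim c d (g i) := by
      funext i
      rw [hg i]
      rfl
    rw [e]
  | @imp n f1 f2 h1 h2 =>
    obtain ⟨ψ1, hψ1⟩ := h1
    obtain ⟨ψ2, hψ2⟩ := h2
    refine ⟨ψ1.imp ψ2, fun S hS w c d hc hd => ?_⟩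
    have e1 := hψ1 S hS w c d hc hd
    have e2 := hψ2 S hS w c d hc hd
    have e3 : @Formula.Realize (TL k L) ℕ S _ (ψ1.imp ψ2) w ↔
      (@Formula.Realize (TL k L) ℕ S _ ψ1 w → @Formula.Realize (TL k L) ℕ S _ ψ2 w) :=
      Formula.realize_imp
    rw [e3, e1, e2]
    exact Iff.rfl
  | @all n f h =>
    obtain ⟨ψ, hψ⟩ := h
    -- the last block becomes a block of new variables
    let g : (β ⊕ Fin (n + 1)) × Fin (k + 1) → ((β ⊕ Fin n) × Fin (k + 1)) ⊕ Fin (k + 1) :=
      fun p => Sum.elim (fun b => Sum.inl (Sum.inl b, p.2))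
        (fun i => Fin.lastCases (motive := fun _ => ((β ⊕ Fin n) × Fin (k + 1)) ⊕ Fin (k + 1))
          (Sum.inr p.2) (fun i' => Sum.inl (Sum.inr i', p.2)) i) p.1
    have hfd : FD (W (k := k) (L := L)) (fun S w => ∀ b : Fin (k + 1) → ℕ,
        Function.Injective b → @Formula.Realize (TL k L) ℕ S _ ψ
          (fun p => Sum.elim w b (g p))) := by
      refine FD.all (P := fun S w b => Function.Injective b →
        @Formula.Realize (TL k L) ℕ S _ ψ (fun p => Sum.elim w b (g p))) ?_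
      refine (FD.inj _).imp ?_
      refine ⟨ψ.relabel g, fun S _ v => ?_⟩
      rw [@Formula.realize_relabel (TL k L) ℕ S _ _ ψ g v]
      have e : (v ∘ g) = fun p => Sum.elim (fun i => v (Sum.inl i)) (fun i => v (Sum.inr i))
          (g p) := by
        funext p
        show v (g p) = _
        rcases g p with q | q <;> rfl
      rw [e]
    obtain ⟨χ, hχ⟩ := hfd
    refine ⟨χ, fun S hS w c d hc hd => ?_⟩
    rw [hχ S hS w]
    show _ ↔ ∀ a, @BoundedFormula.Realize L ℕ (D S) _ _ f c (Fin.snoc d a)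
    have key : ∀ (b : Fin (k + 1) → ℕ) (a : ℕ), lab S b a →
        (@Formula.Realize (TL k L) ℕ S _ ψ (fun p => Sum.elim w b (g p)) ↔
          @BoundedFormula.Realize L ℕ (D S) _ _ f c (Fin.snoc d a)) := by
      intro b a hb
      refine hψ S hS _ c (Fin.snoc d a) (fun i => hc i) (fun i => ?_)
      refine Fin.lastCases ?_ (fun i' => ?_) i
      · have e : (fun j => Sum.elim w b (g (Sum.inr (Fin.last n), j))) = b := by
          funext j
          simp [g]
        rw [e, Fin.snoc_last]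
        exact hb
      · have e : (fun j => Sum.elim w b (g (Sum.inr i'.castSucc, j))) =
            fun j => w (Sum.inr i', j) := by
          funext j
          simp [g]
        rw [e, Fin.snoc_castSucc]
        exact hd i'
    constructor
    · intro h a
      obtain ⟨b, hb⟩ := hS.lab_surj a
      exact (key b a hb).1 (h b (hS.lab_inj hb))
    · intro h b hb
      obtain ⟨a, ha⟩ := hS.lab_exists hb
      exact (key b a ha).2 (h a)

/-- The structures whose colours form a model of a theory are the models of a theory. -/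
theorem ax_theory [L.IsRelational] (T : L.Theory) :
    Ax (fun S : (TL k L).Structure ℕ => W S ∧ @Theory.Model L ℕ (D S) T) := by
  have h : ∀ φ : T, Ax (fun S : (TL k L).Structure ℕ => W S ∧ @Sentence.Realize L ℕ (D S) φ.1) := by
    intro φ
    refine Ax.of_fd (ax_W k L) ?_
    obtain ⟨ψ, hψ⟩ := trans (k := k) (φ.1 : L.BoundedFormula Empty 0)
    let e : (Empty ⊕ Fin 0) × Fin (k + 1) → Empty := fun p =>
      Sum.elim (fun x => x) (fun x => x.elim0) p.1
    refine ⟨ψ.relabel e, fun S hS v => ?_⟩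
    rw [@Formula.realize_relabel (TL k L) ℕ S _ _ ψ e v]
    rw [hψ S hS (v ∘ e) (fun i => i.elim) (fun i => i.elim0) (fun i => i.elim)
      (fun i => i.elim0)]
    have key : ∀ (a b : Empty → ℕ) (a' b' : Fin 0 → ℕ),
        @BoundedFormula.Realize L ℕ (D S) _ _ φ.1 a a' ↔
          @BoundedFormula.Realize L ℕ (D S) _ _ φ.1 b b' := by
      intro a b a' b'
      rw [Subsingleton.elim a b, Subsingleton.elim a' b']
    exact key _ _ _ _
  refine ((ax_W k L).and (Ax.all h)).congr fun S => ?_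
  constructor
  · rintro ⟨h1, h2⟩
    exact ⟨h1, (@Theory.model_iff L ℕ (D S) T).2 fun φ hφ => (h2 ⟨φ, hφ⟩).2⟩
  · rintro ⟨h1, h2⟩
    exact ⟨h1, fun φ => ⟨h1, (@Theory.model_iff L ℕ (D S) T).1 h2 φ.1 φ.2⟩⟩

end Pool.Agent.W889.FO
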